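import Pool.Agent.Helper90.Straus.SieveUp
import Pool.Agent.Helper90.Straus.Sets

set_option autoImplicit false

/-!
# MT / Dim: `|A ∩ [0, n]| ≤ C n/(log n)^k` for every admissible pair and every `k`

`one_sum`: for a prime `p` the elements `a ∈ A` with `p ∣ a + b` for some `b ∈ B` are incongruent
modulo `p` (if `a = a' (mod p)`, `p ∣ a + b`, then `p` divides `a + b` and `a' + b`, so they are equal).

`dim_bound`: fix `k` distinct elements `b_1, …, b_k` of `B`, `w > k` larger than all of them.  Let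
`R` be maximal with `z^c ≤ n + 1`, `z = 2^{2^R}` (`c` from `sieve_upper`), so
`log z ≥ log n/(2c)` up to constants.  Delete from `A ∩ [0, n]` the at most `z²` elements `a` such
that a prime `p < z` divides some `a + b` (`one_sum`) (`z² ≤ n^{2/c}`: enlarge `c` to at least `3`).
The other elements avoid the `k` classes `-b_i` modulo every prime `w < p < z`; `sieve_upper` with
`Ω p` = these classes for `w < p`, `∅` for `p ≤ w`.  `1 - k/p ≤ (1 - 1/p)^k` and
`∏_{p < z} (1 - 1/p)^{-1} ≥ ∑_{m < z} 1/m ≥ log z`, so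
`∏_{w < p < z} (1 - k/p) ≤ (∏_{p ≤ w} (1-1/p)^{-k}) (log z)^{-k}`.
-/

namespace Pool.Agent.MT

open Finset Filter
open Pool.Agent.Helper90.Straus

theorem adm_symm {A B : Set ℕ} (h : Admissible A B) : Admissible B A := by
  obtain ⟨h1, h2, h3⟩ := h
  have hs : sumset B A = sumset A B := by
    ext x
    constructor
    · rintro ⟨b, hb, a, ha, rfl⟩
      exact ⟨a, ha, b, hb, Nat.add_comm _ _⟩
    · rintro ⟨a, ha, b, hb, rfl⟩
      exact ⟨b, hb, a, ha, Nat.add_comm _ _⟩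
  refine ⟨h2, h1, ?_⟩
  rw [hs]
  exact h3

theorem one_sum {A B : Set ℕ} (h : Admissible A B) (p : ℕ) (hp : p.Prime) (F : Finset ℕ)
    (hF : ∀ a ∈ F, a ∈ A ∧ ∃ b ∈ B, p ∣ a + b) : F.card ≤ p := by
  have hinj : Set.InjOn (fun a => a % p) (F : Set ℕ) := by
    intro a ha a' ha' haa
    by_contra hne
    obtain ⟨haA, b, hb, hab⟩ := hF a ha
    obtain ⟨haA', _⟩ := hF a' ha'
    have h1 : p ∣ a' + b := by
      have h2 : (a' + b) % p = (a + b) % p := by
        have h3 : a % p = a' % p := haa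
        rw [Nat.add_mod, ← h3, ← Nat.add_mod]
      exact Nat.dvd_of_mod_eq_zero (by rw [h2]; exact Nat.mod_eq_zero_of_dvd hab)
    have h4 := h.2.2 (a + b) ⟨a, haA, b, hb, rfl⟩ (a' + b) ⟨a', haA', b, hb, rfl⟩
      (fun h5 => hne (Nat.add_right_cancel h5))
    have h6 : p ∣ Nat.gcd (a + b) (a' + b) := Nat.dvd_gcd hab h1
    rw [h4] at h6
    exact hp.one_lt.ne' (Nat.dvd_one.1 h6)
  have h1 : (F.image (fun a => a % p)).card = F.card := Finset.card_image_of_injOn hinj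
  rw [← h1]
  calc (F.image (fun a => a % p)).card ≤ (range p).card := by
        apply Finset.card_le_card
        intro x hx
        rw [Finset.mem_image] at hx
        obtain ⟨a, _, rfl⟩ := hx
        rw [Finset.mem_range]
        exact Nat.mod_lt _ hp.pos
    _ = p := Finset.card_range p

namespace DimAux

/-- `n ↦ 1 / n` as a monoid homomorphism. -/
noncomputable def invHom : ℕ →* ℝ where
  toFun n := (n : ℝ)⁻¹
  map_one' := by simp
  map_mul' m n := by
    push_cast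
    rw [mul_inv]

theorem log_le_prod {N : ℕ} (hN : 1 ≤ N) :
    Real.log N ≤ ∏ p ∈ pr 2 N, (1 - 1 / (p : ℝ))⁻¹ := by
  have hnorm : ∀ {p : ℕ}, p.Prime → ‖invHom p‖ < 1 := by
    intro p hp
    have h1 : (1 : ℝ) < p := by exact_mod_cast hp.one_lt
    have h2 : invHom p = (p : ℝ)⁻¹ := rfl
    rw [h2, norm_inv, Real.norm_of_nonneg (by linarith)]
    exact inv_lt_one_of_one_lt₀ h1
  have h1 := (EulerProduct.summable_and_hasSum_smoothNumbers_prod_primesBelow_geometric
    (f := invHom) hnorm N).2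
  have hpr : N.primesBelow = pr 2 N := by
    ext p
    rw [Nat.mem_primesBelow, mem_pr]
    constructor
    · rintro ⟨h2, h3⟩
      exact ⟨⟨h3.two_le, h2⟩, h3⟩
    · rintro ⟨⟨_, h2⟩, h3⟩
      exact ⟨h2, h3⟩
  rw [hpr] at h1
  have hmem : ∀ n ∈ Icc 1 (N - 1), n ∈ N.smoothNumbers := by
    intro n hn
    rw [Finset.mem_Icc] at hn
    rw [Nat.mem_smoothNumbers_iff_forall_le]
    refine ⟨by omega, fun p hp _ _ => by omega⟩
  have h2 := sum_le_hasSum ((Icc 1 (N - 1)).subtype (· ∈ N.smoothNumbers))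
    (fun n _ => by
      have : invHom n = ((n : ℕ) : ℝ)⁻¹ := rfl
      rw [this]
      positivity) h1
  have h3 : ∑ x ∈ (Icc 1 (N - 1)).subtype (· ∈ N.smoothNumbers), invHom x =
      ∑ n ∈ Icc 1 (N - 1), (n : ℝ)⁻¹ :=
    Finset.sum_subtype_of_mem (fun n : ℕ => (n : ℝ)⁻¹) hmem
  rw [h3] at h2
  have h4 := log_add_one_le_harmonic (N - 1)
  rw [harmonic_eq_sum_Icc] at h4
  push_cast at h4
  have h5 : (((N - 1 : ℕ) : ℝ) + 1) = N := by
    have : N - 1 + 1 = N := by omega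
    exact_mod_cast this
  rw [h5] at h4
  have h6 : ∏ p ∈ pr 2 N, (1 - invHom p)⁻¹ = ∏ p ∈ pr 2 N, (1 - 1 / (p : ℝ))⁻¹ := by
    apply Finset.prod_congr rfl
    intro p _
    have : invHom p = ((p : ℕ) : ℝ)⁻¹ := rfl
    rw [this, one_div]
  rw [h6] at h2
  exact h4.trans h2

theorem one_sub_pos {p : ℕ} (hp : p.Prime) : (1 : ℝ) / 2 ≤ 1 - 1 / (p : ℝ) := by
  have h1 : (2 : ℝ) ≤ p := by exact_mod_cast hp.two_le
  have h2 : 1 / (p : ℝ) ≤ 1 / 2 := one_div_le_one_div_of_le (by norm_num) h1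
  linarith

theorem P_pow_le {N : ℕ} (hN : 2 ≤ N) (k : ℕ) :
    (∏ p ∈ pr 2 N, (1 - 1 / (p : ℝ))) ^ k ≤ 1 / Real.log N ^ k := by
  have h1 := log_le_prod (N := N) (by omega)
  have hlog : 0 < Real.log N := Real.log_pos (by exact_mod_cast (show 1 < N by omega))
  rw [Finset.prod_inv_distrib] at h1
  have hP : 0 < ∏ p ∈ pr 2 N, (1 - 1 / (p : ℝ)) :=
    Finset.prod_pos fun p hp => by linarith [one_sub_pos (mem_pr.1 hp).2]
  rw [← one_div_pow]
  apply pow_le_pow_left₀ hP.le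
  rw [le_div_iff₀ hlog]
  rw [← one_div, le_div_iff₀ hP] at h1
  linarith

/-- The residue classes `-b`, `b ∈ T`, modulo `p ≥ w`. -/
def Om (T : Finset ℕ) (w p : ℕ) : Finset ℕ :=
  if w ≤ p then T.image (fun b => (p - b % p) % p) else ∅

theorem sys_Om {T : Finset ℕ} {w k : ℕ} (hT : T.card = k) (hk : k < w) :
    Sys (k + 1) (Om T w) := by
  intro p hp
  unfold Om
  split_ifs with hw
  · have h1 : (T.image (fun b => (p - b % p) % p)).card ≤ k := by
      rw [← hT]
      exact Finset.card_image_le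
    refine ⟨?_, by omega, by omega⟩
    intro x hx
    rw [Finset.mem_image] at hx
    obtain ⟨b, _, rfl⟩ := hx
    rw [Finset.mem_range]
    exact Nat.mod_lt _ hp.pos
  · refine ⟨Finset.empty_subset _, ?_, ?_⟩
    · rw [Finset.card_empty]
      exact Nat.zero_le _
    · rw [Finset.card_empty]
      exact hp.pos

theorem card_Om {T : Finset ℕ} {w k p : ℕ} (hT : T.card = k) (hTw : ∀ b ∈ T, b < w)
    (hw : w ≤ p) : (Om T w p).card = k := by
  unfold Om
  rw [if_pos hw, Finset.card_image_of_injOn, hT]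
  intro b hb b' hb' hbb
  have h1 : b < p := (hTw b hb).trans_le hw
  have h2 : b' < p := (hTw b' hb').trans_le hw
  simp only [Nat.mod_eq_of_lt h1, Nat.mod_eq_of_lt h2] at hbb
  rcases Nat.eq_zero_or_pos b with h3 | h3
  · rcases Nat.eq_zero_or_pos b' with h4 | h4
    · omega
    · rw [h3, Nat.sub_zero, Nat.mod_self, Nat.mod_eq_of_lt (by omega)] at hbb
      omega
  · rcases Nat.eq_zero_or_pos b' with h4 | h4
    · rw [h4, Nat.sub_zero, Nat.mod_self, Nat.mod_eq_of_lt (by omega)] at hbb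
      omega
    · rw [Nat.mod_eq_of_lt (by omega), Nat.mod_eq_of_lt (by omega)] at hbb
      omega

theorem V_le {T : Finset ℕ} {w k : ℕ} (hT : T.card = k) (hTw : ∀ b ∈ T, b < w) (hk : k < w)
    {N : ℕ} (hN : 2 ≤ N) :
    ∏ p ∈ pr 2 N, (1 - g (Om T w) p) ≤ (2 ^ k) ^ w * (1 / Real.log N ^ k) := by
  have hstep : ∀ p ∈ pr 2 N, 0 ≤ 1 - g (Om T w) p ∧ 1 - g (Om T w) p ≤
      (if p < w then (2 : ℝ) ^ k else 1) * (1 - 1 / (p : ℝ)) ^ k := by
    intro p hp
    have hpp := (mem_pr.1 hp).2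
    have h1 := one_sub_pos hpp
    have hp0 : (0 : ℝ) < p := by exact_mod_cast hpp.pos
    split_ifs with hd
    · have h2 : g (Om T w) p = 0 := by
        unfold g Om
        rw [if_neg (by omega)]
        simp
      rw [h2, sub_zero]
      refine ⟨zero_le_one, ?_⟩
      rw [← mul_pow]
      apply one_le_pow₀
      linarith
    · rw [not_lt] at hd
      have h2 : g (Om T w) p = k / p := by
        unfold g
        rw [card_Om hT hTw hd]
      rw [h2]
      constructor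
      · rw [sub_nonneg, div_le_one hp0]
        exact_mod_cast (show k ≤ p by omega)
      · rw [one_mul]
        have h3 := one_add_mul_le_pow (a := -(1 / (p : ℝ))) (by linarith) k
        have h4 : 1 + (k : ℝ) * -(1 / (p : ℝ)) = 1 - k / p := by ring
        have h5 : 1 + -(1 / (p : ℝ)) = 1 - 1 / (p : ℝ) := by ring
        rw [h4, h5] at h3
        exact h3
  have h1 : ∏ p ∈ pr 2 N, (1 - g (Om T w) p) ≤
      ∏ p ∈ pr 2 N, ((if p < w then (2 : ℝ) ^ k else 1) * (1 - 1 / (p : ℝ)) ^ k) :=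
    Finset.prod_le_prod (fun p hp => (hstep p hp).1) (fun p hp => (hstep p hp).2)
  refine h1.trans ?_
  rw [Finset.prod_mul_distrib, Finset.prod_pow]
  have hlog : 0 < Real.log N := Real.log_pos (by exact_mod_cast (show 1 < N by omega))
  apply mul_le_mul _ (P_pow_le hN k) _ (by positivity)
  · rw [← Finset.prod_filter, Finset.prod_const]
    apply pow_le_pow_right₀ (one_le_pow₀ (by norm_num))
    calc ((pr 2 N).filter (fun p => p < w)).card ≤ (range w).card := by
          apply Finset.card_le_card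
          intro x hx
          rw [Finset.mem_filter] at hx
          rw [Finset.mem_range]
          exact hx.2
      _ = w := Finset.card_range w
  · apply pow_nonneg
    apply Finset.prod_nonneg
    intro p hp
    have := one_sub_pos (mem_pr.1 hp).2
    linarith

theorem exists_R (R₀ c L : ℕ) (hc : 1 ≤ c) (hL : (2 ^ 2 ^ R₀) ^ c ≤ L) :
    ∃ R, R₀ ≤ R ∧ (2 ^ 2 ^ R) ^ c ≤ L ∧ L < (2 ^ 2 ^ (R + 1)) ^ c := by
  have hex : ∃ i, L < (2 ^ 2 ^ (R₀ + i)) ^ c := by
    refine ⟨L, ?_⟩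
    calc L < 2 ^ L := Nat.lt_two_pow_self
      _ ≤ 2 ^ 2 ^ (R₀ + L) := by
        apply Nat.pow_le_pow_right (by norm_num)
        calc L ≤ 2 ^ L := Nat.lt_two_pow_self.le
          _ ≤ 2 ^ (R₀ + L) := Nat.pow_le_pow_right (by norm_num) (by omega)
      _ = (2 ^ 2 ^ (R₀ + L)) ^ 1 := (pow_one _).symm
      _ ≤ (2 ^ 2 ^ (R₀ + L)) ^ c := Nat.pow_le_pow_right Nat.one_le_two_pow hc
  classical
  obtain ⟨i, hi⟩ : ∃ i, i = Nat.find hex := ⟨_, rfl⟩
  have hi1 : L < (2 ^ 2 ^ (R₀ + i)) ^ c := by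
    rw [hi]
    exact Nat.find_spec hex
  have hi0 : i ≠ 0 := by
    intro h0
    rw [h0] at hi1
    simp only [add_zero] at hi1
    omega
  have hi2 : ¬ L < (2 ^ 2 ^ (R₀ + (i - 1))) ^ c := Nat.find_min hex (by omega)
  refine ⟨R₀ + (i - 1), by omega, not_lt.1 hi2, ?_⟩
  have h5 : R₀ + (i - 1) + 1 = R₀ + i := by omega
  rw [h5]
  exact hi1

theorem count_le {A B : Set ℕ} (h : Admissible A B) {T : Finset ℕ} (hTB : ∀ b ∈ T, b ∈ B)
    (w z n : ℕ) :
    (A ∩ Set.Iic n).ncard ≤ z * z + (surv (Om T w) z 0 (n + 1)).card := by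
  classical
  have hfin : (A ∩ Set.Iic n).Finite := (Set.finite_Iic n).subset Set.inter_subset_right
  have hmem : ∀ a, a ∈ hfin.toFinset ↔ a ∈ A ∧ a ≤ n := by
    intro a
    rw [Set.Finite.mem_toFinset]
    exact Iff.rfl
  rw [Set.ncard_eq_toFinset_card _ hfin]
  have hsub : hfin.toFinset ⊆ ((range z).filter Nat.Prime).biUnion
      (fun p => hfin.toFinset.filter (fun a => ∃ b ∈ B, p ∣ a + b)) ∪
      surv (Om T w) z 0 (n + 1) := by
    intro a ha
    rw [Finset.mem_union]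
    by_cases hd : ∃ p, p.Prime ∧ p < z ∧ ∃ b ∈ B, p ∣ a + b
    · left
      obtain ⟨p, hp, hpz, hb⟩ := hd
      rw [Finset.mem_biUnion]
      refine ⟨p, ?_, ?_⟩
      · rw [Finset.mem_filter, Finset.mem_range]
        exact ⟨hpz, hp⟩
      · rw [Finset.mem_filter]
        exact ⟨ha, hb⟩
    · right
      rw [mem_surv]
      have h1 := (hmem a).1 ha
      refine ⟨⟨Nat.zero_le _, by omega⟩, ?_⟩
      intro p hp hpz hmm
      apply hd
      unfold Om at hmm
      split_ifs at hmm with hw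
      · rw [Finset.mem_image] at hmm
        obtain ⟨b, hb, hbe⟩ := hmm
        refine ⟨p, hp, hpz, b, hTB b hb, ?_⟩
        apply Nat.dvd_of_mod_eq_zero
        rw [Nat.add_mod, ← hbe, ← Nat.add_mod]
        have h7 : b % p < p := Nat.mod_lt _ hp.pos
        rw [← Nat.add_mod_mod]
        have h8 : p - b % p + b % p = p := by omega
        rw [h8, Nat.mod_self]
      · exact absurd hmm (Finset.notMem_empty _)
  refine (Finset.card_le_card hsub).trans ((Finset.card_union_le _ _).trans ?_)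
  apply Nat.add_le_add_right
  refine Finset.card_biUnion_le.trans ?_
  calc ∑ p ∈ (range z).filter Nat.Prime,
        (hfin.toFinset.filter (fun a => ∃ b ∈ B, p ∣ a + b)).card
      ≤ ∑ p ∈ (range z).filter Nat.Prime, z := by
        apply Finset.sum_le_sum
        intro p hp
        rw [Finset.mem_filter, Finset.mem_range] at hp
        refine (one_sum h p hp.2 _ ?_).trans hp.1.le
        intro a ha
        rw [Finset.mem_filter] at ha
        exact ⟨((hmem a).1 ha.1).1, ha.2⟩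
    _ = ((range z).filter Nat.Prime).card * z := by
        rw [Finset.sum_const, smul_eq_mul]
    _ ≤ z * z := by
        apply Nat.mul_le_mul_right
        calc ((range z).filter Nat.Prime).card ≤ (range z).card := Finset.card_filter_le _ _
          _ = z := Finset.card_range z

end DimAux

open DimAux in
theorem dim_bound {A B : Set ℕ} (h : Admissible A B) (k : ℕ) : ∃ C : ℝ, 0 < C ∧
    ∀ᶠ n : ℕ in atTop, ((A ∩ Set.Iic n).ncard : ℝ) ≤ C * n / Real.log n ^ k := by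
  obtain ⟨T, hTB, hTk⟩ := h.2.1.exists_subset_card_eq k
  have hTB' : ∀ b ∈ T, b ∈ B := fun b hb => hTB hb
  obtain ⟨w, hTw, hkw⟩ : ∃ w : ℕ, (∀ b ∈ T, b < w) ∧ k < w := by
    refine ⟨T.sup id + k + 1, fun b hb => ?_, by omega⟩
    have : b ≤ T.sup id := Finset.le_sup (f := id) hb
    omega
  obtain ⟨c, R₀, hc2, hs⟩ := sieve_upper (κ := k + 1) (by omega)
  refine ⟨4 * (((2 : ℝ) ^ k) ^ w + k.factorial) * (2 * (c + 1)) ^ k, by positivity, ?_⟩
  filter_upwards [Filter.eventually_ge_atTop ((2 ^ 2 ^ R₀) ^ (c + 1)),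
    Filter.eventually_ge_atTop 2] with n hn hn2
  obtain ⟨R, hR, hRL, hRL'⟩ := exists_R R₀ (c + 1) (n + 1) (by omega) (by omega)
  obtain ⟨z, hz⟩ : ∃ z : ℕ, z = 2 ^ 2 ^ R := ⟨_, rfl⟩
  have hzz : 2 ^ 2 ^ (R + 1) = z ^ 2 := by
    rw [hz, ← pow_mul]
    congr 1
  have hz2 : 2 ≤ z := by
    rw [hz]
    calc 2 = 2 ^ 1 := rfl
      _ ≤ 2 ^ 2 ^ R := Nat.pow_le_pow_right (by norm_num) Nat.one_le_two_pow
  have hRc : (2 ^ 2 ^ R) ^ c ≤ n + 1 :=
    (Nat.pow_le_pow_right Nat.one_le_two_pow (by omega)).trans hRL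
  have hmain := hs R hR (Om T w) (sys_Om hTk hkw) 0 (n + 1) hRc
  rw [hzz] at hRL'
  have hzc : (2 : ℝ) ^ 2 ^ R = z := by
    rw [hz]
    push_cast
    rfl
  rw [← hz] at hmain hRL
  rw [hzc] at hmain
  have hV := V_le hTk hTw hkw hz2
  have hlogz : 0 < Real.log z := Real.log_pos (by exact_mod_cast (show 1 < z by omega))
  have hlogn : 0 < Real.log n := Real.log_pos (by exact_mod_cast (show 1 < n by omega))
  have hz0 : (0 : ℝ) < z := by exact_mod_cast (show 0 < z by omega)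
  have hn0 : (2 : ℝ) ≤ n := by exact_mod_cast hn2
  have hcnt : ((A ∩ Set.Iic n).ncard : ℝ) ≤ z * z + ((surv (Om T w) z 0 (n + 1)).card : ℝ) := by
    exact_mod_cast count_le h hTB' w z n
  have hX : ((n + 1 : ℕ) : ℝ) ≤ 2 * n := by
    push_cast
    linarith
  have hX0 : (0 : ℝ) ≤ ((n + 1 : ℕ) : ℝ) := Nat.cast_nonneg _
  have hzX : (z : ℝ) * z ≤ ((n + 1 : ℕ) : ℝ) / z := by
    rw [le_div_iff₀ hz0]
    have h1 : z * z * z ≤ n + 1 := by
      calc z * z * z = z ^ 3 := by ring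
        _ ≤ z ^ (c + 1) := Nat.pow_le_pow_right (by omega) (by omega)
        _ ≤ n + 1 := hRL
    exact_mod_cast h1
  have hinv : 1 / (z : ℝ) ≤ k.factorial * (1 / Real.log z ^ k) := by
    rw [mul_one_div, div_le_div_iff₀ hz0 (by positivity)]
    have h1 := Real.pow_div_factorial_le_exp (Real.log z) hlogz.le k
    rw [Real.exp_log hz0, div_le_iff₀ (by positivity)] at h1
    linarith
  have hfrac : 1 / Real.log z ^ k ≤ (2 * ((c : ℝ) + 1)) ^ k * (1 / Real.log n ^ k) := by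
    have h1 : Real.log n ≤ 2 * ((c : ℝ) + 1) * Real.log z := by
      have h2 : (n : ℝ) ≤ (z : ℝ) ^ (2 * (c + 1)) := by
        rw [pow_mul]
        exact_mod_cast (show n ≤ (z ^ 2) ^ (c + 1) by omega)
      calc Real.log n ≤ Real.log ((z : ℝ) ^ (2 * (c + 1))) :=
            Real.log_le_log (by linarith) h2
        _ = 2 * ((c : ℝ) + 1) * Real.log z := by
          rw [Real.log_pow]
          push_cast
          ring
    have h3 : Real.log n ^ k ≤ (2 * ((c : ℝ) + 1) * Real.log z) ^ k :=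
      pow_le_pow_left₀ hlogn.le h1 k
    rw [mul_one_div, div_le_div_iff₀ (by positivity) (by positivity), one_mul, ← mul_pow]
    exact h3
  obtain ⟨D, hD⟩ : ∃ D : ℝ, D = 1 / Real.log z ^ k := ⟨_, rfl⟩
  obtain ⟨X, hXd⟩ : ∃ X : ℝ, X = ((n + 1 : ℕ) : ℝ) := ⟨_, rfl⟩
  obtain ⟨P, hP⟩ : ∃ P : ℝ, P = ((2 : ℝ) ^ k) ^ w := ⟨_, rfl⟩
  obtain ⟨K, hK⟩ : ∃ K : ℝ, K = (k.factorial : ℝ) := ⟨_, rfl⟩
  rw [← hXd] at hX hX0 hzX hmain
  rw [← hD] at hinv hV hfrac
  rw [← hK] at hinv ⊢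
  rw [← hP] at hV ⊢
  have hD0 : 0 < D := by rw [hD]; positivity
  have hP0 : 0 < P := by rw [hP]; positivity
  have hK0 : 0 < K := by rw [hK]; positivity
  have h1 : X * (2 * ∏ p ∈ pr 2 z, (1 - g (Om T w) p)) ≤ X * (2 * (P * D)) :=
    mul_le_mul_of_nonneg_left (mul_le_mul_of_nonneg_left hV (by norm_num)) hX0
  have h2 : X / z ≤ X * (K * D) := by
    calc X / z = X * (1 / z) := by ring
      _ ≤ X * (K * D) := mul_le_mul_of_nonneg_left hinv hX0
  have h3 : ((A ∩ Set.Iic n).ncard : ℝ) ≤ X * (2 * (P + K) * D) := by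
    have h4 : X * (2 * (P + K) * D) = X * (2 * (P * D)) + X * (K * D) + X * (K * D) := by ring
    linarith
  refine h3.trans ?_
  have h5 : X * (2 * (P + K) * D) ≤ (2 * n) * (2 * (P + K) *
      ((2 * ((c : ℝ) + 1)) ^ k * (1 / Real.log n ^ k))) := by
    apply mul_le_mul hX _ (by positivity) (by positivity)
    exact mul_le_mul_of_nonneg_left hfrac (by positivity)
  refine h5.trans (le_of_eq ?_)
  ring

/-- `S(n) ≤ |A ∩ [0, n]| |B ∩ [0, n]|` -/
theorem S_le_mul (A B : Set ℕ) (n : ℕ) :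
    S A B n ≤ (A ∩ Set.Iic n).ncard * (B ∩ Set.Iic n).ncard := by
  unfold S
  have hA : (A ∩ Set.Iic n).Finite := (Set.finite_Iic n).subset Set.inter_subset_right
  have hB : (B ∩ Set.Iic n).Finite := (Set.finite_Iic n).subset Set.inter_subset_right
  rw [← Set.ncard_prod]
  have hsub : sumset A B ∩ Set.Icc 1 n ⊆
      (fun q : ℕ × ℕ => q.1 + q.2) '' ((A ∩ Set.Iic n) ×ˢ (B ∩ Set.Iic n)) := by
    rintro x ⟨⟨a, ha, b, hb, rfl⟩, hx⟩
    rw [Set.mem_Icc] at hx
    refine ⟨(a, b), ⟨⟨ha, ?_⟩, hb, ?_⟩, rfl⟩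
    · exact Set.mem_Iic.2 (by omega)
    · exact Set.mem_Iic.2 (by omega)
  exact (Set.ncard_le_ncard hsub ((hA.prod hB).image _)).trans
    (Set.ncard_image_le (hA.prod hB))

end Pool.Agent.MT
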