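import Pool.Agent.MT.Ultra

set_option autoImplicit false

/-!
# MT / Alive: many events occur simultaneously

`hits a L` = number of `l < L` with `a ∈ E l`.  `p_i = sup_L P(hits a L ≥ i) ≥ δ/2` by
`FinProb.markov` (take `L ≥ 2i/δ`).  Choose `Lk i` strictly increasing with
`P(hits a (Lk i) ≥ i) ≥ p_i - δ 2^{-i-3}` (monotone in `L`).  For `i < n`, since
`{hits a (Lk n) ≥ n} ⊆ {hits a (Lk n) ≥ i}`,
`P(hits a (Lk n) ≥ n, hits a (Lk i) < i) ≤ P(hits a (Lk n) ≥ i) - P(hits a (Lk i) ≥ i) ≤ δ 2^{-i-3}`.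
Hence `P(∀ i ≤ n, hits a (Lk i) ≥ i) ≥ p_n - δ 2^{-n-3} - ∑_{i<n} δ 2^{-i-3} ≥ δ/2 - δ/4 > 0`.
-/

namespace Pool.Agent.MT

open Finset

theorem hits_mono (E : ℕ → Set ℕ) (a : ℕ) {L M : ℕ} (h : L ≤ M) : hits E a L ≤ hits E a M := by
  classical
  unfold hits
  refine Finset.card_le_card (fun x hx => ?_)
  rw [Finset.mem_filter] at hx ⊢
  exact ⟨Finset.mem_range.mpr (lt_of_lt_of_le (Finset.mem_range.mp hx.1) h), hx.2⟩

theorem alive {P : Set ℕ → ℝ} (hP : FinProb P) (E : ℕ → Set ℕ) (δ : ℝ) (hδ : 0 < δ)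
    (hE : ∀ l, δ ≤ P (E l)) :
    ∃ Lk : ℕ → ℕ, StrictMono Lk ∧ ∀ n, 0 < P {a | ∀ i ≤ n, i ≤ hits E a (Lk i)} := by
  classical
  set B : ℕ → ℕ → Set ℕ := fun L i => {a | i ≤ hits E a L} with hB
  have hle1 : ∀ S, P S ≤ 1 := fun S => by
    have := hP.mono (Set.subset_univ S)
    rwa [hP.univ_one] at this
  have hBm : ∀ {L M : ℕ} (i : ℕ), L ≤ M → B L i ⊆ B M i := by
    intro L M i h a ha
    exact le_trans (show i ≤ hits E a L from ha) (hits_mono E a h)
  set p : ℕ → ℝ := fun i => ⨆ L, P (B L i) with hp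
  have hbdd : ∀ i, BddAbove (Set.range (fun L => P (B L i))) := fun i =>
    ⟨1, by rintro _ ⟨L, rfl⟩; exact hle1 _⟩
  have hle : ∀ L i, P (B L i) ≤ p i := fun L i => le_ciSup (hbdd i) L
  have hpl : ∀ i, δ / 2 ≤ p i := by
    intro i
    obtain ⟨L, hL⟩ := exists_nat_ge (2 * (i : ℝ) / δ)
    have h1 := hP.markov E δ hδ hE L
    have h2 : {a | δ / 2 * L ≤ (hits E a L : ℝ)} ⊆ B L i := by
      intro a ha
      have ha' : δ / 2 * L ≤ (hits E a L : ℝ) := ha
      have h3 : (i : ℝ) ≤ δ / 2 * L := by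
        rw [div_le_iff₀ hδ] at hL
        linarith
      have h4 : (i : ℝ) ≤ (hits E a L : ℝ) := h3.trans ha'
      exact_mod_cast h4
    exact h1.trans ((hP.mono h2).trans (hle L i))
  have hex : ∀ i, ∃ L, ∀ M, L ≤ M → p i - δ * (1 / 2) ^ (i + 3) ≤ P (B M i) := by
    intro i
    have hpos : 0 < δ * (1 / 2 : ℝ) ^ (i + 3) := by positivity
    obtain ⟨L, hL⟩ := exists_lt_of_lt_ciSup (show p i - δ * (1 / 2) ^ (i + 3) < ⨆ L, P (B L i) by
      show p i - δ * (1 / 2) ^ (i + 3) < p i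
      linarith)
    exact ⟨L, fun M hM => hL.le.trans (hP.mono (hBm i hM))⟩
  choose L0 hL0 using hex
  set Lk : ℕ → ℕ := fun n => ∑ i ∈ range (n + 1), (L0 i + 1) with hLk
  have hmono : StrictMono Lk := by
    refine strictMono_nat_of_lt_succ (fun n => ?_)
    simp only [hLk]
    rw [Finset.sum_range_succ _ (n + 1)]
    omega
  have hLkge : ∀ i, L0 i ≤ Lk i := by
    intro i
    have h1 : L0 i + 1 ≤ Lk i := by
      simp only [hLk]
      exact Finset.single_le_sum (f := fun i => L0 i + 1) (fun _ _ => Nat.zero_le _)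
        (Finset.mem_range.mpr (Nat.lt_succ_self i))
    omega
  refine ⟨Lk, hmono, fun n => ?_⟩
  set A : Set ℕ := {a | ∀ i ≤ n, i ≤ hits E a (Lk i)} with hA
  set D : ℕ → Set ℕ := fun i => B (Lk n) i \ B (Lk i) i with hD
  have hcov : B (Lk n) n ⊆ A ∪ ⋃ i ∈ range n, D i := by
    intro a ha
    by_cases hAa : a ∈ A
    · exact Or.inl hAa
    · right
      have : ∃ i ≤ n, ¬ i ≤ hits E a (Lk i) := by
        by_contra hcon
        push Not at hcon
        exact hAa (fun i hi => hcon i hi)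
      obtain ⟨i, hi, hni⟩ := this
      have hin : i ≠ n := by
        rintro rfl
        exact hni ha
      have hilt : i < n := lt_of_le_of_ne hi hin
      simp only [Set.mem_iUnion]
      refine ⟨i, Finset.mem_range.mpr hilt, ?_, ?_⟩
      · exact le_trans hi (show n ≤ hits E a (Lk n) from ha)
      · exact hni
  have hDle : ∀ i ∈ range n, P (D i) ≤ δ * (1 / 2) ^ (i + 3) := by
    intro i hi
    have hilt := Finset.mem_range.mp hi
    have hsub : B (Lk i) i ⊆ B (Lk n) i := hBm i (hmono.monotone hilt.le)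
    have hadd := hP.add (B (Lk i) i) (D i) Set.disjoint_sdiff_right
    have hun : B (Lk i) i ∪ D i = B (Lk n) i := Set.union_sdiff_cancel hsub
    rw [hun] at hadd
    have h1 := hL0 i (Lk i) (hLkge i)
    have h2 := hle (Lk n) i
    linarith
  have hsum : ∑ i ∈ range n, P (D i) ≤ δ / 4 := by
    have h1 : ∑ i ∈ range n, P (D i) ≤ ∑ i ∈ range n, δ * (1 / 2 : ℝ) ^ (i + 3) :=
      Finset.sum_le_sum hDle
    have h2 : ∀ m : ℕ, ∑ i ∈ range m, δ * (1 / 2 : ℝ) ^ (i + 3) = δ / 4 - δ / 4 * (1 / 2) ^ m := by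
      intro m
      induction m with
      | zero => simp
      | succ m ih =>
        rw [Finset.sum_range_succ, ih, pow_add, pow_succ]
        ring
    rw [h2 n] at h1
    have h3 : 0 ≤ δ / 4 * (1 / 2 : ℝ) ^ n := by positivity
    linarith
  have hmain : P (B (Lk n) n) ≤ P A + ∑ i ∈ range n, P (D i) := by
    have h1 := hP.mono hcov
    have h2 : P (A ∪ ⋃ i ∈ range n, D i) ≤ P A + P (⋃ i ∈ range n, D i) := by
      have h3 : A ∪ (⋃ i ∈ range n, D i) = A ∪ ((⋃ i ∈ range n, D i) \ A) := by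
        rw [Set.union_sdiff_self]
      rw [h3, hP.add _ _ Set.disjoint_sdiff_right]
      have h4 := hP.mono (show (⋃ i ∈ range n, D i) \ A ⊆ ⋃ i ∈ range n, D i from Set.sdiff_subset)
      linarith
    have h5 := hP.biUnion_le (range n) D
    linarith
  have hBn : δ / 2 - δ / 8 ≤ P (B (Lk n) n) := by
    have h1 := hL0 n (Lk n) (hLkge n)
    have h2 := hpl n
    have h3 : δ * (1 / 2 : ℝ) ^ (n + 3) ≤ δ / 8 := by
      have : (1 / 2 : ℝ) ^ (n + 3) ≤ 1 / 8 := by
        rw [pow_add]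
        have h4 : (1 / 2 : ℝ) ^ n ≤ 1 := pow_le_one₀ (by norm_num) (by norm_num)
        nlinarith
      nlinarith
    linarith
  linarith

end Pool.Agent.MT
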