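import Mathlib

set_option autoImplicit false

/-!
# MT / Avg: iterated averages of periodic functions

`avg_small`: a sum of a periodic function with zero sum over a period over an interval of length `H`
is a sum over at most `m` values; `avg H f` is again periodic with zero sum; iterate.

`avg_lower`: by induction.  `(1/H) ∑_{x<H} (c/H) ∑_{y<H} f(t + x + s + y)` contains `f(t + s + z)`
with multiplicity `#{(x, y) : x + y = z}/H² ≥ 1/(4H)` for `H/2 ≤ z < H/2 + H` (`H/2` = integer
division).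
-/

namespace Pool.Agent.MT

open Finset

/-- average over an interval of length `H` -/
noncomputable def avg (H : ℕ) (f : ℤ → ℝ) (t : ℤ) : ℝ := (∑ x ∈ range H, f (t + x)) / H

theorem avg_per (H m : ℕ) (f : ℤ → ℝ) (hper : ∀ t, f (t + m) = f t) (t : ℤ) :
    avg H f (t + m) = avg H f t := by
  unfold avg
  congr 1
  refine Finset.sum_congr rfl fun x _ => ?_
  rw [← hper (t + x)]
  congr 1
  ring

theorem avg_sum_shift (m : ℕ) (f : ℤ → ℝ) (hper : ∀ t, f (t + m) = f t) (t : ℤ) (j : ℕ) :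
    ∑ x ∈ range m, f (t + j + x) = ∑ x ∈ range m, f (t + x) := by
  induction j with
  | zero => simp
  | succ j ih =>
    rw [← ih]
    have h1 : ∑ x ∈ range (m + 1), f (t + j + (x : ℕ)) =
        ∑ x ∈ range m, f (t + j + x) + f (t + j + m) := Finset.sum_range_succ _ m
    have h2 : ∑ x ∈ range (m + 1), f (t + j + (x : ℕ)) =
        ∑ x ∈ range m, f (t + j + ((x + 1 : ℕ) : ℤ)) + f (t + j + ((0 : ℕ) : ℤ)) :=
      Finset.sum_range_succ' _ m
    have h3 := hper (t + j)
    have h4 : ∑ x ∈ range m, f (t + ((j + 1 : ℕ) : ℤ) + x) =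
        ∑ x ∈ range m, f (t + j + ((x + 1 : ℕ) : ℤ)) := by
      refine Finset.sum_congr rfl fun x _ => ?_
      congr 1
      push_cast
      ring
    rw [h4]
    have h5 : f (t + j + ((0 : ℕ) : ℤ)) = f (t + j) := by simp
    linarith

theorem avg_sum_shift_int (m : ℕ) (f : ℤ → ℝ) (hper : ∀ t, f (t + m) = f t) (t : ℤ) :
    ∑ x ∈ range m, f (t + x) = ∑ x ∈ range m, f x := by
  rcases Int.eq_nat_or_neg t with ⟨n, rfl | rfl⟩
  · have := avg_sum_shift m f hper 0 n
    simpa using this
  · have := avg_sum_shift m f hper (-(n : ℤ)) n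
    rw [← this]
    refine Finset.sum_congr rfl fun x _ => ?_
    congr 1
    ring

theorem avg_sum_zero (H m : ℕ) (f : ℤ → ℝ) (hper : ∀ t, f (t + m) = f t)
    (hzero : ∑ x ∈ range m, f x = 0) : ∑ x ∈ range m, avg H f x = 0 := by
  unfold avg
  rw [← Finset.sum_div, Finset.sum_comm]
  have : ∀ y ∈ range H, ∑ x ∈ range m, f ((x : ℤ) + (y : ℤ)) = 0 := by
    intro y _
    have h := avg_sum_shift_int m f hper (y : ℤ)
    rw [hzero] at h
    rw [← h]
    refine Finset.sum_congr rfl fun x _ => ?_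
    congr 1
    ring
  rw [Finset.sum_eq_zero this, zero_div]

theorem avg_sum_mul (m q : ℕ) (f : ℤ → ℝ) (hper : ∀ t, f (t + m) = f t)
    (hzero : ∑ x ∈ range m, f x = 0) (t : ℤ) : ∑ x ∈ range (m * q), f (t + x) = 0 := by
  induction q with
  | zero => simp
  | succ q ih =>
    rw [Nat.mul_succ, Finset.sum_range_add, ih, zero_add]
    have h := avg_sum_shift_int m f hper (t + (m * q : ℕ))
    rw [hzero] at h
    rw [← h]
    refine Finset.sum_congr rfl fun x _ => ?_
    congr 1
    push_cast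
    ring

theorem avg_one (H m : ℕ) (hH : 1 ≤ H) (hm : 1 ≤ m) (f : ℤ → ℝ) (F : ℝ)
    (hF : ∀ t, |f t| ≤ F) (hper : ∀ t, f (t + m) = f t) (hzero : ∑ x ∈ range m, f x = 0) (t : ℤ) :
    |avg H f t| ≤ F * ((m : ℝ) / H) := by
  have hF0 : 0 ≤ F := le_trans (abs_nonneg _) (hF 0)
  have hHr : (0 : ℝ) < H := by exact_mod_cast hH
  unfold avg
  rw [abs_div, abs_of_pos hHr, ← mul_div_assoc]
  refine div_le_div_of_nonneg_right ?_ hHr.le
  have h1 : ∑ x ∈ range H, f (t + x) = ∑ x ∈ range (H % m), f (t + (m * (H / m) : ℕ) + x) := by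
    conv_lhs => rw [← Nat.div_add_mod H m]
    rw [Finset.sum_range_add, avg_sum_mul m (H / m) f hper hzero t, zero_add]
    refine Finset.sum_congr rfl fun x _ => ?_
    congr 1
    push_cast
    ring
  rw [h1]
  calc |∑ x ∈ range (H % m), f (t + (m * (H / m) : ℕ) + x)|
      ≤ ∑ x ∈ range (H % m), |f (t + (m * (H / m) : ℕ) + x)| := Finset.abs_sum_le_sum_abs _ _
    _ ≤ ∑ x ∈ range (H % m), F := Finset.sum_le_sum fun x _ => hF _
    _ = (H % m : ℕ) * F := by simp
    _ ≤ F * m := by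
        rw [mul_comm]
        refine mul_le_mul_of_nonneg_left ?_ hF0
        exact_mod_cast (Nat.mod_lt H (by omega)).le

theorem avg_small (H m k : ℕ) (hH : 1 ≤ H) (hm : 1 ≤ m) (f : ℤ → ℝ) (F : ℝ)
    (hF : ∀ t, |f t| ≤ F) (hper : ∀ t, f (t + m) = f t) (hzero : ∑ x ∈ range m, f x = 0) (t : ℤ) :
    |(avg H)^[k] f t| ≤ F * ((m : ℝ) / H) ^ k := by
  induction k generalizing f F with
  | zero => simpa using hF t
  | succ k ih =>
    rw [Function.iterate_succ_apply, pow_succ', ← mul_assoc]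
    exact ih (avg H f) (F * ((m : ℝ) / H)) (fun t => avg_one H m hH hm f F hF hper hzero t)
      (avg_per H m f hper) (avg_sum_zero H m f hper hzero)

theorem avg_double (H : ℕ) (g : ℕ → ℝ) (hg : ∀ x, 0 ≤ g x) :
    (H : ℝ) / 4 * ∑ z ∈ range H, g (H / 2 + z) ≤ ∑ x ∈ range H, ∑ y ∈ range H, g (x + y) := by
  have h1 : ∀ x ∈ range H, ∑ y ∈ range H, g (x + y) =
      ∑ w ∈ range (2 * H), if x ≤ w ∧ w < x + H then g w else 0 := by
    intro x hx
    rw [mem_range] at hx
    rw [← Finset.sum_filter, Finset.range_eq_Ico, Finset.sum_Ico_add (fun i => g i) 0 H x]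
    refine Finset.sum_congr ?_ fun _ _ => rfl
    ext w
    simp only [mem_Ico, mem_filter, mem_range]
    omega
  rw [Finset.sum_congr rfl h1, Finset.sum_comm]
  have h2 : ∀ w : ℕ, ∑ x ∈ range H, (if x ≤ w ∧ w < x + H then g w else 0) =
      (((range H).filter fun x => x ≤ w ∧ w < x + H).card : ℝ) * g w := by
    intro w
    rw [← Finset.sum_filter, Finset.sum_const, nsmul_eq_mul]
  rw [Finset.sum_congr rfl fun w _ => h2 w]
  have h3 : ∀ z ∈ range H, (H : ℝ) / 4 ≤
      (((range H).filter fun x => x ≤ H / 2 + z ∧ H / 2 + z < x + H).card : ℝ) := by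
    intro z hz
    rw [mem_range] at hz
    have h4 : Finset.Ico (H / 2 + z + 1 - H) (min (H / 2 + z + 1) H) ⊆
        (range H).filter fun x => x ≤ H / 2 + z ∧ H / 2 + z < x + H := by
      intro x hx
      simp only [mem_Ico, mem_filter, mem_range] at hx ⊢
      omega
    have h5 := Finset.card_le_card h4
    rw [Nat.card_Ico] at h5
    have h6 : H ≤ 4 * ((range H).filter fun x => x ≤ H / 2 + z ∧ H / 2 + z < x + H).card := by
      omega
    have h7 : (H : ℝ) ≤
        4 * (((range H).filter fun x => x ≤ H / 2 + z ∧ H / 2 + z < x + H).card : ℝ) := by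
      exact_mod_cast h6
    linarith
  have h8 : ∑ z ∈ range H, (((range H).filter fun x => x ≤ H / 2 + z ∧ H / 2 + z < x + H).card : ℝ)
      * g (H / 2 + z) ≤ ∑ w ∈ range (2 * H),
        (((range H).filter fun x => x ≤ w ∧ w < x + H).card : ℝ) * g w := by
    have h9 := Finset.sum_Ico_add (fun w =>
      (((range H).filter fun x => x ≤ w ∧ w < x + H).card : ℝ) * g w) 0 H (H / 2)
    rw [← Finset.range_eq_Ico] at h9
    rw [h9]
    refine Finset.sum_le_sum_of_subset_of_nonneg ?_ fun w _ _ => by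
      have := hg w
      positivity
    intro w hw
    simp only [mem_Ico, mem_range] at hw ⊢
    omega
  refine le_trans ?_ h8
  rw [Finset.mul_sum]
  exact Finset.sum_le_sum fun z hz => mul_le_mul_of_nonneg_right (h3 z hz) (hg _)

theorem avg_nonneg (H : ℕ) (f : ℤ → ℝ) (hf : ∀ t, 0 ≤ f t) (t : ℤ) : 0 ≤ avg H f t :=
  div_nonneg (Finset.sum_nonneg fun _ _ => hf _) (Nat.cast_nonneg _)

theorem avg_lower (H k : ℕ) (hH : 1 ≤ H) (hk : 1 ≤ k) : ∃ s : ℕ, ∀ f : ℤ → ℝ, (∀ t, 0 ≤ f t) →
    ∀ t : ℤ, (1 / 4 : ℝ) ^ k / H * ∑ x ∈ range H, f (t + s + x) ≤ (avg H)^[k] f t := by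
  have hHr : (0 : ℝ) < H := by exact_mod_cast hH
  induction k, hk using Nat.le_induction with
  | base =>
    refine ⟨0, fun f hf t => ?_⟩
    simp only [pow_one, Function.iterate_one, Nat.cast_zero, add_zero]
    unfold avg
    have : 0 ≤ ∑ x ∈ range H, f (t + x) := Finset.sum_nonneg fun _ _ => hf _
    rw [div_mul_eq_mul_div]
    refine div_le_div_of_nonneg_right ?_ hHr.le
    linarith
  | succ k hk ih =>
    obtain ⟨s, hs⟩ := ih
    refine ⟨s + H / 2, fun f hf t => ?_⟩
    rw [Function.iterate_succ_apply']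
    have h1 : (∑ x ∈ range H, (1 / 4 : ℝ) ^ k / H * ∑ y ∈ range H, f (t + x + s + y)) / H ≤
        avg H ((avg H)^[k] f) t := by
      unfold avg
      exact div_le_div_of_nonneg_right (Finset.sum_le_sum fun x _ => hs f hf (t + x)) hHr.le
    refine le_trans ?_ h1
    have h2 := avg_double H (fun z => f (t + s + z)) fun z => hf _
    have h3 : ∑ x ∈ range H, ∑ y ∈ range H, f (t + x + s + y) =
        ∑ x ∈ range H, ∑ y ∈ range H, f (t + s + ((x + y : ℕ) : ℤ)) := by
      refine Finset.sum_congr rfl fun x _ => Finset.sum_congr rfl fun y _ => ?_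
      congr 1
      push_cast
      ring
    have h4 : ∑ x ∈ range H, f (t + ((s + H / 2 : ℕ) : ℤ) + x) =
        ∑ z ∈ range H, f (t + s + ((H / 2 + z : ℕ) : ℤ)) := by
      refine Finset.sum_congr rfl fun x _ => ?_
      congr 1
      push_cast
      ring
    rw [h4, ← Finset.mul_sum, h3]
    rw [pow_succ]
    have h5 : (0 : ℝ) ≤ (1 / 4 : ℝ) ^ k / H / H := by positivity
    have h6 := mul_le_mul_of_nonneg_left h2 h5
    calc (1 / 4 : ℝ) ^ k * (1 / 4) / H * ∑ z ∈ range H, f (t + s + ((H / 2 + z : ℕ) : ℤ))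
        = (1 / 4 : ℝ) ^ k / H / H * ((H : ℝ) / 4 *
            ∑ z ∈ range H, f (t + s + ((H / 2 + z : ℕ) : ℤ))) := by
          field_simp
      _ ≤ (1 / 4 : ℝ) ^ k / H / H *
            ∑ x ∈ range H, ∑ y ∈ range H, f (t + s + ((x + y : ℕ) : ℤ)) := h6
      _ = _ := by ring

theorem avg_add (H k : ℕ) (f g : ℤ → ℝ) (t : ℤ) :
    (avg H)^[k] (fun u => f u + g u) t = (avg H)^[k] f t + (avg H)^[k] g t := by
  induction k generalizing t with
  | zero => rfl
  | succ k ih =>
    rw [Function.iterate_succ_apply', Function.iterate_succ_apply', Function.iterate_succ_apply']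
    unfold avg at ih ⊢
    rw [← add_div, ← Finset.sum_add_distrib]
    congr 1
    exact Finset.sum_congr rfl fun x _ => ih (t + x)

theorem avg_smul (H k : ℕ) (c : ℝ) (f : ℤ → ℝ) (t : ℤ) :
    (avg H)^[k] (fun u => c * f u) t = c * (avg H)^[k] f t := by
  induction k generalizing t with
  | zero => rfl
  | succ k ih =>
    rw [Function.iterate_succ_apply', Function.iterate_succ_apply']
    unfold avg at ih ⊢
    rw [← mul_div_assoc, Finset.mul_sum]
    congr 1
    exact Finset.sum_congr rfl fun x _ => ih (t + x)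

theorem avg_sum {ι : Type} (H k : ℕ) (s : Finset ι) (f : ι → ℤ → ℝ) (t : ℤ) :
    (avg H)^[k] (fun u => ∑ i ∈ s, f i u) t = ∑ i ∈ s, (avg H)^[k] (f i) t := by
  induction k generalizing t with
  | zero => rfl
  | succ k ih =>
    rw [Function.iterate_succ_apply']
    have h : ∀ i ∈ s, (avg H)^[k + 1] (f i) t =
        (∑ x ∈ range H, (avg H)^[k] (f i) (t + x)) / H := fun i _ => by
      rw [Function.iterate_succ_apply']
      rfl
    rw [Finset.sum_congr rfl h, ← Finset.sum_div, Finset.sum_comm]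
    change (∑ x ∈ range H, (avg H)^[k] (fun u => ∑ i ∈ s, f i u) (t + x)) / H = _
    congr 1
    exact Finset.sum_congr rfl fun x _ => ih (t + x)

theorem avg_const (H k : ℕ) (hH : 1 ≤ H) (c : ℝ) (t : ℤ) : (avg H)^[k] (fun _ => c) t = c := by
  have hHr : (H : ℝ) ≠ 0 := by
    have : H ≠ 0 := by omega
    exact_mod_cast this
  induction k generalizing t with
  | zero => rfl
  | succ k ih =>
    rw [Function.iterate_succ_apply']
    change (∑ x ∈ range H, (avg H)^[k] (fun _ => c) (t + x)) / H = c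
    rw [Finset.sum_congr rfl fun x _ => ih (t + ((x : ℕ) : ℤ))]
    simp only [Finset.sum_const, Finset.card_range, nsmul_eq_mul]
    field_simp

end Pool.Agent.MT
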