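import Mathlib

set_option autoImplicit false

/-!
# MT / Cell: the states of the construction, the next cell and the residue class of the next scale

`M` is the last scale, `β p` the residue class modulo the primes `p ≤ M` of all future cells, `Hc l`
(`l < L`) the cells so far.

`next_cell`: `c` with `c = β p (mod p)` for all primes `p ≤ M` (CRT), `H = {c + (M + 1 + t) ∏_{p ≤ M} p}`,
`t < K L`.

`next_class`: for every prime `p ≤ w` a class `x_p`: for `p ≤ M` from `free` (the elements of the new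
cell are `= β p`); for `M < p ≤ w` avoid `0` and the classes `-h` of at most `∑_{l ≤ L} K l` elements,
possible because `∑_{l ≤ L} K l + 1 ≤ M < p`.  CRT.
-/

namespace Pool.Agent.MT

open Finset

/-- a state of the construction -/
structure Stt (K : ℕ → ℕ) (L M : ℕ) (β : ℕ → ℕ) (Hc : ℕ → Finset ℕ) : Prop where
  card : ∀ l < L, (Hc l).card = K l
  rng : ∀ l < L, ∀ h ∈ Hc l, 1 ≤ h ∧ 16 * h < M
  disj : ∀ l < L, ∀ l' < L, l ≠ l' → Disjoint (Hc l) (Hc l')
  big : ∑ l ∈ range (L + 1), K l + 1 ≤ M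
  free : ∀ p : ℕ, p.Prime → p ≤ M → ∃ x : ℕ, ¬ p ∣ x + β p ∧ ∀ l < L, ∀ h ∈ Hc l, ¬ p ∣ x + h

/-- Chinese remainder theorem for finitely many primes -/
theorem cell_crt (P : Finset ℕ) (hP : ∀ p ∈ P, p.Prime) (r : ℕ → ℕ) :
    ∃ c : ℕ, ∀ p ∈ P, c % p = r p % p := by
  induction P using Finset.induction_on with
  | empty => exact ⟨0, by simp⟩
  | insert q s hq ih =>
    obtain ⟨c, hc⟩ := ih (fun p hp => hP p (Finset.mem_insert_of_mem hp))
    have hqp : q.Prime := hP q (Finset.mem_insert_self _ _)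
    have hco : Nat.Coprime (∏ p ∈ s, p) q := by
      apply Nat.Coprime.prod_left
      intro p hp
      have hpp : p.Prime := hP p (Finset.mem_insert_of_mem hp)
      exact (Nat.coprime_primes hpp hqp).2 (fun h => hq (h ▸ hp))
    obtain ⟨k, hk1, hk2⟩ := Nat.chineseRemainder hco c (r q)
    refine ⟨k, fun p hp => ?_⟩
    rcases Finset.mem_insert.1 hp with rfl | hp'
    · exact hk2
    · have h1 : k ≡ c [MOD p] := Nat.ModEq.of_dvd (Finset.dvd_prod_of_mem (fun p => p) hp') hk1
      exact h1.trans (hc p hp')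

/-- a class which avoids finitely many classes -/
theorem cell_avoid (p : ℕ) (hp : p.Prime) (T : Finset ℕ) (hT : T.card < p) :
    ∃ x : ℕ, ∀ t ∈ T, ¬ p ∣ x + t := by
  have h1 : (T.image (fun t => (p - t % p) % p)).card < (range p).card := by
    rw [Finset.card_range]
    exact lt_of_le_of_lt Finset.card_image_le hT
  obtain ⟨x, hx, hx'⟩ := Finset.exists_mem_notMem_of_card_lt_card h1
  refine ⟨x, fun t ht hdvd => hx' ?_⟩
  refine Finset.mem_image.2 ⟨t, ht, ?_⟩
  have hxp : x < p := Finset.mem_range.1 hx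
  have htp : t % p < p := Nat.mod_lt _ hp.pos
  have h2 : (x + t % p) % p = 0 := by
    have := Nat.mod_eq_zero_of_dvd hdvd
    rwa [Nat.add_mod, Nat.mod_eq_of_lt hxp] at this
  rcases Nat.eq_zero_or_pos (t % p) with h0 | h0
  · rw [h0, add_zero, Nat.mod_eq_of_lt hxp] at h2
    rw [h0, h2]
    simp
  · have h3 : p ∣ x + t % p := Nat.dvd_of_mod_eq_zero h2
    have h4 : x + t % p = p := by
      obtain ⟨m, hm⟩ := h3
      have hm1 : m = 1 := by
        have ha : 0 < p * m := by omega
        have hb : p * m < p * 2 := by omega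
        have hc : 0 < m := Nat.pos_of_mul_pos_left ha |> fun h => by
          rcases Nat.eq_zero_or_pos m with h | h
          · rw [h] at ha; simp at ha
          · exact h
        have hd : m < 2 := lt_of_mul_lt_mul_left hb (Nat.zero_le _)
        omega
      rw [hm, hm1, mul_one]
    rw [show p - t % p = x by omega, Nat.mod_eq_of_lt hxp]

theorem stt_zero (K : ℕ → ℕ) : ∃ M : ℕ, Stt K 0 M (fun _ => 0) (fun _ => ∅) := by
  refine ⟨K 0 + 1, ?_, ?_, ?_, ?_, ?_⟩
  · intro l hl
    omega
  · intro l hl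
    omega
  · intro l hl
    omega
  · simp
  · intro p hp _
    refine ⟨1, ?_, ?_⟩
    · intro h
      have : p ∣ 1 := by simpa using h
      exact hp.one_lt.ne' (Nat.dvd_one.1 this)
    · intro l hl
      omega

/-- the next cell -/
theorem next_cell (K : ℕ → ℕ) (L M : ℕ) (β : ℕ → ℕ) (Hc : ℕ → Finset ℕ)
    (hS : Stt K L M β Hc) :
    ∃ H : Finset ℕ, H.card = K L ∧ ∀ h ∈ H, M < h ∧ ∀ p : ℕ, p.Prime → p ≤ M → h % p = β p % p := by
  obtain ⟨c, hc⟩ := cell_crt ((range (M + 1)).filter Nat.Prime)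
    (fun p hp => (Finset.mem_filter.1 hp).2) β
  have hPm : 0 < primorial M := primorial_pos M
  refine ⟨(range (K L)).image (fun t => c + (M + 1 + t) * primorial M), ?_, ?_⟩
  · rw [Finset.card_image_of_injective, Finset.card_range]
    intro a b hab
    simp only at hab
    have h1 : (M + 1 + a) * primorial M = (M + 1 + b) * primorial M := by omega
    have h2 := Nat.eq_of_mul_eq_mul_right hPm h1
    omega
  · intro h hh
    obtain ⟨t, _, rfl⟩ := Finset.mem_image.1 hh
    refine ⟨?_, fun p hp hpM => ?_⟩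
    · have : M + 1 + t ≤ (M + 1 + t) * primorial M := Nat.le_mul_of_pos_right _ hPm
      omega
    · have h1 : p ∣ primorial M := hp.dvd_primorial_iff.2 hpM
      have h2 : p ∣ (M + 1 + t) * primorial M := Dvd.dvd.mul_left h1 _
      rw [Nat.add_mod, Nat.mod_eq_zero_of_dvd h2, add_zero, Nat.mod_mod]
      exact hc p (Finset.mem_filter.2 ⟨Finset.mem_range.2 (by omega), hp⟩)

/-- the cells after adding a new one are few -/
theorem cell_card_le (K : ℕ → ℕ) (L M : ℕ) (β : ℕ → ℕ) (Hc : ℕ → Finset ℕ) (hS : Stt K L M β Hc)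
    (H : Finset ℕ) (hH : H.card = K L) (y : ℕ) :
    (insert y ((range (L + 1)).biUnion (Function.update Hc L H))).card ≤ M := by
  refine (Finset.card_insert_le _ _).trans ?_
  refine le_trans ?_ hS.big
  refine Nat.add_le_add_right ?_ 1
  refine Finset.card_biUnion_le.trans ?_
  apply Finset.sum_le_sum
  intro l hl
  have hl' : l < L + 1 := Finset.mem_range.1 hl
  by_cases h : l = L
  · subst h
    rw [Function.update_self, hH]
  · rw [Function.update_of_ne h, hS.card l (by omega)]

/-- a free class modulo every prime -/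
theorem cell_free (K : ℕ → ℕ) (L M : ℕ) (β : ℕ → ℕ) (Hc : ℕ → Finset ℕ) (hS : Stt K L M β Hc)
    (H : Finset ℕ) (hH : H.card = K L)
    (hH' : ∀ h ∈ H, M < h ∧ ∀ p : ℕ, p.Prime → p ≤ M → h % p = β p % p) (β' : ℕ → ℕ)
    (hβ : ∀ p : ℕ, p.Prime → p ≤ M → β' p = β p) (p : ℕ) (hp : p.Prime) :
    ∃ x : ℕ, ¬ p ∣ x + β' p ∧ ∀ l < L + 1, ∀ h ∈ Function.update Hc L H l, ¬ p ∣ x + h := by
  by_cases hpM : p ≤ M
  · obtain ⟨x, hx1, hx2⟩ := hS.free p hp hpM
    refine ⟨x, ?_, ?_⟩
    · rw [hβ p hp hpM]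
      exact hx1
    · intro l hl h hh
      by_cases hlL : l = L
      · subst hlL
        rw [Function.update_self] at hh
        have h1 := (hH' h hh).2 p hp hpM
        intro h2
        apply hx1
        have h3 : (x + β p) % p = (x + h) % p := by
          rw [Nat.add_mod, ← h1, ← Nat.add_mod]
        exact Nat.dvd_of_mod_eq_zero (h3.trans (Nat.mod_eq_zero_of_dvd h2))
      · rw [Function.update_of_ne hlL] at hh
        exact hx2 l (by omega) h hh
  · have hcard := cell_card_le K L M β Hc hS H hH (β' p)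
    obtain ⟨x, hx⟩ := cell_avoid p hp _ (lt_of_le_of_lt hcard (not_le.1 hpM))
    refine ⟨x, hx _ (Finset.mem_insert_self _ _), ?_⟩
    intro l hl h hh
    exact hx h (Finset.mem_insert_of_mem (Finset.mem_biUnion.2 ⟨l, Finset.mem_range.2 hl, hh⟩))

/-- the residue class of the next scale -/
theorem next_class (K : ℕ → ℕ) (L M : ℕ) (β : ℕ → ℕ) (Hc : ℕ → Finset ℕ) (hS : Stt K L M β Hc)
    (H : Finset ℕ) (hH : H.card = K L)
    (hH' : ∀ h ∈ H, M < h ∧ ∀ p : ℕ, p.Prime → p ≤ M → h % p = β p % p) (w : ℕ) (hw : M ≤ w) :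
    ∃ v : ℕ, (∀ p : ℕ, p.Prime → p ≤ M → ¬ p ∣ v + β p) ∧
      (∀ p : ℕ, p.Prime → M < p → p ≤ w → ¬ p ∣ v) ∧
      ∀ l < L + 1, ∀ h ∈ Function.update Hc L H l, (v + h).Coprime (primorial w) := by
  classical
  have h1 : ∀ p : ℕ, ∃ x : ℕ, p.Prime → (¬ p ∣ x + (if p ≤ M then β p else 0) ∧
      ∀ l < L + 1, ∀ h ∈ Function.update Hc L H l, ¬ p ∣ x + h) := by
    intro p
    by_cases hp : p.Prime
    · obtain ⟨x, hx⟩ := cell_free K L M β Hc hS H hH hH' (fun p => if p ≤ M then β p else 0)
        (fun p _ hpM => by simp [hpM]) p hp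
      exact ⟨x, fun _ => hx⟩
    · exact ⟨0, fun h => absurd h hp⟩
  choose r hr using h1
  obtain ⟨v, hv⟩ := cell_crt ((range (w + 1)).filter Nat.Prime)
    (fun p hp => (Finset.mem_filter.1 hp).2) r
  have h2 : ∀ p : ℕ, p.Prime → p ≤ w → ∀ t : ℕ, ¬ p ∣ r p + t → ¬ p ∣ v + t := by
    intro p hp hpw t ht h3
    apply ht
    have h4 := hv p (Finset.mem_filter.2 ⟨Finset.mem_range.2 (by omega), hp⟩)
    have h5 : (r p + t) % p = (v + t) % p := by
      rw [Nat.add_mod, ← h4, ← Nat.add_mod]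
    exact Nat.dvd_of_mod_eq_zero (h5.trans (Nat.mod_eq_zero_of_dvd h3))
  refine ⟨v, ?_, ?_, ?_⟩
  · intro p hp hpM
    have h3 := (hr p hp).1
    rw [if_pos hpM] at h3
    exact h2 p hp (hpM.trans hw) _ h3
  · intro p hp hpM hpw
    have h3 := (hr p hp).1
    rw [if_neg (not_le.2 hpM)] at h3
    have h4 := h2 p hp hpw _ h3
    simpa using h4
  · intro l hl h hh
    apply Nat.Coprime.symm
    apply Nat.Coprime.symm
    by_contra hcop
    obtain ⟨p, hp, hp1, hp2⟩ := Nat.Prime.not_coprime_iff_dvd.1 hcop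
    have hpw : p ≤ w := hp.dvd_primorial_iff.1 hp2
    exact h2 p hp hpw h ((hr p hp).2 l hl h hh) hp1

/-- the next state -/
theorem next_state (K : ℕ → ℕ) (L M : ℕ) (β : ℕ → ℕ) (Hc : ℕ → Finset ℕ) (hS : Stt K L M β Hc)
    (H : Finset ℕ) (hH : H.card = K L)
    (hH' : ∀ h ∈ H, M < h ∧ ∀ p : ℕ, p.Prime → p ≤ M → h % p = β p % p) (N : ℕ) (hN : M < N)
    (hN' : ∀ h ∈ H, 16 * h < N) (hN'' : ∑ l ∈ range (L + 2), K l + 1 ≤ N) (β' : ℕ → ℕ)
    (hβ : ∀ p : ℕ, p.Prime → p ≤ M → β' p = β p) :
    Stt K (L + 1) N β' (Function.update Hc L H) := by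
  refine ⟨?_, ?_, ?_, hN'', ?_⟩
  · intro l hl
    by_cases h : l = L
    · subst h
      rw [Function.update_self, hH]
    · rw [Function.update_of_ne h]
      exact hS.card l (by omega)
  · intro l hl h hh
    by_cases hlL : l = L
    · subst hlL
      rw [Function.update_self] at hh
      have := (hH' h hh).1
      exact ⟨by omega, hN' h hh⟩
    · rw [Function.update_of_ne hlL] at hh
      obtain ⟨h1, h2⟩ := hS.rng l (by omega) h hh
      exact ⟨h1, by omega⟩
  · intro l hl l' hl' hne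
    have key : ∀ i < L, Disjoint (Hc i) H := by
      intro i hi
      rw [Finset.disjoint_left]
      intro a ha ha'
      have h1 := (hS.rng i hi a ha).2
      have h2 := (hH' a ha').1
      omega
    by_cases h : l = L
    · subst h
      have h' : l' ≠ l := fun e => hne e.symm
      rw [Function.update_self, Function.update_of_ne h']
      exact (key l' (by omega)).symm
    · by_cases h' : l' = L
      · subst h'
        rw [Function.update_self, Function.update_of_ne h]
        exact key l (by omega)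
      · rw [Function.update_of_ne h, Function.update_of_ne h']
        exact hS.disj l (by omega) l' (by omega) hne
  · intro p hp _
    exact cell_free K L M β Hc hS H hH hH' β' hβ p hp

end Pool.Agent.MT
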