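import Mathlib

set_option autoImplicit false

/-!
# MT / Ratio: second moment method for one cell

`X(a)` = number of `m ∈ Kl` with `Pm m a`.  `∑ wt X ≥ (1/lam) ∑_m S1 ≥ k R / 32` with
`R = Ps x Ub / lam`, `x = G²/U`; `∑ wt X² ≤ (2/lam) (k 9 Ps x Ub + k² 9 Ps x² Ub / PHz)
= 18 k R (1 + k x/PHz)`.  Cauchy-Schwarz: `∑_{X > 0} wt ≥ (∑ wt X)²/∑ wt X² ≥ k R/(18432 (1 + k x/PHz))`.
With `Q = k x/(φ lam) ≥ 6`: `k x/PHz ≤ 400 Q`, `k R = Ps φ Q Ub ≥ (Z0/10) Q Ub`, so the ratio to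
`3 Z0 Ub` is at least `1/(3 · 184320 · 401) ≥ 10^{-9}`.
-/

namespace Pool.Agent.MT

open Finset

variable {κ : Type} [DecidableEq κ]

open Classical in
theorem ratio_cs (A : Finset ℕ) (wt : ℕ → ℝ) (hwt : ∀ a, 0 ≤ wt a) (Kl : Finset κ)
    (Pm : κ → ℕ → Prop) :
    (∑ m ∈ Kl, ∑ a ∈ A.filter (Pm m), wt a) ^ 2 ≤
      (∑ a ∈ A.filter (fun a => ∃ m ∈ Kl, Pm m a), wt a) *
        ∑ m ∈ Kl, ∑ m' ∈ Kl, ∑ a ∈ A.filter (fun a => Pm m a ∧ Pm m' a), wt a := by
  set X : ℕ → ℝ := fun a => ∑ m ∈ Kl, (if Pm m a then (1 : ℝ) else 0) with hX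
  have e1 : ∑ m ∈ Kl, ∑ a ∈ A.filter (Pm m), wt a = ∑ a ∈ A, wt a * X a := by
    have : ∀ m ∈ Kl, ∑ a ∈ A.filter (Pm m), wt a
        = ∑ a ∈ A, wt a * (if Pm m a then (1 : ℝ) else 0) := by
      intro m _
      rw [Finset.sum_filter]
      refine Finset.sum_congr rfl fun a _ => ?_
      split_ifs <;> simp
    rw [Finset.sum_congr rfl this, Finset.sum_comm]
    refine Finset.sum_congr rfl fun a _ => ?_
    rw [hX, Finset.mul_sum]
  have e2 : ∑ m ∈ Kl, ∑ m' ∈ Kl, ∑ a ∈ A.filter (fun a => Pm m a ∧ Pm m' a), wt a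
      = ∑ a ∈ A, wt a * X a ^ 2 := by
    have h : ∀ m ∈ Kl, ∀ m' ∈ Kl, ∑ a ∈ A.filter (fun a => Pm m a ∧ Pm m' a), wt a
        = ∑ a ∈ A, wt a * ((if Pm m a then (1 : ℝ) else 0) * (if Pm m' a then (1 : ℝ) else 0)) := by
      intro m _ m' _
      rw [Finset.sum_filter]
      refine Finset.sum_congr rfl fun a _ => ?_
      by_cases h1 : Pm m a <;> by_cases h2 : Pm m' a <;> simp [h1, h2]
    rw [Finset.sum_congr rfl fun m hm => Finset.sum_congr rfl (h m hm)]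
    rw [Finset.sum_congr rfl fun m _ => Finset.sum_comm (s := Kl) (t := A)
      (f := fun m' a => wt a * ((if Pm m a then (1 : ℝ) else 0) * (if Pm m' a then (1 : ℝ) else 0)))]
    rw [Finset.sum_comm]
    refine Finset.sum_congr rfl fun a _ => ?_
    rw [hX, sq, Finset.sum_mul_sum, Finset.mul_sum]
    refine Finset.sum_congr rfl fun m _ => ?_
    rw [Finset.mul_sum]
  have hX0 : ∀ a ∈ A, a ∉ A.filter (fun a => ∃ m ∈ Kl, Pm m a) → X a = 0 := by
    intro a ha hn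
    rw [Finset.mem_filter] at hn
    push Not at hn
    rw [hX]
    refine Finset.sum_eq_zero fun m hm => ?_
    rw [if_neg (hn ha m hm)]
  have e3 : ∑ a ∈ A, wt a * X a
      = ∑ a ∈ A.filter (fun a => ∃ m ∈ Kl, Pm m a), wt a * X a := by
    refine (Finset.sum_subset (Finset.filter_subset _ _) ?_).symm
    intro a ha hn
    rw [hX0 a ha hn, mul_zero]
  have e4 : ∑ a ∈ A, wt a * X a ^ 2
      = ∑ a ∈ A.filter (fun a => ∃ m ∈ Kl, Pm m a), wt a * X a ^ 2 := by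
    refine (Finset.sum_subset (Finset.filter_subset _ _) ?_).symm
    intro a ha hn
    rw [hX0 a ha hn]
    ring
  rw [e1, e2, e3, e4]
  have cs := Finset.sum_mul_sq_le_sq_mul_sq (A.filter (fun a => ∃ m ∈ Kl, Pm m a))
    (fun a => Real.sqrt (wt a)) (fun a => Real.sqrt (wt a) * X a)
  have f1 : ∀ a, Real.sqrt (wt a) * (Real.sqrt (wt a) * X a) = wt a * X a := by
    intro a
    rw [← mul_assoc, Real.mul_self_sqrt (hwt a)]
  have f2 : ∀ a, Real.sqrt (wt a) ^ 2 = wt a := fun a => Real.sq_sqrt (hwt a)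
  have f3 : ∀ a, (Real.sqrt (wt a) * X a) ^ 2 = wt a * X a ^ 2 := by
    intro a
    rw [mul_pow, Real.sq_sqrt (hwt a)]
  simp only [f1, f2, f3] at cs
  exact cs

open Classical in
theorem ratio (A : Finset ℕ) (wt : ℕ → ℝ) (hwt : ∀ a, 0 ≤ wt a) (Kl : Finset κ)
    (Pm : κ → ℕ → Prop) (lg : κ → ℕ → ℝ) (lam Z0 Ps φ Ub G U PHz : ℝ) (hlam : 0 < lam)
    (hZ0 : 0 < Z0) (hφ : 0 < φ) (hUb : 0 < Ub) (hG : 0 < G) (hU : 0 < U)
    (hlg : ∀ m ∈ Kl, ∀ a, wt a ≠ 0 → lam / 2 ≤ lg m a ∧ lg m a ≤ lam)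
    (hPs : Z0 / (10 * φ) ≤ Ps) (hPH : φ * lam / 400 ≤ PHz)
    (hgain : 6 * φ * lam * U ≤ Kl.card * G ^ 2)
    (h0 : ∑ a ∈ A, wt a ≤ 3 * Z0 * Ub)
    (h1 : ∀ m ∈ Kl, 1 / 32 * Ps * G ^ 2 * (Ub / U) ≤ ∑ a ∈ A.filter (Pm m), wt a * lg m a)
    (h2 : ∀ m ∈ Kl, ∑ a ∈ A.filter (Pm m), wt a * lg m a ≤ 9 * Ps * G ^ 2 * (Ub / U))
    (h3 : ∀ m ∈ Kl, ∀ m' ∈ Kl, m ≠ m' → ∑ a ∈ A.filter (fun a => Pm m a ∧ Pm m' a),
      wt a * lg m a ≤ 9 * Ps * G ^ 2 * G ^ 2 / PHz * (Ub / U ^ 2)) :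
    1 / 1000000000 * ∑ a ∈ A, wt a ≤ ∑ a ∈ A.filter (fun a => ∃ m ∈ Kl, Pm m a), wt a := by
  have hPs0 : 0 < Ps := lt_of_lt_of_le (by positivity) hPs
  have hPH0 : 0 < PHz := lt_of_lt_of_le (by positivity) hPH
  set x : ℝ := G ^ 2 / U with hx
  have hx0 : 0 < x := by positivity
  set R : ℝ := Ps * x * Ub / lam with hR
  have hR0 : 0 < R := by positivity
  set k : ℝ := (Kl.card : ℝ) with hk
  have hk0 : 0 < k := by
    have h : 0 < k * G ^ 2 := lt_of_lt_of_le (by positivity) hgain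
    by_contra hc
    push Not at hc
    have : k * G ^ 2 ≤ 0 := mul_nonpos_of_nonpos_of_nonneg hc (by positivity)
    linarith
  -- upper comparison
  have up : ∀ (F : Finset ℕ) (m : κ), m ∈ Kl →
      ∑ a ∈ F, wt a * lg m a ≤ lam * ∑ a ∈ F, wt a := by
    intro F m hm
    rw [Finset.mul_sum]
    refine Finset.sum_le_sum fun a _ => ?_
    by_cases h : wt a = 0
    · rw [h]; simp
    · have := (hlg m hm a h).2
      nlinarith [hwt a]
  have lo : ∀ (F : Finset ℕ) (m : κ), m ∈ Kl →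
      lam / 2 * ∑ a ∈ F, wt a ≤ ∑ a ∈ F, wt a * lg m a := by
    intro F m hm
    rw [Finset.mul_sum]
    refine Finset.sum_le_sum fun a _ => ?_
    by_cases h : wt a = 0
    · rw [h]; simp
    · have := (hlg m hm a h).1
      nlinarith [hwt a]
  have a1 : ∀ m ∈ Kl, R / 32 ≤ ∑ a ∈ A.filter (Pm m), wt a := by
    intro m hm
    have e := (h1 m hm).trans (up _ m hm)
    have e' : 1 / 32 * Ps * G ^ 2 * (Ub / U) = lam * (R / 32) := by
      rw [hR, hx]; field_simp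
    rw [e'] at e
    exact le_of_mul_le_mul_left e hlam
  have a2 : ∀ m ∈ Kl, ∑ a ∈ A.filter (Pm m), wt a ≤ 18 * R := by
    intro m hm
    have e := (lo _ m hm).trans (h2 m hm)
    have e' : 9 * Ps * G ^ 2 * (Ub / U) = lam / 2 * (18 * R) := by
      rw [hR, hx]; field_simp; ring
    rw [e'] at e
    exact le_of_mul_le_mul_left e (by positivity)
  have a3 : ∀ m ∈ Kl, ∀ m' ∈ Kl, m ≠ m' →
      ∑ a ∈ A.filter (fun a => Pm m a ∧ Pm m' a), wt a ≤ 18 * R * (x / PHz) := by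
    intro m hm m' hm' hne
    have e := (lo _ m hm).trans (h3 m hm m' hm' hne)
    have e' : 9 * Ps * G ^ 2 * G ^ 2 / PHz * (Ub / U ^ 2) = lam / 2 * (18 * R * (x / PHz)) := by
      rw [hR, hx]; field_simp; ring
    rw [e'] at e
    exact le_of_mul_le_mul_left e (by positivity)
  -- first moment
  have m1 : k * (R / 32) ≤ ∑ m ∈ Kl, ∑ a ∈ A.filter (Pm m), wt a := by
    have := Finset.card_nsmul_le_sum Kl (fun m => ∑ a ∈ A.filter (Pm m), wt a) (R / 32) a1
    rwa [nsmul_eq_mul] at this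
  -- second moment
  have m2 : ∑ m ∈ Kl, ∑ m' ∈ Kl, ∑ a ∈ A.filter (fun a => Pm m a ∧ Pm m' a), wt a
      ≤ k * (18 * R + k * (18 * R * (x / PHz))) := by
    have inner : ∀ m ∈ Kl, ∑ m' ∈ Kl, ∑ a ∈ A.filter (fun a => Pm m a ∧ Pm m' a), wt a
        ≤ 18 * R + k * (18 * R * (x / PHz)) := by
      intro m hm
      have t : ∀ m' ∈ Kl, ∑ a ∈ A.filter (fun a => Pm m a ∧ Pm m' a), wt a
          ≤ (if m' = m then 18 * R else 0) + 18 * R * (x / PHz) := by
        intro m' hm'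
        by_cases hc : m' = m
        · rw [if_pos hc, hc]
          have : A.filter (fun a => Pm m a ∧ Pm m a) = A.filter (Pm m) := by
            ext a; simp
          rw [this]
          have := a2 m hm
          have : 0 ≤ 18 * R * (x / PHz) := by positivity
          linarith [a2 m hm]
        · rw [if_neg hc, zero_add]
          exact a3 m hm m' hm' (fun h => hc h.symm)
      refine (Finset.sum_le_sum t).trans ?_
      rw [Finset.sum_add_distrib, Finset.sum_ite_eq' Kl m (fun _ => 18 * R), if_pos hm,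
        Finset.sum_const, nsmul_eq_mul]
    refine (Finset.sum_le_sum inner).trans ?_
    rw [Finset.sum_const, nsmul_eq_mul]
  have cs := ratio_cs A wt hwt Kl Pm
  set B : ℝ := ∑ a ∈ A.filter (fun a => ∃ m ∈ Kl, Pm m a), wt a with hB
  have hB0 : 0 ≤ B := Finset.sum_nonneg fun a _ => hwt a
  have main : (k * (R / 32)) ^ 2 ≤ B * (k * (18 * R + k * (18 * R * (x / PHz)))) := by
    calc (k * (R / 32)) ^ 2 ≤ (∑ m ∈ Kl, ∑ a ∈ A.filter (Pm m), wt a) ^ 2 :=
          pow_le_pow_left₀ (by positivity) m1 2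
      _ ≤ _ := cs
      _ ≤ _ := mul_le_mul_of_nonneg_left m2 hB0
  have main2 : k * R ≤ 18432 * B * (1 + k * x / PHz) := by
    have e1 : (k * (R / 32)) ^ 2 = (k * R) * (k * R) / 1024 := by ring
    have e2 : B * (k * (18 * R + k * (18 * R * (x / PHz))))
        = (k * R) * (18432 * B * (1 + k * x / PHz)) / 1024 := by ring
    rw [e1, e2] at main
    have hkR : 0 < k * R := by positivity
    have : (k * R) * (k * R) ≤ (k * R) * (18432 * B * (1 + k * x / PHz)) := by linarith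
    exact le_of_mul_le_mul_left this hkR
  set Q : ℝ := k * x / (φ * lam) with hQ
  have hQ6 : 6 ≤ Q := by
    rw [hQ, le_div_iff₀ (by positivity), hx]
    have : k * (G ^ 2 / U) = k * G ^ 2 / U := by ring
    rw [this, le_div_iff₀ hU]
    linarith
  have b1 : k * x / PHz ≤ 400 * Q := by
    rw [div_le_iff₀ hPH0]
    have e : k * x = Q * (φ * lam) := by rw [hQ]; field_simp
    rw [e]
    have : φ * lam ≤ 400 * PHz := by linarith
    nlinarith
  have b2 : Z0 / 10 * Q * Ub ≤ k * R := by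
    have e : k * R = Ps * φ * Q * Ub := by
      rw [hR, hQ]; field_simp
    rw [e]
    have : Z0 / 10 ≤ Ps * φ := by
      rw [div_le_iff₀ (by positivity)] at hPs
      linarith
    have hQU : 0 ≤ Q * Ub := by positivity
    nlinarith
  have b3 : Z0 / 10 * Q * Ub ≤ 18432 * B * (1 + 400 * Q) := by
    refine (b2.trans main2).trans ?_
    refine mul_le_mul_of_nonneg_left ?_ (by positivity)
    linarith
  have b4 : 18432 * B * (1 + 400 * Q) ≤ 18432 * B * (401 * Q) := by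
    refine mul_le_mul_of_nonneg_left ?_ (by positivity)
    linarith
  have b5 : Z0 / 10 * Ub ≤ 18432 * B * 401 := by
    have hQ0 : 0 < Q := by linarith
    have : (Z0 / 10 * Ub) * Q ≤ (18432 * B * 401) * Q := by nlinarith
    exact le_of_mul_le_mul_right this hQ0
  calc 1 / 1000000000 * ∑ a ∈ A, wt a ≤ 1 / 1000000000 * (3 * Z0 * Ub) :=
        mul_le_mul_of_nonneg_left h0 (by norm_num)
    _ ≤ B := by
        have hZU : 0 < Z0 * Ub := by positivity
        nlinarith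

end Pool.Agent.MT
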