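import Pool.Agent.MT.Mom2
import Pool.Agent.MT.Ratio

set_option autoImplicit false

/-!
# MT / Maynard: the Maynard-Tao theorem with finitely many cells and a uniform probability

Take `P` from `exists_par`, `K = P.K`, `δ = 10^{-9}`, `η` from `exists_wt`.  `κ` = the subtype of
`(range L).biUnion Hc`, `sh` = coercion, `cell h` = the `l < L` with `h ∈ Hc l`.
`D₀ ≥ 8 (card κ + 5)² + 2`, larger than all shifts (and at least `2`).  For large `N` take `p₁` from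
`err_sum` with `A` = maximum of the `A` of `mom_two`, `mom_three` (`ErrOK` is monotone in `A` when
`log N ≥ 1`); `wt = wtf`.  `ratio` for each cell with `lam = log N`, `Z0 = N/W`, `φ = phW w`,
`Ps = psi0/φ(W)` (`φ(W) = W phW`, `psi0 ≥ N/10`), `Ub = ∏_h UU`,
`∏_{h ≠ m} UU = Ub/U`; `log N/2 ≤ log (a + sh m) ≤ log N` for `N/8 < a < 7N/8`, `8 sh m ≤ N`;
`hgain` from `par_sums` and `P.gain`: `G² ≥ (49/256) J² φ² ξ² lam²`, `U ≤ 3 φ ξ lam`,
`K J² ξ ≥ 100`.
-/

namespace Pool.Agent.MT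

open Finset Filter

private theorem may_errOK {η : ℝ → ℝ} {A A' k w N p₁ : ℕ} (h : ErrOK η A k w N p₁) (hA : A' ≤ A)
    (hN : 1 ≤ Real.log N) : ErrOK η A' k w N p₁ := by
  obtain ⟨h1, h2, E, h3, h4, h5⟩ := h
  refine ⟨h1, h2, E, h3, h4, h5.trans ?_⟩
  refine div_le_div_of_nonneg_left (Nat.cast_nonneg _) (by positivity) ?_
  exact pow_le_pow_right₀ hN hA

private theorem may_gain {K J ξ φ lam G U : ℝ} (hφ : 0 < φ) (hlam : 0 < lam) (hξ : 0 < ξ)
    (hJ : 0 ≤ J) (hK : 0 ≤ K) (hgain : 100 ≤ K * J ^ 2 * ξ)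
    (hG : 7 / 16 * J * φ * (ξ * lam) ≤ G) (hU : U ≤ 3 * φ * (ξ * lam)) :
    6 * φ * lam * U ≤ K * G ^ 2 := by
  have h1 : (7 / 16 * J * φ * (ξ * lam)) ^ 2 ≤ G ^ 2 := pow_le_pow_left₀ (by positivity) hG 2
  have h2 : K * (7 / 16 * J * φ * (ξ * lam)) ^ 2 ≤ K * G ^ 2 := mul_le_mul_of_nonneg_left h1 hK
  have h3 : 6 * φ * lam * U ≤ 6 * φ * lam * (3 * φ * (ξ * lam)) :=
    mul_le_mul_of_nonneg_left hU (by positivity)
  have h4 : K * (7 / 16 * J * φ * (ξ * lam)) ^ 2 =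
      (49 / 256) * (K * J ^ 2 * ξ) * (φ ^ 2 * ξ * lam ^ 2) := by ring
  have h5 : 6 * φ * lam * (3 * φ * (ξ * lam)) = 18 * (φ ^ 2 * ξ * lam ^ 2) := by ring
  have h6 : 0 < φ ^ 2 * ξ * lam ^ 2 := by positivity
  nlinarith

variable {κ : Type} [Fintype κ] [DecidableEq κ]

private theorem may_erase (f : κ → ℝ) (u : ℝ) (hu : 0 < u) (m : κ) (hm : f m = u) :
    ∏ h ∈ univ.erase m, f h = (∏ h, f h) / u := by
  rw [eq_div_iff hu.ne', ← hm, Finset.prod_erase_mul _ _ (mem_univ m)]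

private theorem may_erase2 (f : κ → ℝ) (u : ℝ) (hu : 0 < u) (m m' : κ) (hne : m ≠ m')
    (hm : f m = u) (hm' : f m' = u) :
    ∏ h ∈ (univ.erase m).erase m', f h = (∏ h, f h) / u ^ 2 := by
  have h5 := may_erase f u hu m hm
  have h6 : m' ∈ univ.erase m := mem_erase.2 ⟨hne.symm, mem_univ _⟩
  rw [← Finset.prod_erase_mul _ _ h6, hm'] at h5
  rw [eq_div_iff (pow_ne_zero 2 hu.ne')]
  rw [eq_div_iff hu.ne'] at h5
  rw [← h5]
  ring

private theorem may_nonneg {η : ℝ → ℝ} (hη : IsWt η) (P : Par) (sh cell : κ → ℕ)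
    (L w v p₁ N a : ℕ) : 0 ≤ wtf η P sh cell L w v p₁ N a := by
  rw [wtf]
  split_ifs
  · exact mul_nonneg (hη.nonneg _) (sq_nonneg _)
  · exact le_rfl

private theorem may_supp {η : ℝ → ℝ} (hη : IsWt η) (P : Par) (sh cell : κ → ℕ)
    (L w v p₁ N a : ℕ) (hN : 1 ≤ N) (ha : wtf η P sh cell L w v p₁ N a ≠ 0) :
    N < 8 * a ∧ 8 * a < 7 * N ∧ a % primorial w = v % primorial w := by
  have hNpos : (0 : ℝ) < N := by exact_mod_cast hN
  rw [wtf] at ha
  split_ifs at ha with hc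
  · have h5 : η ((a : ℝ) / N) ≠ 0 := fun h => ha (by rw [h, zero_mul])
    obtain ⟨h6, h7⟩ := hη.supp _ h5
    rw [lt_div_iff₀ hNpos] at h6
    rw [div_lt_iff₀ hNpos] at h7
    refine ⟨?_, ?_, hc⟩
    · have : (N : ℝ) < 8 * a := by linarith
      exact_mod_cast this
    · have : (8 : ℝ) * a < 7 * N := by linarith
      exact_mod_cast this
  · exact absurd rfl ha

private theorem may_log (N a s : ℕ) (hN : 64 ≤ N) (hs : 8 * s ≤ N) (h5 : N < 8 * a)
    (h6 : 8 * a < 7 * N) : Real.log N / 2 ≤ Real.log ((a + s : ℕ) : ℝ) ∧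
      Real.log ((a + s : ℕ) : ℝ) ≤ Real.log N := by
  have hNR : (64 : ℝ) ≤ N := by exact_mod_cast hN
  have hNpos : (0 : ℝ) < N := by linarith
  have h8 : N < 8 * (a + s) := by omega
  have h9 : a + s ≤ N := by omega
  have h8' : (N : ℝ) < 8 * ((a + s : ℕ) : ℝ) := by exact_mod_cast h8
  have h9' : ((a + s : ℕ) : ℝ) ≤ N := by exact_mod_cast h9
  generalize ((a + s : ℕ) : ℝ) = x at h8' h9' ⊢
  have h10 : (0 : ℝ) < x := by linarith
  constructor
  · have h11 : (N : ℝ) ≤ x ^ 2 := by nlinarith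
    have h12 := Real.log_le_log hNpos h11
    rw [Real.log_pow] at h12
    push_cast at h12
    linarith
  · exact Real.log_le_log h10 h9'

private theorem may_Ps {N W T psi : ℝ} (hW : 0 < W) (hT : 0 < T) (hpsi : N / 10 ≤ psi) :
    N / W / (10 * (T / W)) ≤ psi / T := by
  have e1 : N / W / (10 * (T / W)) = N / 10 / T := by
    field_simp
  rw [e1]
  gcongr

private theorem may_main (η : ℝ → ℝ) (hη : IsWt η) (P : Par) (sh cell : κ → ℕ) (L w v : ℕ)
    (hS : Std P sh cell L w v) : ∃ C : ℕ, ∀ᶠ N : ℕ in atTop, ∃ wt : ℕ → ℝ, (∀ a, 0 ≤ wt a) ∧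
      (∀ a, wt a ≠ 0 → N < 8 * a ∧ 8 * a < 7 * N ∧ a % primorial w = v % primorial w) ∧
      0 < ∑ a ∈ range (N + 1), wt a ∧
      (∀ l < L, 1 / 1000000000 * ∑ a ∈ range (N + 1), wt a ≤
        ∑ a ∈ (range (N + 1)).filter (fun a => ∃ m, cell m = l ∧ (a + sh m).Prime), wt a) ∧
      (∑ a ∈ range (N + 1), wt a ^ 2) * N ≤
        Real.log N ^ C * (∑ a ∈ range (N + 1), wt a) ^ 2 := by
  obtain ⟨A2, h2⟩ := mom_two η hη P sh cell L w v hS
  obtain ⟨A3, h3⟩ := mom_three η hη P sh cell L w v hS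
  obtain ⟨C, h4⟩ := mom_fourth η hη P sh cell L w v hS
  have h1 := mom_one η hη P sh cell L w v hS
  have herr := err_sum η hη (max A2 A3) (3 * Fintype.card κ + 1) w (Nat.le_add_left _ _)
  have hps := par_sums P cell L w hS.cell_lt (fun l hl => (hS.card_le l hl).le) hS.w_ge
  have hWpos : 0 < primorial w := primorial_pos w
  have hWR : (0 : ℝ) < primorial w := by exact_mod_cast hWpos
  have htR : (0 : ℝ) < (primorial w).totient := by exact_mod_cast Nat.totient_pos.2 hWpos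
  have hphi : 0 < phW w := div_pos htR hWR
  have hlog : ∀ᶠ N : ℕ in atTop, 1 ≤ Real.log N :=
    (Real.tendsto_log_atTop.comp (tendsto_natCast_atTop_atTop (R := ℝ))).eventually
      (eventually_ge_atTop 1)
  refine ⟨C, ?_⟩
  filter_upwards [h1, h2, h3, h4, herr, hps, hlog, psi0_lower η hη, eventually_ge_atTop 64,
    eventually_ge_atTop (8 * w)] with N h1 h2 h3 h4 herr hps hlog hpsi hN64 hNw
  obtain ⟨p₁, hp⟩ := herr
  have h1 := h1 p₁
  have h2 := h2 p₁ (may_errOK hp (le_max_left A2 A3) hlog)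
  have h3 := h3 p₁ (may_errOK hp (le_max_right A2 A3) hlog)
  have h4 := h4 p₁
  obtain ⟨hps1, -, hps2, -⟩ := hps p₁
  have hN1 : 1 ≤ N := le_trans (by norm_num) hN64
  have hNpos : (0 : ℝ) < N := by exact_mod_cast hN1
  have hlam : 0 < Real.log N := lt_of_lt_of_le one_pos hlog
  have hok : (mkSD P cell L w p₁ N).Ok :=
    mk_ok P cell L w p₁ N hS.cell_lt hS.w_ge (le_trans (by norm_num) hN64)
  have hUpos : ∀ l, 0 < (mkSD P cell L w p₁ N).UU l := fun l => Sums_UU_pos _ hok l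
  refine ⟨wtf η P sh cell L w v p₁ N, fun a => may_nonneg hη P sh cell L w v p₁ N a,
    fun a ha => may_supp hη P sh cell L w v p₁ N a hN1 ha,
    lt_of_lt_of_le (div_pos hNpos (mul_pos (by norm_num) hWR)) h1.1, ?_, h4⟩
  intro l hl
  have hUb : 0 < ∏ h, (mkSD P cell L w p₁ N).UU (cell h) := Finset.prod_pos fun h _ => hUpos _
  obtain ⟨hGl, hUl⟩ := hps1 l hl
  have hcl : ∀ m ∈ univ.filter (fun h => cell h = l), cell m = l := fun m hm => (mem_filter.1 hm).2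
  have hJ : (0 : ℝ) ≤ P.J l := Nat.cast_nonneg _
  have hJpos : (0 : ℝ) < P.J l := by
    have h5 := P.gain l
    by_contra hc
    have h6 : (P.J l : ℝ) = 0 := le_antisymm (not_lt.1 hc) hJ
    rw [h6, zero_pow two_ne_zero, mul_zero, zero_mul] at h5
    linarith
  have hGpos : 0 < (mkSD P cell L w p₁ N).GG l := by
    refine lt_of_lt_of_le ?_ hGl
    exact mul_pos (mul_pos (mul_pos (by norm_num) hJpos) hphi) (mul_pos (P.ξ_pos l) hlam)
  have herase : ∀ m : κ, cell m = l →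
      ∏ h ∈ univ.erase m, (mkSD P cell L w p₁ N).UU (cell h) =
        (∏ h, (mkSD P cell L w p₁ N).UU (cell h)) / (mkSD P cell L w p₁ N).UU l := fun m hm =>
    may_erase (fun h => (mkSD P cell L w p₁ N).UU (cell h)) _ (hUpos l) m (by rw [hm])
  have herase2 : ∀ m m' : κ, m ≠ m' → cell m = l → cell m' = l →
      ∏ h ∈ (univ.erase m).erase m', (mkSD P cell L w p₁ N).UU (cell h) =
        (∏ h, (mkSD P cell L w p₁ N).UU (cell h)) / (mkSD P cell L w p₁ N).UU l ^ 2 :=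
    fun m m' hne hm hm' => may_erase2 (fun h => (mkSD P cell L w p₁ N).UU (cell h)) _ (hUpos l)
      m m' hne (by rw [hm]) (by rw [hm'])
  have key := ratio (range (N + 1)) (wtf η P sh cell L w v p₁ N)
    (fun a => may_nonneg hη P sh cell L w v p₁ N a)
    (univ.filter (fun h => cell h = l)) (fun m a => (a + sh m).Prime)
    (fun m a => Real.log ((a + sh m : ℕ) : ℝ)) (Real.log N) (N / primorial w)
    (psi0 η N / ((primorial w).totient : ℝ)) (phW w)
    (∏ h, (mkSD P cell L w p₁ N).UU (cell h)) ((mkSD P cell L w p₁ N).GG l)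
    ((mkSD P cell L w p₁ N).UU l) ((mkSD P cell L w p₁ N).PH (Real.log N / 200)) hlam
    (div_pos hNpos hWR) hphi hUb hGpos (hUpos l) (fun m _ a ha => by
      obtain ⟨h5, h6, -⟩ := may_supp hη P sh cell L w v p₁ N a hN1 ha
      have h7 := hS.sh_lt m
      exact may_log N a (sh m) hN64 (by omega) h5 h6)
    (may_Ps hWR htR hpsi)
    (le_trans (le_of_eq (by ring)) hps2)
    (by
      rw [hS.card_le l hl]
      exact may_gain hphi hlam (P.ξ_pos l) hJ (Nat.cast_nonneg _) (P.gain l) hGl hUl)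
    (h1.2.trans (le_of_eq (by ring)))
    (fun m hm => by
      have h5 := (h2 m).1
      rw [hcl m hm, herase m (hcl m hm)] at h5
      convert h5)
    (fun m hm => by
      have h5 := (h2 m).2
      rw [hcl m hm, herase m (hcl m hm)] at h5
      convert h5)
    (fun m hm m' hm' hne => by
      have h5 := h3 m m' hne
      rw [hcl m hm, hcl m' hm', herase2 m m' hne (hcl m hm) (hcl m' hm')] at h5
      convert h5)
  refine key.trans (le_of_eq ?_)
  refine Finset.sum_congr ?_ fun _ _ => rfl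
  ext a
  simp only [mem_filter, mem_univ, true_and]

theorem maynard : ∃ (K : ℕ → ℕ) (δ : ℝ), 0 < δ ∧ (∀ l, 1 ≤ K l) ∧
    ∀ (L : ℕ) (Hc : ℕ → Finset ℕ), (∀ l < L, (Hc l).card = K l) →
      (∀ l < L, ∀ l' < L, l ≠ l' → Disjoint (Hc l) (Hc l')) →
      ∃ D₀ : ℕ, ∀ w ≥ D₀, ∀ v : ℕ, (∀ l < L, ∀ h ∈ Hc l, (v + h).Coprime (primorial w)) →
        ∃ C : ℕ, ∀ᶠ N : ℕ in atTop, ∃ wt : ℕ → ℝ, (∀ a, 0 ≤ wt a) ∧
          (∀ a, wt a ≠ 0 → N < 8 * a ∧ 8 * a < 7 * N ∧ a % primorial w = v % primorial w) ∧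
          0 < ∑ a ∈ range (N + 1), wt a ∧
          (∀ l < L, δ * ∑ a ∈ range (N + 1), wt a ≤
            ∑ a ∈ (range (N + 1)).filter (fun a => ∃ h ∈ Hc l, (a + h).Prime), wt a) ∧
          (∑ a ∈ range (N + 1), wt a ^ 2) * N ≤
            Real.log N ^ C * (∑ a ∈ range (N + 1), wt a) ^ 2 := by
  obtain ⟨P⟩ := exists_par
  obtain ⟨η, hη⟩ := exists_wt
  refine ⟨P.K, 1 / 1000000000, by norm_num, P.K_pos, ?_⟩
  intro L Hc hcard hdisj
  classical
  obtain ⟨S, hSdef⟩ : ∃ S : Finset ℕ, S = (range L).biUnion Hc := ⟨_, rfl⟩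
  have hSmem : ∀ y ∈ S, y ∈ (range L).biUnion Hc := fun y hy => hSdef ▸ hy
  have hex : ∀ x : S, ∃ l, l < L ∧ (x : ℕ) ∈ Hc l := by
    intro x
    have h1 := hSmem _ x.2
    rw [mem_biUnion] at h1
    obtain ⟨l, hl, hx⟩ := h1
    exact ⟨l, mem_range.1 hl, hx⟩
  choose cell hcell hmem using hex
  have hcell_eq : ∀ (x : S) (l : ℕ), l < L → (cell x = l ↔ (x : ℕ) ∈ Hc l) := by
    intro x l hl
    constructor
    · rintro rfl
      exact hmem x
    · intro hx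
      by_contra hne
      exact (Finset.disjoint_left.1 (hdisj _ (hcell x) l hl hne)) (hmem x) hx
  have hcc : ∀ l < L, (univ.filter (fun h => cell h = l)).card = P.K l := by
    intro l hl
    rw [← hcard l hl]
    refine Finset.card_bij (fun x _ => (x : ℕ)) ?_ ?_ ?_
    · intro x hx
      rw [mem_filter] at hx
      exact (hcell_eq x l hl).1 hx.2
    · intro x _ y _ hxy
      exact Subtype.ext hxy
    · intro h hh
      have hS : h ∈ S := hSdef ▸ mem_biUnion.2 ⟨l, mem_range.2 hl, hh⟩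
      refine ⟨⟨h, hS⟩, ?_, rfl⟩
      rw [mem_filter]
      exact ⟨mem_univ _, (hcell_eq ⟨h, hS⟩ l hl).2 hh⟩
  refine ⟨8 * (Fintype.card S + 5) ^ 2 + 2 + (S.sup id + 1), ?_⟩
  intro w hw v hv
  have hw1 : 8 * (Fintype.card S + 5) ^ 2 + 2 ≤ w := le_trans (Nat.le_add_right _ _) hw
  have hsh : ∀ h : S, (h : ℕ) < w := by
    intro h
    have h1 : (h : ℕ) ≤ S.sup id := Finset.le_sup (f := id) h.2
    have h2 : S.sup id + 1 ≤ w := le_trans (Nat.le_add_left _ _) hw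
    exact lt_of_le_of_lt h1 h2
  have hS : Std P (fun x : S => (x : ℕ)) cell L w v :=
    ⟨hcell, hcc, Subtype.val_injective, hsh, hw1, fun h => hv (cell h) (hcell h) h (hmem h)⟩
  obtain ⟨C, hC⟩ := may_main η hη P (fun x : S => (x : ℕ)) cell L w v hS
  refine ⟨C, ?_⟩
  filter_upwards [hC] with N hN
  obtain ⟨wt, h1, h2, h3, h4, h5⟩ := hN
  refine ⟨wt, h1, h2, h3, ?_, h5⟩
  intro l hl
  refine (h4 l hl).trans (le_of_eq ?_)
  refine Finset.sum_congr ?_ fun _ _ => rfl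
  ext a
  simp only [mem_filter, and_congr_right_iff]
  intro _
  constructor
  · rintro ⟨m, hm, hpm⟩
    exact ⟨(m : ℕ), (hcell_eq m l hl).1 hm, hpm⟩
  · rintro ⟨h, hh, hpm⟩
    have hS' : h ∈ S := hSdef ▸ mem_biUnion.2 ⟨l, mem_range.2 hl, hh⟩
    exact ⟨⟨h, hS'⟩, (hcell_eq ⟨h, hS'⟩ l hl).2 hh, hpm⟩

end Pool.Agent.MT
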