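import Pool.Agent.MT.Stage
import Pool.Agent.MT.Maynard

set_option autoImplicit false

/-!
# MT / Constr: the recursion

Iterate `stage` starting from `stt_zero` (with `j₀` = the previous `j` plus `1`).  `M s` is the scale
before step `s`, `M (s+1) = n (jx s)`; `β p` = the value at a step with `p ≤ M s` (it does not change
afterwards); `Hc s` = the cell chosen in step `s`.
-/

namespace Pool.Agent.MT

open Finset

open Classical in
/-- the data produced by the recursion -/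
structure Con (δ : ℝ) (n M jx β : ℕ → ℕ) (Hc : ℕ → Finset ℕ) (μ : ℕ → ℕ → ℝ) : Prop where
  M_mono : StrictMono M
  jx_mono : StrictMono jx
  M_succ : ∀ s, M (s + 1) = n (jx s)
  cell : ∀ s, ∀ h ∈ Hc s, M s < h ∧ 16 * h < M (s + 1) ∧
    ∀ p : ℕ, p.Prime → p ≤ M s → h % p = β p % p
  avoid : ∀ s, ∀ p : ℕ, p.Prime → M s < p → ∀ a : ℕ, 1 ≤ a → a ≤ M s → ¬ p ∣ a + β p
  μ_nonneg : ∀ s a, 0 ≤ μ s a
  μ_sum : ∀ s, ∑ a ∈ range (M (s + 1) + 1), μ s a = 1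
  prob : ∀ s, ∀ l ≤ s, δ ≤ ∑ a ∈ (range (M (s + 1) + 1)).filter
    (fun a => ∃ h ∈ Hc l, (a + h).Prime), μ s a
  sets : ∀ s, ∀ F : Finset ℕ, F ⊆ (range (s + 1)).biUnion Hc →
    1 / ((s : ℝ) + 1) ≤
      ∑ a ∈ (range (M (s + 1) + 1)).filter (fun a => ∀ h ∈ F, (a + h).Prime), μ s a →
    ∃ G : Finset ℕ, (∀ a ∈ G, M (s + 1) < 8 * a ∧ 8 * a < 7 * M (s + 1) ∧
        (∀ h ∈ F, (a + h).Prime) ∧ ∀ p : ℕ, p.Prime → p ≤ M (s + 1) → ¬ p ∣ a + β p) ∧
      (M (s + 1) : ℝ) / Real.log (M (s + 1)) ^ jx s ≤ G.card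

/-- raw data of one stage of the recursion -/
structure Raw where
  M : ℕ
  b : ℕ → ℕ
  H : ℕ → Finset ℕ
  j : ℕ
  m : ℕ → ℝ

open Classical in
/-- relation between the data before and after step `L` -/
def RawRel (δ : ℝ) (n : ℕ → ℕ) (L : ℕ) (x y : Raw) : Prop :=
  x.j + 1 ≤ y.j ∧ x.M < y.M ∧ y.M = n y.j ∧
  (∀ l, l ≠ L → y.H l = x.H l) ∧
  (∀ p : ℕ, p.Prime → p ≤ x.M → y.b p = x.b p) ∧
  (∀ h ∈ y.H L, x.M < h ∧ 16 * h < y.M ∧ ∀ p : ℕ, p.Prime → p ≤ x.M → h % p = x.b p % p) ∧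
  (∀ p : ℕ, p.Prime → x.M < p → p ≤ y.M → ∀ a : ℕ, 1 ≤ a → a ≤ x.M → ¬ p ∣ a + y.b p) ∧
  (∀ a, 0 ≤ y.m a) ∧ ∑ a ∈ range (y.M + 1), y.m a = 1 ∧
  (∀ l ≤ L, δ ≤ ∑ a ∈ (range (y.M + 1)).filter
    (fun a => ∃ h ∈ y.H l, (a + h).Prime), y.m a) ∧
  ∀ F : Finset ℕ, F ⊆ (range (L + 1)).biUnion y.H →
    1 / ((L : ℝ) + 1) ≤
      ∑ a ∈ (range (y.M + 1)).filter (fun a => ∀ h ∈ F, (a + h).Prime), y.m a →
    ∃ G : Finset ℕ, (∀ a ∈ G, y.M < 8 * a ∧ 8 * a < 7 * y.M ∧ (∀ h ∈ F, (a + h).Prime) ∧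
        ∀ p : ℕ, p.Prime → p ≤ y.M → ¬ p ∣ a + y.b p) ∧
      (y.M : ℝ) / Real.log y.M ^ y.j ≤ G.card

theorem raw_step (K : ℕ → ℕ) (δ : ℝ) (hM : MayProp K δ) (n : ℕ → ℕ) (hn : StrictMono n)
    (L : ℕ) (x : Raw) (hx : Stt K L x.M x.b x.H) :
    ∃ y : Raw, Stt K (L + 1) y.M y.b y.H ∧ RawRel δ n L x y := by
  obtain ⟨j, β', H, μ, hj, hMn, hS, hb, hH, hav, hμ0, hμ1, hpr, hsets⟩ :=
    stage K δ hM n hn L x.M x.b x.H hx (x.j + 1)
  refine ⟨⟨n j, β', Function.update x.H L H, j, μ⟩, hS, hj, hMn, rfl, ?_, hb, ?_, hav, hμ0, hμ1,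
    hpr, hsets⟩
  · intro l hl
    simp [Function.update_of_ne hl]
  · intro h hh
    simp only [Function.update_self] at hh
    exact hH h hh

theorem exists_raw (K : ℕ → ℕ) (δ : ℝ) (hM : MayProp K δ) (n : ℕ → ℕ) (hn : StrictMono n) :
    ∃ d : ℕ → Raw, ∀ s, RawRel δ n s (d s) (d (s + 1)) := by
  classical
  obtain ⟨M0, h0⟩ := stt_zero K
  have hstep : ∀ L : ℕ, ∀ x : {x : Raw // Stt K L x.M x.b x.H},
      ∃ y : {y : Raw // Stt K (L + 1) y.M y.b y.H}, RawRel δ n L x.1 y.1 := by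
    intro L x
    obtain ⟨y, hy, hr⟩ := raw_step K δ hM n hn L x.1 x.2
    exact ⟨⟨y, hy⟩, hr⟩
  choose nx hnx using hstep
  let e : (L : ℕ) → {x : Raw // Stt K L x.M x.b x.H} := fun L =>
    Nat.rec (motive := fun L => {x : Raw // Stt K L x.M x.b x.H})
      ⟨⟨M0, fun _ => 0, fun _ => ∅, 0, fun _ => 0⟩, h0⟩ (fun L x => nx L x) L
  exact ⟨fun s => (e s).1, fun s => hnx s (e s)⟩

theorem exists_con (K : ℕ → ℕ) (δ : ℝ) (hM : MayProp K δ) (n : ℕ → ℕ) (hn : StrictMono n) :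
    ∃ (M jx β : ℕ → ℕ) (Hc : ℕ → Finset ℕ) (μ : ℕ → ℕ → ℝ), Con δ n M jx β Hc μ := by
  classical
  obtain ⟨d, hd⟩ := exists_raw K δ hM n hn
  have hMm : StrictMono (fun s => (d s).M) := strictMono_nat_of_lt_succ fun s => (hd s).2.1
  have hjm : StrictMono (fun s => (d (s + 1)).j) := strictMono_nat_of_lt_succ fun s => by
    have := (hd (s + 1)).1
    show (d (s + 1)).j < (d (s + 1 + 1)).j
    omega
  have hMs : ∀ s, s ≤ (d s).M := fun s => hMm.id_le s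
  -- stability of the classes
  have hstab : ∀ p : ℕ, p.Prime → ∀ s, p ≤ (d s).M → ∀ k, (d (s + k)).b p = (d s).b p := by
    intro p hp s hs k
    induction k with
    | zero => rfl
    | succ k ih =>
      have h1 : p ≤ (d (s + k)).M := le_trans hs (hMm.monotone (Nat.le_add_right s k))
      have h2 := (hd (s + k)).2.2.2.2.1 p hp h1
      rw [← add_assoc, h2, ih]
  have hst : ∀ p : ℕ, p.Prime → ∀ s, p ≤ (d s).M → (d p).b p = (d s).b p := by
    intro p hp s hs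
    rcases le_total s p with h | h
    · obtain ⟨k, rfl⟩ := Nat.exists_eq_add_of_le h
      exact hstab _ hp s hs k
    · obtain ⟨k, hk⟩ := Nat.exists_eq_add_of_le h
      have := hstab p hp p (hMs p) k
      rw [← hk] at this
      exact this.symm
  -- stability of the cells
  have hcs : ∀ l, ∀ k, (d (l + 1 + k)).H l = (d (l + 1)).H l := by
    intro l k
    induction k with
    | zero => rfl
    | succ k ih =>
      have h2 := (hd (l + 1 + k)).2.2.2.1 l (by omega)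
      rw [← add_assoc, h2, ih]
  have hcl : ∀ l s, l ≤ s → (d (s + 1)).H l = (d (l + 1)).H l := by
    intro l s h
    obtain ⟨k, rfl⟩ := Nat.exists_eq_add_of_le h
    have := hcs l k
    rw [show l + k + 1 = l + 1 + k by ring]
    exact this
  refine ⟨fun s => (d s).M, fun s => (d (s + 1)).j, fun p => (d p).b p,
    fun s => (d (s + 1)).H s, fun s => (d (s + 1)).m, ?_⟩
  refine ⟨hMm, hjm, fun s => (hd s).2.2.1, ?_, ?_, fun s => (hd s).2.2.2.2.2.2.2.1,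
    fun s => (hd s).2.2.2.2.2.2.2.2.1, ?_, ?_⟩
  · intro s h hh
    obtain ⟨h1, h2, h3⟩ := (hd s).2.2.2.2.2.1 h hh
    refine ⟨h1, h2, fun p hp hps => ?_⟩
    rw [h3 p hp hps]
    show (d s).b p % p = (d p).b p % p
    rw [hst p hp s hps]
  · intro s p hp hsp a ha1 ha2
    -- find the step
    have hex : ∃ t, p ≤ (d t).M := ⟨p, hMs p⟩
    obtain ⟨t, ht, hmin⟩ : ∃ t, p ≤ (d (t + 1)).M ∧ (d t).M < p ∧ s ≤ t := by
      have h1 := Nat.find_spec hex
      have h2 : Nat.find hex ≠ 0 := by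
        intro h0
        rw [h0] at h1
        have : (d 0).M ≤ (d s).M := hMm.monotone (Nat.zero_le s)
        have hsp' : (d s).M < p := hsp
        omega
      obtain ⟨t, ht⟩ := Nat.exists_eq_succ_of_ne_zero h2
      have h3 : ¬ p ≤ (d t).M := Nat.find_min hex (by rw [ht]; exact Nat.lt_succ_self t)
      refine ⟨t, by rw [ht] at h1; exact h1, by omega, ?_⟩
      by_contra hcon
      have h4 : t + 1 ≤ s := by omega
      have h5 : (d (t + 1)).M ≤ (d s).M := hMm.monotone h4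
      rw [ht] at h1
      have hsp' : (d s).M < p := hsp
      have h1' : p ≤ (d (t + 1)).M := h1
      omega
    have h6 : (d s).M ≤ (d t).M := hMm.monotone hmin.2
    have h7 := (hd t).2.2.2.2.2.2.1 p hp hmin.1 ht a ha1 (le_trans ha2 h6)
    show ¬ p ∣ a + (d p).b p
    rw [hst p hp (t + 1) ht]
    exact h7
  · intro s l hl
    have h1 := (hd s).2.2.2.2.2.2.2.2.2.1 l hl
    rw [hcl l s hl] at h1
    exact h1
  · intro s F hF hsum
    have hF' : F ⊆ (range (s + 1)).biUnion (d (s + 1)).H := by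
      intro a ha
      have h1 := hF ha
      rw [Finset.mem_biUnion] at h1 ⊢
      obtain ⟨l, hl, hal⟩ := h1
      refine ⟨l, hl, ?_⟩
      rw [hcl l s (by have := Finset.mem_range.1 hl; omega)]
      exact hal
    obtain ⟨G, hG, hG2⟩ := (hd s).2.2.2.2.2.2.2.2.2.2 F hF' hsum
    refine ⟨G, fun a ha => ?_, hG2⟩
    obtain ⟨g1, g2, g3, g4⟩ := hG a ha
    refine ⟨g1, g2, g3, fun p hp hps => ?_⟩
    show ¬ p ∣ a + (d p).b p
    rw [hst p hp (s + 1) hps]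
    exact g4 p hp hps

end Pool.Agent.MT
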