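import Pool.Agent.MT.Pair

set_option autoImplicit false

/-!
# MT / Env: the envelope theorem

If it fails then for every `K` there are arbitrarily large `n` with `|g n| < n/(log n)^K`; choose `n`
strictly increasing with `|g (n j)| < n j/(log (n j))^(2j)`, apply `exists_pair`, and
`S(m) ≤ c |g m|` for large `m`: `(log (n j))^j ≤ c` for infinitely many `j`, a contradiction.
-/

namespace Pool.Agent.MT

open Finset Filter

/-- every common upper bound of the counting functions is at least `n/(log n)^K` -/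
theorem envelope (g : ℕ → ℝ)
    (hg : ∀ A B : Set ℕ, Pool.Agent.Helper90.Straus.Admissible A B →
      (fun n : ℕ => (Pool.Agent.Helper90.Straus.S A B n : ℝ)) =O[atTop] g) :
    ∃ K : ℕ, ∀ᶠ n : ℕ in atTop, (n : ℝ) / Real.log n ^ K ≤ |g n| := by
  by_contra hcon
  push Not at hcon
  have h1 : ∀ j : ℕ, ∃ᶠ k : ℕ in atTop, |g k| < (k : ℝ) / Real.log k ^ (2 * j) := by
    intro j
    exact hcon (2 * j)
  obtain ⟨n, hn, hng⟩ := Filter.extraction_forall_of_frequently h1
  obtain ⟨A, B, hAB, hS⟩ := exists_pair n hn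
  obtain ⟨c, hc⟩ := (hg A B hAB).bound
  have hntop : Tendsto n atTop atTop := hn.tendsto_atTop
  have h2 : ∀ᶠ j : ℕ in atTop, ‖(Pool.Agent.Helper90.Straus.S A B (n j) : ℝ)‖ ≤ c * ‖g (n j)‖ :=
    hntop.eventually hc
  have h3 : ∀ᶠ j : ℕ in atTop, (2 : ℝ) ≤ Real.log (n j) := by
    have h4 : Tendsto (fun j : ℕ => Real.log (n j : ℝ)) atTop atTop :=
      Real.tendsto_log_atTop.comp (tendsto_natCast_atTop_atTop.comp hntop)
    exact h4.eventually_ge_atTop 2
  have h5 : ∀ᶠ j : ℕ in atTop, |c| < (2 : ℝ) ^ j := by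
    have h6 : Tendsto (fun j : ℕ => (2 : ℝ) ^ j) atTop atTop :=
      tendsto_pow_atTop_atTop_of_one_lt (by norm_num)
    exact h6.eventually_gt_atTop |c|
  obtain ⟨j, hj1, hj2, hj3, hj4⟩ := (hS.and_eventually (h2.and (h3.and h5))).exists
  have hgj := hng j
  set X : ℝ := (n j : ℝ) with hX
  set l : ℝ := Real.log X with hl
  have hl2 : (2 : ℝ) ≤ l := hj3
  have hX0 : 0 < X := by
    rcases Nat.eq_zero_or_pos (n j) with h0 | h0
    · exfalso
      rw [hl, hX, h0] at hl2
      norm_num at hl2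
    · rw [hX]
      exact_mod_cast h0
  have hlp : 0 < l ^ j := by positivity
  have h7 : X / l ^ j ≤ |c| * |g (n j)| := by
    refine hj1.trans ?_
    have h8 : (Pool.Agent.Helper90.Straus.S A B (n j) : ℝ) ≤ c * |g (n j)| := by
      have := hj2
      rw [Real.norm_eq_abs, Real.norm_eq_abs, abs_of_nonneg (Nat.cast_nonneg _)] at this
      exact this
    exact h8.trans (mul_le_mul_of_nonneg_right (le_abs_self c) (abs_nonneg _))
  have h9 : X / l ^ j ≤ |c| * (X / l ^ (2 * j)) :=
    h7.trans (mul_le_mul_of_nonneg_left hgj.le (abs_nonneg _))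
  have h10 : |c| * (X / l ^ (2 * j)) = (|c| / l ^ j) * (X / l ^ j) := by
    rw [two_mul, pow_add]
    field_simp
  rw [h10] at h9
  have h11 : 0 < X / l ^ j := by positivity
  have h12 : 1 ≤ |c| / l ^ j := by
    by_contra h
    push Not at h
    nlinarith
  rw [le_div_iff₀ hlp, one_mul] at h12
  have h13 : (2 : ℝ) ^ j ≤ l ^ j := pow_le_pow_left₀ (by norm_num) hl2 j
  linarith

end Pool.Agent.MT
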