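import Pool.Agent.MT.Alive

set_option autoImplicit false

/-!
# MT / Koenig: an infinite set of shifts all of whose finite parts have positive probability

`tree`: apply `alive` to `E l = {a | ∃ h ∈ Hc l, T a h}`.  For `n` consider the choice functions
`f : ℕ → Option ℕ` with `f l = some h → h ∈ Hc l` such that `#{l < Lk i : f l ≠ none} ≥ i` for all
`i ≤ n` and `0 < P {a | ∀ l < Lk n, ∀ h, f l = some h → T a h}`.  The set `C_n` of these `f` is
nonempty: the event of `alive` is covered by the finitely many events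
`{a | ∀ l < Lk n, f l = some h → T a h}` (for `a` in the event choose `f l` for every `l < Lk n` with
`a ∈ E l`), `FinProb.biUnion_le`.  `C_{n+1} ⊆ C_n`, and `C_n` depends only on the coordinates
`l < Lk n`, so it is clopen in the compact product of the finite discrete spaces
`{none} ∪ some '' Hc l`; the intersection of all `C_n` contains some `f`
(`IsCompact.nonempty_iInter_of_sequence_nonempty_isCompact_isClosed`, or König's lemma by hand).  It
has infinitely many `l` with `f l ≠ none`; enumerate them (`Nat.nth`): `lv`, `f (lv i) = some (b i)`.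

`koenig`: `tree` for the `P` of `exists_ultra`.
-/

namespace Pool.Agent.MT

open Finset Filter

theorem tree_step {P : Set ℕ → ℝ} (hP : FinProb P) (Hc : ℕ → Finset ℕ)
    (T : ℕ → ℕ → Prop) (Lk : ℕ → ℕ) (hLk : StrictMono Lk) (n : ℕ)
    (hV : 0 < P {a | ∀ i ≤ n, i ≤ hits (fun l => {a | ∃ h ∈ Hc l, T a h}) a (Lk i)}) :
    ∃ f : ℕ → Option ℕ, (∀ l h, f l = some h → h ∈ Hc l) ∧
      (∀ i ≤ n, i ≤ Set.ncard {l | l < Lk i ∧ f l ≠ none}) ∧
      0 < P {a | ∀ l < Lk n, ∀ h, f l = some h → T a h} := by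
  classical
  let ext : (Fin (Lk n) → Option ℕ) → ℕ → Option ℕ :=
    fun g l => if h : l < Lk n then g ⟨l, h⟩ else none
  let G : Finset (Fin (Lk n) → Option ℕ) :=
    (Fintype.piFinset (fun l : Fin (Lk n) => insert none ((Hc l).image some))).filter
      (fun g => ∀ i ≤ n, i ≤ Set.ncard {l | l < Lk i ∧ ext g l ≠ none})
  have hcov : {a | ∀ i ≤ n, i ≤ hits (fun l => {a | ∃ h ∈ Hc l, T a h}) a (Lk i)} ⊆
      ⋃ g ∈ G, {a | ∀ l < Lk n, ∀ h, ext g l = some h → T a h} := by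
    intro a ha
    have hch : ∀ l : Fin (Lk n), ∃ x : Option ℕ, x ∈ insert none ((Hc l).image some) ∧
        (∀ h, x = some h → T a h) ∧ ((∃ h ∈ Hc l, T a h) → x ≠ none) := by
      intro l
      by_cases h : ∃ h ∈ Hc l, T a h
      · obtain ⟨y, hy1, hy2⟩ := h
        refine ⟨some y, ?_, ?_, ?_⟩
        · exact Finset.mem_insert_of_mem (Finset.mem_image_of_mem some hy1)
        · intro z hz
          rw [Option.some.injEq] at hz
          rw [← hz]
          exact hy2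
        · intro _
          exact Option.some_ne_none y
      · refine ⟨none, Finset.mem_insert_self _ _, ?_, fun h' => absurd h' h⟩
        intro z hz
        exact absurd hz.symm (Option.some_ne_none z)
    choose g hg1 hg2 hg3 using hch
    rw [Set.mem_iUnion₂]
    refine ⟨g, ?_, ?_⟩
    · refine Finset.mem_filter.2 ⟨Fintype.mem_piFinset.2 hg1, ?_⟩
      intro i hi
      refine (ha i hi).trans ?_
      have hfin : {l | l < Lk i ∧ ext g l ≠ none}.Finite :=
        (Set.finite_lt_nat (Lk i)).subset (fun l hl => hl.1)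
      unfold hits
      refine (Set.ncard_coe_finset _).symm.le.trans (Set.ncard_le_ncard ?_ hfin)
      intro l hl
      have hl' := (@Finset.mem_filter _ _ (_) _ _).1 (Finset.mem_coe.1 hl)
      have h1 : l < Lk i := Finset.mem_range.1 hl'.1
      have h2 : l < Lk n := lt_of_lt_of_le h1 (hLk.monotone hi)
      refine ⟨h1, ?_⟩
      have h3 : ext g l = g ⟨l, h2⟩ := dif_pos h2
      rw [h3]
      exact hg3 ⟨l, h2⟩ hl'.2
    · intro l hl h hh
      have h3 : ext g l = g ⟨l, hl⟩ := dif_pos hl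
      rw [h3] at hh
      exact hg2 ⟨l, hl⟩ h hh
  have h1 : 0 < ∑ g ∈ G, P {a | ∀ l < Lk n, ∀ h, ext g l = some h → T a h} :=
    lt_of_lt_of_le hV ((hP.mono hcov).trans (hP.biUnion_le G _))
  obtain ⟨g, hg, hgp⟩ := Finset.exists_lt_of_sum_lt (f := fun _ => (0 : ℝ)) (by simpa using h1)
  have hg' := Finset.mem_filter.1 hg
  refine ⟨ext g, ?_, hg'.2, hgp⟩
  intro l h hl
  by_cases hlt : l < Lk n
  · have h3 : ext g l = g ⟨l, hlt⟩ := dif_pos hlt
    rw [h3] at hl
    have h4 := Fintype.mem_piFinset.1 hg'.1 ⟨l, hlt⟩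
    rw [hl] at h4
    rcases Finset.mem_insert.1 h4 with h5 | h5
    · exact absurd h5 (Option.some_ne_none h)
    · obtain ⟨y, hy1, hy2⟩ := Finset.mem_image.1 h5
      rw [Option.some.injEq] at hy2
      rw [← hy2]
      exact hy1
  · have h3 : ext g l = none := dif_neg hlt
    rw [h3] at hl
    exact absurd hl.symm (Option.some_ne_none h)

theorem tree {P : Set ℕ → ℝ} (hP : FinProb P) (δ : ℝ) (hδ : 0 < δ) (Hc : ℕ → Finset ℕ)
    (T : ℕ → ℕ → Prop) (hT : ∀ l, δ ≤ P {a | ∃ h ∈ Hc l, T a h}) :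
    ∃ b lv : ℕ → ℕ, StrictMono lv ∧ (∀ i, b i ∈ Hc (lv i)) ∧
      ∀ i, 0 < P {a | ∀ i' ≤ i, T a (b i')} := by
  classical
  obtain ⟨Lk, hLk, hV⟩ := alive hP (fun l => {a | ∃ h ∈ Hc l, T a h}) δ hδ hT
  choose F hF1 hF2 hF3 using fun n => tree_step hP Hc T Lk hLk n (hV n)
  have hval : ∀ l, ∃ x : Option ℕ, ∀ᶠ n in ((hyperfilter ℕ : Ultrafilter ℕ) : Filter ℕ),
      F n l = x := by
    intro l
    have h1 : ∀ᶠ n in ((hyperfilter ℕ : Ultrafilter ℕ) : Filter ℕ),
        ∃ x ∈ ((insert none ((Hc l).image some) : Finset (Option ℕ)) : Set (Option ℕ)),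
          F n l = x := by
      refine Filter.Eventually.of_forall fun n => ⟨F n l, ?_, rfl⟩
      rw [Finset.mem_coe]
      rcases h : F n l with _ | y
      · exact Finset.mem_insert_self _ _
      · exact Finset.mem_insert_of_mem (Finset.mem_image_of_mem some (hF1 n l y h))
    obtain ⟨x, _, hx⟩ := (Ultrafilter.eventually_exists_mem_iff (Finset.finite_toSet _)).1 h1
    exact ⟨x, hx⟩
  choose f hf using hval
  have hge : ∀ m : ℕ, ∀ᶠ n in ((hyperfilter ℕ : Ultrafilter ℕ) : Filter ℕ), m ≤ n := by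
    intro m
    have h1 : ((hyperfilter ℕ : Ultrafilter ℕ) : Filter ℕ) ≤ atTop := Nat.hyperfilter_le_atTop
    exact h1 (eventually_ge_atTop m)
  have hfm : ∀ l h, f l = some h → h ∈ Hc l := by
    intro l h hl
    obtain ⟨n, hn⟩ := (hf l).exists
    exact hF1 n l h (hn.trans hl)
  have hagree : ∀ m : ℕ, ∃ n, m ≤ n ∧ ∀ l ∈ range (Lk m), F n l = f l := by
    intro m
    have h1 : ∀ᶠ n in ((hyperfilter ℕ : Ultrafilter ℕ) : Filter ℕ),
        ∀ l ∈ range (Lk m), F n l = f l :=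
      (Filter.eventually_all_finset _).2 (fun l _ => hf l)
    obtain ⟨n, hn1, hn2⟩ := (h1.and (hge m)).exists
    exact ⟨n, hn2, hn1⟩
  have hcnt : ∀ m : ℕ, m ≤ Set.ncard {l | l < Lk m ∧ f l ≠ none} := by
    intro m
    obtain ⟨n, hn1, hn2⟩ := hagree m
    refine (hF2 n m hn1).trans (le_of_eq ?_)
    congr 1
    ext l
    constructor
    · rintro ⟨h1, h2⟩
      rw [hn2 l (Finset.mem_range.2 h1)] at h2
      exact ⟨h1, h2⟩
    · rintro ⟨h1, h2⟩
      refine ⟨h1, ?_⟩
      rw [hn2 l (Finset.mem_range.2 h1)]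
      exact h2
  have hpos : ∀ m : ℕ, 0 < P {a | ∀ l < Lk m, ∀ h, f l = some h → T a h} := by
    intro m
    obtain ⟨n, hn1, hn2⟩ := hagree m
    refine lt_of_lt_of_le (hF3 n) (hP.mono ?_)
    intro a ha l hl h hh
    have h1 : F n l = some h := by rw [hn2 l (Finset.mem_range.2 hl), hh]
    exact ha l (lt_of_lt_of_le hl (hLk.monotone hn1)) h h1
  have hinf : {l | f l ≠ none}.Infinite := by
    intro hfin
    have h1 := hcnt (hfin.toFinset.card + 1)
    have h2 : Set.ncard {l | l < Lk (hfin.toFinset.card + 1) ∧ f l ≠ none} ≤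
        Set.ncard {l | f l ≠ none} :=
      Set.ncard_le_ncard (fun l hl => hl.2) hfin
    rw [Set.ncard_eq_toFinset_card _ hfin] at h2
    omega
  have hnth : StrictMono (Nat.nth (fun l => f l ≠ none)) := Nat.nth_strictMono hinf
  have hmem : ∀ i, f (Nat.nth (fun l => f l ≠ none) i) ≠ none := fun i =>
    Nat.nth_mem_of_infinite hinf i
  have hb : ∀ i, ∃ y, f (Nat.nth (fun l => f l ≠ none) i) = some y := fun i =>
    Option.ne_none_iff_exists'.1 (hmem i)
  choose b hb' using hb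
  refine ⟨b, Nat.nth (fun l => f l ≠ none), hnth, fun i => hfm _ _ (hb' i), fun i => ?_⟩
  refine lt_of_lt_of_le (hpos (Nat.nth (fun l => f l ≠ none) i + 1)) (hP.mono ?_)
  intro a ha i' hi'
  refine ha _ ?_ _ (hb' i')
  have h1 : Nat.nth (fun l => f l ≠ none) i' ≤ Nat.nth (fun l => f l ≠ none) i :=
    hnth.monotone hi'
  have h2 : Nat.nth (fun l => f l ≠ none) i + 1 ≤ Lk (Nat.nth (fun l => f l ≠ none) i + 1) :=
    hLk.id_le _
  omega

open Classical in
theorem koenig (δ : ℝ) (hδ : 0 < δ) (Hc : ℕ → Finset ℕ) (R : ℕ → ℕ) (μ : ℕ → ℕ → ℝ)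
    (hμ : ∀ j a, 0 ≤ μ j a) (hsum : ∀ j, ∑ a ∈ range (R j), μ j a = 1) (T : ℕ → ℕ → Prop)
    (hT : ∀ j l, l ≤ j → δ ≤ ∑ a ∈ (range (R j)).filter (fun a => ∃ h ∈ Hc l, T a h), μ j a) :
    ∃ b lv : ℕ → ℕ, StrictMono lv ∧ (∀ i, b i ∈ Hc (lv i)) ∧
      ∀ i, ∃ ε : ℝ, 0 < ε ∧ ∃ᶠ j in atTop,
        ε ≤ ∑ a ∈ (range (R j)).filter (fun a => ∀ i' ≤ i, T a (b i')), μ j a := by
  obtain ⟨P, hP, hP1, hP2⟩ := exists_ultra R μ hμ hsum
  have hT' : ∀ l, δ ≤ P {a | ∃ h ∈ Hc l, T a h} := by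
    intro l
    apply hP1
    filter_upwards [eventually_ge_atTop l] with j hj
    exact (hT j l hj).trans (le_of_eq (Finset.sum_congr (by ext a; simp) (fun _ _ => rfl)))
  obtain ⟨b, lv, h1, h2, h3⟩ := tree hP δ hδ Hc T hT'
  refine ⟨b, lv, h1, h2, fun i => ?_⟩
  obtain ⟨ε, hε, hfr⟩ := hP2 _ (h3 i)
  refine ⟨ε, hε, hfr.mono fun j hj => ?_⟩
  exact hj.trans (le_of_eq (Finset.sum_congr (by ext a; simp) (fun _ _ => rfl)))

end Pool.Agent.MT
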