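import Pool.Agent.MT.Constr
import Pool.Agent.MT.Koenig

set_option autoImplicit false

/-!
# MT / Extract: the sequences for the admissible pair

`koenig` with `R s = M (s+1) + 1` and `T a h = (a + h).Prime` gives `b, lv`.  Choose recursively
`i_t, s_t`: `s_t ≥ lv i_t` with `1/(s_t+1) ≤ μ_{s_t}(a + b i' prime for all i' ≤ i_t)` (possible:
frequently `≥ ε ≥ 1/(s+1)`), `i_{t+1} > i_t` with `lv (i_{t+1}) > s_t`.  `c_t = b (i_t)`,
`lm_t = lv (i_t)`, `lm_t ≤ s_t < lm_{t+1}`, `F_t = {c_0, …, c_t}`, `G_t` from `Con.sets`.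
-/

namespace Pool.Agent.MT

open Finset Filter

/-- bookkeeping: the sequences `c`, `s`, `G` extracted from the construction -/
theorem extract (δ : ℝ) (hδ : 0 < δ) (n M jx β : ℕ → ℕ) (Hc : ℕ → Finset ℕ) (μ : ℕ → ℕ → ℝ)
    (hC : Con δ n M jx β Hc μ) :
    ∃ (c lm s : ℕ → ℕ) (G : ℕ → Finset ℕ), (∀ t, c t ∈ Hc (lm t)) ∧ (∀ t, lm t ≤ s t) ∧
      (∀ t, s t < lm (t + 1)) ∧
      (∀ t, ∀ a ∈ G t, M (s t + 1) < 8 * a ∧ 8 * a < 7 * M (s t + 1) ∧
        (∀ u ≤ t, (a + c u).Prime) ∧ ∀ p : ℕ, p.Prime → p ≤ M (s t + 1) → ¬ p ∣ a + β p) ∧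
      ∀ t, (M (s t + 1) : ℝ) / Real.log (M (s t + 1)) ^ jx (s t) ≤ (G t).card := by
  classical
  obtain ⟨b, lv, hlv, hb, hfreq⟩ := koenig δ hδ Hc (fun s => M (s + 1) + 1) μ hC.μ_nonneg
    hC.μ_sum (fun a h => (a + h).Prime) (by
      intro j l hl
      have h1 := hC.prob j l hl
      refine le_trans h1 (le_of_eq (Finset.sum_congr ?_ (fun _ _ => rfl)))
      ext a
      simp only [Finset.mem_filter])
  have hlvid : ∀ i, i ≤ lv i := fun i => hlv.id_le i
  -- the scale attached to an index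
  have hsg : ∀ i, ∃ s, lv i ≤ s ∧ 1 / ((s : ℝ) + 1) ≤
      ∑ a ∈ (range (M (s + 1) + 1)).filter (fun a => ∀ i' ≤ i, (a + b i').Prime), μ s a := by
    intro i
    obtain ⟨ε, hε, hf⟩ := hfreq i
    obtain ⟨N, hN⟩ := exists_nat_gt (1 / ε)
    obtain ⟨s, hs, hs2⟩ := (Filter.frequently_atTop.1 hf) (max (lv i) N)
    refine ⟨s, le_trans (le_max_left _ _) hs, ?_⟩
    have h1 : (N : ℝ) ≤ s := by exact_mod_cast le_trans (le_max_right _ _) hs
    have h2 : 1 / ((s : ℝ) + 1) ≤ ε := by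
      rw [div_le_iff₀ (by positivity)]
      have h3 : 1 / ε < (s : ℝ) + 1 := by linarith
      rw [div_lt_iff₀ hε] at h3
      linarith [mul_comm ((s : ℝ) + 1) ε]
    refine le_trans h2 (le_trans hs2 (le_of_eq ?_))
    refine Finset.sum_congr ?_ (fun _ _ => rfl)
    ext a
    simp only [Finset.mem_filter]
  choose sg hsg1 hsg2 using hsg
  let e : ℕ → ℕ := fun t => Nat.rec 0 (fun _ i => sg i + 1) t
  have he : ∀ t, e (t + 1) = sg (e t) + 1 := fun t => rfl
  have hem : StrictMono e := strictMono_nat_of_lt_succ fun t => by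
    rw [he]
    have := hsg1 (e t)
    have := hlvid (e t)
    omega
  refine ⟨fun t => b (e t), fun t => lv (e t), fun t => sg (e t), ?_⟩
  have hG : ∀ t, ∃ G : Finset ℕ, (∀ a ∈ G, M (sg (e t) + 1) < 8 * a ∧
      8 * a < 7 * M (sg (e t) + 1) ∧ (∀ h ∈ (range (t + 1)).image (fun u => b (e u)),
        (a + h).Prime) ∧ ∀ p : ℕ, p.Prime → p ≤ M (sg (e t) + 1) → ¬ p ∣ a + β p) ∧
      (M (sg (e t) + 1) : ℝ) / Real.log (M (sg (e t) + 1)) ^ jx (sg (e t)) ≤ G.card := by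
    intro t
    refine hC.sets (sg (e t)) ((range (t + 1)).image (fun u => b (e u))) ?_ ?_
    · intro h hh
      rw [Finset.mem_image] at hh
      obtain ⟨u, hu, rfl⟩ := hh
      rw [Finset.mem_biUnion]
      refine ⟨lv (e u), ?_, hb (e u)⟩
      have h1 : u ≤ t := by have := Finset.mem_range.1 hu; omega
      have h2 : lv (e u) ≤ lv (e t) := hlv.monotone (hem.monotone h1)
      have h3 := hsg1 (e t)
      exact Finset.mem_range.2 (by omega)
    · refine le_trans (hsg2 (e t)) ?_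
      refine Finset.sum_le_sum_of_subset_of_nonneg ?_ (fun a _ _ => hC.μ_nonneg _ a)
      intro a ha
      rw [Finset.mem_filter] at ha ⊢
      refine ⟨ha.1, fun h hh => ?_⟩
      rw [Finset.mem_image] at hh
      obtain ⟨u, hu, rfl⟩ := hh
      have h1 : u ≤ t := by have := Finset.mem_range.1 hu; omega
      exact ha.2 (e u) (hem.monotone h1)
  choose G hG1 hG2 using hG
  refine ⟨G, fun t => hb (e t), fun t => hsg1 (e t), fun t => ?_, fun t a ha => ?_, hG2⟩
  · show sg (e t) < lv (e (t + 1))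
    have h1 := hlvid (e (t + 1))
    rw [he] at h1 ⊢
    omega
  · obtain ⟨g1, g2, g3, g4⟩ := hG1 t a ha
    refine ⟨g1, g2, fun u hu => ?_, g4⟩
    exact g3 _ (Finset.mem_image.2 ⟨u, Finset.mem_range.2 (by omega), rfl⟩)

end Pool.Agent.MT
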