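import Pool.Agent.MT.Omega

set_option autoImplicit false

/-!
# MT / Greedy: greedy choice of residue classes

Treat the primes `w < p ≤ N` one after another.  For the current sets `G_i` the fractions
`x_i(β) = |{a ∈ G_i : p ∣ a + β}| / |G_i|` (`0` if `G_i` is empty) satisfy `∑_{β < p} x_i(β) ≤ 1`.  At
least `p - M ≥ p/2` of the `β < p` satisfy `¬ p ∣ a + β` for all `1 ≤ a ≤ M`; for one of them
`∑_i x_i(β) ≤ 2r/p`.  Delete the elements of that class: every `G_i` keeps at least the proportion
`1 - 2r/p ≥ 1/(1 + 4r/p)` (`p > w ≥ 4r`).  `prod_primes` with `A = 4r`.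
-/

namespace Pool.Agent.MT

open Finset

/-- every element lies in at most one of the classes -/
theorem greedy_sum (p : ℕ) (G : Finset ℕ) :
    ∑ b ∈ range p, ((G.filter (fun a => p ∣ a + b)).card : ℝ) ≤ G.card := by
  have h1 : ∑ b ∈ range p, (G.filter (fun a => p ∣ a + b)).card ≤ G.card := by
    calc ∑ b ∈ range p, (G.filter (fun a => p ∣ a + b)).card
        = ∑ b ∈ range p, ∑ a ∈ G, if p ∣ a + b then 1 else 0 := by
          apply Finset.sum_congr rfl
          intro b _
          rw [Finset.card_filter]
      _ = ∑ a ∈ G, ∑ b ∈ range p, if p ∣ a + b then 1 else 0 := Finset.sum_comm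
      _ ≤ ∑ a ∈ G, 1 := by
          apply Finset.sum_le_sum
          intro a _
          rw [← Finset.card_filter]
          rw [Finset.card_le_one]
          intro b hb b' hb'
          rw [mem_filter, mem_range] at hb hb'
          have h3 : (a + b) ≡ (a + b') [MOD p] := by
            rw [Nat.ModEq, Nat.mod_eq_zero_of_dvd hb.2, Nat.mod_eq_zero_of_dvd hb'.2]
          have h4 : b ≡ b' [MOD p] := Nat.ModEq.add_left_cancel' a h3
          have h5 : b % p = b' % p := h4
          rwa [Nat.mod_eq_of_lt hb.1, Nat.mod_eq_of_lt hb'.1] at h5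
      _ = G.card := by simp
  exact_mod_cast h1

theorem greedy_step {ι : Type} (I : Finset ι) (G : ι → Finset ℕ) (r M p : ℕ) (hI : I.card ≤ r)
    (hM : 2 * M < p) (hr : 4 * r < p) :
    ∃ b : ℕ, (∀ a : ℕ, 1 ≤ a → a ≤ M → ¬ p ∣ a + b) ∧ ∀ i ∈ I,
      ((G i).card : ℝ) ≤ (1 + ((4 * r : ℕ) : ℝ) / p) *
        (((G i).filter (fun a => ¬ p ∣ a + b)).card : ℝ) := by
  classical
  have hp : (0 : ℝ) < p := by exact_mod_cast (by omega : 0 < p)
  set B : Finset ℕ := (range p).filter (fun b => ∀ a ∈ Icc 1 M, ¬ p ∣ a + b) with hB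
  have hBc : p ≤ B.card + M := by
    have h1 : range p ⊆ B ∪ (Icc 1 M).image (fun a => p - a) := by
      intro b hb
      rw [mem_union]
      by_cases hbB : b ∈ B
      · exact Or.inl hbB
      · right
        rw [hB, mem_filter] at hbB
        push Not at hbB
        obtain ⟨a, ha, hdvd⟩ := hbB hb
        rw [mem_image]
        refine ⟨a, ha, ?_⟩
        rw [mem_Icc] at ha
        rw [mem_range] at hb
        obtain ⟨c, hc⟩ := hdvd
        have hc1 : c = 1 := by
          have h2 : 0 < c := by
            rcases Nat.eq_zero_or_pos c with h | h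
            · rw [h, mul_zero] at hc; omega
            · exact h
          have h3 : c < 2 := by
            by_contra h4
            push Not at h4
            have : p * 2 ≤ p * c := Nat.mul_le_mul_left _ h4
            omega
          omega
        rw [hc1, mul_one] at hc
        omega
    have h2 := Finset.card_le_card h1
    rw [card_range] at h2
    have h3 : (B ∪ (Icc 1 M).image (fun a => p - a)).card ≤ B.card + M := by
      refine (Finset.card_union_le _ _).trans ?_
      have : ((Icc 1 M).image (fun a => p - a)).card ≤ (Icc 1 M).card := Finset.card_image_le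
      rw [Nat.card_Icc] at this
      omega
    omega
  have hBpos : 0 < B.card := by omega
  have hBne : B.Nonempty := Finset.card_pos.mp hBpos
  have hBR : (0 : ℝ) < B.card := by exact_mod_cast hBpos
  let x : ι → ℕ → ℝ := fun i b => (((G i).filter (fun a => p ∣ a + b)).card : ℝ) / (G i).card
  have hx0 : ∀ i b, 0 ≤ x i b := fun i b => by positivity
  have hx1 : ∀ i, ∑ b ∈ range p, x i b ≤ 1 := by
    intro i
    simp only [x]
    rw [← Finset.sum_div]
    rcases Nat.eq_zero_or_pos (G i).card with h | h
    · rw [h]; simp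
    · rw [div_le_one (by exact_mod_cast h)]
      exact greedy_sum p (G i)
  have hsum : ∑ b ∈ B, ∑ i ∈ I, x i b ≤ ∑ b ∈ B, (r : ℝ) / B.card := by
    calc ∑ b ∈ B, ∑ i ∈ I, x i b ≤ ∑ b ∈ range p, ∑ i ∈ I, x i b := by
          apply Finset.sum_le_sum_of_subset_of_nonneg (Finset.filter_subset _ _)
          intro b _ _
          exact Finset.sum_nonneg fun i _ => hx0 i b
      _ = ∑ i ∈ I, ∑ b ∈ range p, x i b := Finset.sum_comm
      _ ≤ ∑ i ∈ I, 1 := Finset.sum_le_sum fun i _ => hx1 i
      _ = I.card := by simp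
      _ ≤ r := by exact_mod_cast hI
      _ = ∑ b ∈ B, (r : ℝ) / B.card := by
          rw [Finset.sum_const, nsmul_eq_mul]
          field_simp
  obtain ⟨b, hbB, hb⟩ := Finset.exists_le_of_sum_le hBne hsum
  have hb2 : ∑ i ∈ I, x i b ≤ 2 * r / p := by
    refine hb.trans ?_
    rw [div_le_div_iff₀ hBR hp]
    have h1 : (p : ℝ) ≤ 2 * B.card := by
      have : p ≤ 2 * B.card := by omega
      exact_mod_cast this
    have h2 : (0 : ℝ) ≤ r := Nat.cast_nonneg r
    nlinarith
  refine ⟨b, ?_, ?_⟩
  · intro a ha1 ha2
    rw [hB, mem_filter] at hbB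
    exact hbB.2 a (mem_Icc.mpr ⟨ha1, ha2⟩)
  · intro i hi
    have h1 : x i b ≤ 2 * r / p :=
      (Finset.single_le_sum (f := fun i => x i b) (fun j _ => hx0 j b) hi).trans hb2
    have h2 : ((G i).filter (fun a => p ∣ a + b)).card +
        ((G i).filter (fun a => ¬ p ∣ a + b)).card = (G i).card :=
      Finset.card_filter_add_card_filter_not _
    have h3 : (((G i).filter (fun a => p ∣ a + b)).card : ℝ) +
        ((G i).filter (fun a => ¬ p ∣ a + b)).card = (G i).card := by exact_mod_cast h2
    have h4 : (((G i).filter (fun a => p ∣ a + b)).card : ℝ) ≤ 2 * r / p * (G i).card := by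
      rcases Nat.eq_zero_or_pos (G i).card with h | h
      · have : ((G i).filter (fun a => p ∣ a + b)).card = 0 := by omega
        rw [this, h]; simp
      · have hG : (0 : ℝ) < (G i).card := by exact_mod_cast h
        exact (div_le_iff₀ hG).mp h1
    set t : ℝ := 2 * r / p with ht
    have ht0 : 0 ≤ t := by positivity
    have ht1 : 2 * t ≤ 1 := by
      rw [ht, ← mul_div_assoc, div_le_one hp]
      have : (4 * r : ℝ) ≤ p := by exact_mod_cast hr.le
      linarith
    have ht2 : ((4 * r : ℕ) : ℝ) / p = 2 * t := by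
      rw [ht]; push_cast; ring
    rw [ht2]
    have h5 : (1 - t) * ((G i).card : ℝ) ≤ (((G i).filter (fun a => ¬ p ∣ a + b)).card : ℝ) := by
      linarith
    have h6 : ((G i).card : ℝ) ≤ (1 + 2 * t) * ((1 - t) * ((G i).card : ℝ)) := by
      have h7 : (0 : ℝ) ≤ (G i).card := Nat.cast_nonneg _
      have h8 : 0 ≤ t * (1 - 2 * t) := mul_nonneg ht0 (by linarith)
      nlinarith
    exact h6.trans (mul_le_mul_of_nonneg_left h5 (by linarith))

open Classical in
theorem greedy_ind {ι : Type} (I : Finset ι) (G : ι → Finset ℕ) (r w M : ℕ)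
    (hI : I.card ≤ r) (hM : 2 * M ≤ w) (hr : 4 * r ≤ w) (N : ℕ) :
    ∃ β : ℕ → ℕ, (∀ p : ℕ, p.Prime → w < p → p ≤ N → ∀ a : ℕ, 1 ≤ a → a ≤ M → ¬ p ∣ a + β p) ∧
      ∀ i ∈ I, ((G i).card : ℝ) ≤
        (∏ p ∈ (range (N + 1)).filter Nat.Prime, (1 + ((4 * r : ℕ) : ℝ) / p)) *
        ((G i).filter (fun a => ∀ p : ℕ, p.Prime → w < p → p ≤ N → ¬ p ∣ a + β p)).card := by
  induction N with
  | zero =>
    refine ⟨fun _ => 0, ?_, ?_⟩
    · intro p hp _ h0
      have := hp.pos
      omega
    · intro i _
      have h1 : (range (0 + 1)).filter Nat.Prime = ∅ := by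
        ext p
        simp only [mem_filter, mem_range, notMem_empty, iff_false, not_and]
        intro h hp
        have := hp.pos
        omega
      rw [h1, prod_empty, one_mul]
      have h2 : ((G i).filter (fun a => ∀ p : ℕ, p.Prime → w < p → p ≤ 0 → ¬ p ∣ a + (fun _ => 0) p))
          = G i := by
        apply Finset.filter_true_of_mem
        intro a _ p hp _ h0
        have := hp.pos
        omega
      rw [h2]
  | succ n ih =>
    obtain ⟨β, hβ1, hβ2⟩ := ih
    have hprod0 : (0 : ℝ) ≤ ∏ p ∈ (range (n + 1)).filter Nat.Prime, (1 + ((4 * r : ℕ) : ℝ) / p) :=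
      Finset.prod_nonneg fun p _ => by positivity
    by_cases hpr : (n + 1).Prime
    · have hprod : ∏ p ∈ (range (n + 1 + 1)).filter Nat.Prime, (1 + ((4 * r : ℕ) : ℝ) / p) =
          (∏ p ∈ (range (n + 1)).filter Nat.Prime, (1 + ((4 * r : ℕ) : ℝ) / p)) *
          (1 + ((4 * r : ℕ) : ℝ) / ((n + 1 : ℕ) : ℝ)) := by
        rw [Finset.range_add_one (n := n + 1), Finset.filter_insert, if_pos hpr,
          Finset.prod_insert (by simp), mul_comm]
      by_cases hw : w < n + 1
      · obtain ⟨b, hb1, hb2⟩ := greedy_step I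
          (fun i => (G i).filter (fun a => ∀ p : ℕ, p.Prime → w < p → p ≤ n → ¬ p ∣ a + β p))
          r M (n + 1) hI (by omega) (by omega)
        refine ⟨Function.update β (n + 1) b, ?_, ?_⟩
        · intro p hp hwp hpn a ha1 ha2
          by_cases h : p = n + 1
          · rw [h, Function.update_self]
            exact hb1 a ha1 ha2
          · rw [Function.update_of_ne h]
            exact hβ1 p hp hwp (by omega) a ha1 ha2
        · intro i hi
          have h1 : ((G i).filter (fun a => ∀ p : ℕ, p.Prime → w < p → p ≤ n + 1 →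
              ¬ p ∣ a + Function.update β (n + 1) b p)) =
              ((G i).filter (fun a => ∀ p : ℕ, p.Prime → w < p → p ≤ n → ¬ p ∣ a + β p)).filter
                (fun a => ¬ (n + 1) ∣ a + b) := by
            ext a
            simp only [mem_filter]
            constructor
            · rintro ⟨ha, h⟩
              refine ⟨⟨ha, fun p hp hwp hpn => ?_⟩, ?_⟩
              · have := h p hp hwp (by omega)
                rwa [Function.update_of_ne (by omega)] at this
              · have := h (n + 1) hpr hw le_rfl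
                rwa [Function.update_self] at this
            · rintro ⟨⟨ha, h⟩, h'⟩
              refine ⟨ha, fun p hp hwp hpn => ?_⟩
              by_cases hpe : p = n + 1
              · rw [hpe, Function.update_self]
                exact h'
              · rw [Function.update_of_ne hpe]
                exact h p hp hwp (by omega)
          rw [h1, hprod, mul_assoc]
          refine (hβ2 i hi).trans ?_
          exact mul_le_mul_of_nonneg_left (hb2 i hi) hprod0
      · refine ⟨β, ?_, ?_⟩
        · intro p hp hwp hpn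
          omega
        · intro i hi
          have h1 : ((G i).filter (fun a => ∀ p : ℕ, p.Prime → w < p → p ≤ n + 1 →
              ¬ p ∣ a + β p)) =
              ((G i).filter (fun a => ∀ p : ℕ, p.Prime → w < p → p ≤ n → ¬ p ∣ a + β p)) := by
            apply Finset.filter_congr
            intro a _
            constructor
            · intro h p hp hwp hpn
              exact h p hp hwp (by omega)
            · intro h p hp hwp hpn
              omega
          rw [h1, hprod]
          refine (hβ2 i hi).trans ?_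
          apply mul_le_mul_of_nonneg_right _ (Nat.cast_nonneg _)
          have h2 : (1 : ℝ) ≤ 1 + ((4 * r : ℕ) : ℝ) / ((n + 1 : ℕ) : ℝ) := by
            have : (0 : ℝ) ≤ ((4 * r : ℕ) : ℝ) / ((n + 1 : ℕ) : ℝ) := by positivity
            linarith
          exact le_mul_of_one_le_right hprod0 h2
    · refine ⟨β, ?_, ?_⟩
      · intro p hp hwp hpn
        have : p ≠ n + 1 := fun h => hpr (h ▸ hp)
        exact hβ1 p hp hwp (by omega)
      · intro i hi
        have h1 : ((G i).filter (fun a => ∀ p : ℕ, p.Prime → w < p → p ≤ n + 1 →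
            ¬ p ∣ a + β p)) =
            ((G i).filter (fun a => ∀ p : ℕ, p.Prime → w < p → p ≤ n → ¬ p ∣ a + β p)) := by
          apply Finset.filter_congr
          intro a _
          constructor
          · intro h p hp hwp hpn
            exact h p hp hwp (by omega)
          · intro h p hp hwp hpn
            have : p ≠ n + 1 := fun h => hpr (h ▸ hp)
            exact h p hp hwp (by omega)
        rw [h1, Finset.range_add_one (n := n + 1), Finset.filter_insert, if_neg hpr]
        exact hβ2 i hi

open Classical in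
theorem greedy (r : ℕ) : ∃ C : ℕ, ∀ (ι : Type) (I : Finset ι) (G : ι → Finset ℕ) (w M N : ℕ),
    I.card ≤ r → 2 * M ≤ w → 4 * r ≤ w → 3 ≤ N →
    ∃ β : ℕ → ℕ, (∀ p : ℕ, p.Prime → w < p → p ≤ N → ∀ a : ℕ, 1 ≤ a → a ≤ M → ¬ p ∣ a + β p) ∧
      ∀ i ∈ I, ((G i).card : ℝ) ≤ C * Real.log N ^ C *
        ((G i).filter (fun a => ∀ p : ℕ, p.Prime → w < p → p ≤ N → ¬ p ∣ a + β p)).card := by
  obtain ⟨C, hC⟩ := prod_primes (4 * r)
  refine ⟨C, ?_⟩
  intro ι I G w M N hI hM hr hN
  obtain ⟨β, h1, h2⟩ := greedy_ind I G r w M hI hM hr N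
  refine ⟨β, h1, ?_⟩
  intro i hi
  refine (h2 i hi).trans ?_
  exact mul_le_mul_of_nonneg_right (hC N hN) (Nat.cast_nonneg _)

end Pool.Agent.MT
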