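import Mathlib

set_option autoImplicit false

/-!
# MT / Larger: Gallagher's larger sieve, and sets with many elements occupy many classes

`larger_sieve`: let `Z(p, r)` be the number of `b ∈ B` with `b % p = r`.
`|B|² ≤ ν(p) ∑_r Z(p,r)² = ν(p) (|B| + #{b ≠ b' : p ∣ b - b'})` and
`∑_{p ∈ P, p ∣ d} log p ≤ log d ≤ log N` for `1 ≤ d ≤ N`.

`many_classes`: let `P` be the set of primes `p ≤ y` with `ν(p) < p^{1-θ}`.  If
`∑_{p ∈ P} log p > y/4` then `∑_{p ∈ P} log p/ν(p) ≥ y^θ/4 ≥ 2 log n`, hence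
`|B| (y^θ/8) ≤ ∑_{p ≤ y} log p ≤ 2y` (`Chebyshev.theta_le_log4_mul_x`), `|B| ≤ 16 y^{1-θ} ≤ y`, a
contradiction.  Since `∑_{p ≤ y} log p ≥ y/2` for large `y` (`Chebyshev.theta_ge'` or similar) the other
primes have `∑ log p ≥ y/4`, so there are at least `y/(4 log y)` of them.
-/

namespace Pool.Agent.MT

open Finset Filter

theorem larger_cs (B : Finset ℕ) (p : ℕ) :
    ((B.card : ℝ)) ^ 2 ≤ ((B.image (fun b => b % p)).card : ℝ) *
      ∑ x ∈ B ×ˢ B, (if x.1 % p = x.2 % p then (1 : ℝ) else 0) := by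
  have h1 : (B.card : ℝ) = ∑ r ∈ B.image (fun b => b % p),
      ((B.filter (fun b => b % p = r)).card : ℝ) := by
    rw [card_eq_sum_card_image (fun b => b % p) B]
    push_cast
    rfl
  have h2 : ∑ x ∈ B ×ˢ B, (if x.1 % p = x.2 % p then (1 : ℝ) else 0) =
      ∑ r ∈ B.image (fun b => b % p), ((B.filter (fun b => b % p = r)).card : ℝ) ^ 2 := by
    have h3 : ∀ x ∈ B ×ˢ B, (if x.1 % p = x.2 % p then (1 : ℝ) else 0) =
        ∑ r ∈ B.image (fun b => b % p), (if x.1 % p = r then (1 : ℝ) else 0) *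
          (if x.2 % p = r then (1 : ℝ) else 0) := by
      intro x hx
      rw [mem_product] at hx
      rw [sum_eq_single (x.1 % p)]
      · by_cases h : x.1 % p = x.2 % p
        · simp [h]
        · simp [h, Ne.symm h]
      · intro r _ hr
        simp [Ne.symm hr]
      · intro hn
        exact absurd (mem_image_of_mem _ hx.1) hn
    rw [sum_congr rfl h3, sum_comm]
    apply sum_congr rfl
    intro r _
    have h4 : ((B.filter (fun b => b % p = r)).card : ℝ) =
        ∑ b ∈ B, (if b % p = r then (1 : ℝ) else 0) := by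
      simp only [sum_boole]
    rw [sum_product, sq, h4, sum_mul_sum]
  rw [h2]
  nth_rw 1 [h1]
  exact sq_sum_le_card_mul_sum_sq

theorem larger_log (P : Finset ℕ) (d N : ℕ) (hd : 1 ≤ d) (hdN : d ≤ N)
    (hP : ∀ p ∈ P, p.Prime) :
    ∑ p ∈ P, (if p ∣ d then Real.log p else 0) ≤ Real.log N := by
  rw [← sum_filter, ← Real.log_prod]
  · apply Real.log_le_log
    · apply prod_pos
      intro p hp
      have := (hP p (mem_filter.1 hp).1).pos
      exact_mod_cast this
    · have h1 : ∏ p ∈ P.filter (fun p => p ∣ d), p ∣ d := by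
        apply Finset.prod_primes_dvd
        · intro p hp
          exact (hP p (mem_filter.1 hp).1).prime
        · intro p hp
          exact (mem_filter.1 hp).2
      have h2 : ∏ p ∈ P.filter (fun p => p ∣ d), p ≤ N :=
        le_trans (Nat.le_of_dvd (by omega) h1) hdN
      calc ∏ p ∈ P.filter (fun p => p ∣ d), (p : ℝ)
          = ((∏ p ∈ P.filter (fun p => p ∣ d), p : ℕ) : ℝ) := by rw [Nat.cast_prod]
        _ ≤ (N : ℝ) := by exact_mod_cast h2
  · intro p hp
    have := (hP p (mem_filter.1 hp).1).ne_zero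
    exact_mod_cast this

theorem larger_sieve (B P : Finset ℕ) (N : ℕ) (hN : 1 ≤ N) (hB : ∀ b ∈ B, b ≤ N)
    (hne : B.Nonempty) (hP : ∀ p ∈ P, p.Prime) :
    (B.card : ℝ) * ∑ p ∈ P, Real.log p / ((B.image (fun b => b % p)).card : ℝ) ≤
      (∑ p ∈ P, Real.log p) + ((B.card : ℝ) - 1) * Real.log N := by
  have hc : (0 : ℝ) < B.card := by
    have := hne.card_pos
    exact_mod_cast this
  have h1 : ∀ p ∈ P, (B.card : ℝ) ^ 2 * (Real.log p / ((B.image (fun b => b % p)).card : ℝ)) ≤
      ∑ x ∈ B ×ˢ B, (if x.1 % p = x.2 % p then Real.log p else 0) := by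
    intro p hp
    have hν : (0 : ℝ) < ((B.image (fun b => b % p)).card : ℝ) := by
      have := (hne.image (fun b => b % p)).card_pos
      exact_mod_cast this
    have hlog : 0 ≤ Real.log p := by
      apply Real.log_nonneg
      exact_mod_cast (hP p hp).one_lt.le
    have h2 := mul_le_mul_of_nonneg_right (larger_cs B p) hlog
    have h3 : ∑ x ∈ B ×ˢ B, (if x.1 % p = x.2 % p then Real.log p else 0) =
        (∑ x ∈ B ×ˢ B, (if x.1 % p = x.2 % p then (1 : ℝ) else 0)) * Real.log p := by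
      rw [sum_mul]
      apply sum_congr rfl
      intro x _
      split_ifs <;> simp
    rw [h3, ← mul_div_assoc, div_le_iff₀ hν]
    linarith
  have h2 := sum_le_sum h1
  rw [← mul_sum, sum_comm] at h2
  have h3 : ∀ x ∈ B ×ˢ B, ∑ p ∈ P, (if x.1 % p = x.2 % p then Real.log p else 0) ≤
      if x.1 = x.2 then ∑ p ∈ P, Real.log p else Real.log N := by
    intro x hx
    rw [mem_product] at hx
    split_ifs with h
    · rw [h]; simp
    · have key : ∀ a b : ℕ, a ≤ N → b ≤ N → a < b →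
          ∑ p ∈ P, (if a % p = b % p then Real.log p else 0) ≤ Real.log N := by
        intro a b ha hb hab
        refine le_trans (le_of_eq ?_) (larger_log P (b - a) N (by omega) (by omega) hP)
        apply sum_congr rfl
        intro p _
        have hiff : a % p = b % p ↔ p ∣ b - a := by
          constructor
          · intro h'
            exact (Nat.modEq_iff_dvd' hab.le).1 h'
          · intro h'
            exact (Nat.modEq_iff_dvd' hab.le).2 h'
        simp only [hiff]
      rcases lt_or_gt_of_ne h with h' | h'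
      · exact key _ _ (hB _ hx.1) (hB _ hx.2) h'
      · have := key _ _ (hB _ hx.2) (hB _ hx.1) h'
        refine le_trans (le_of_eq ?_) this
        apply sum_congr rfl
        intro p _
        simp only [eq_comm]
  have h4 : ∑ x ∈ B ×ˢ B, (if x.1 = x.2 then ∑ p ∈ P, Real.log p else Real.log N) =
      (B.card : ℝ) * ((∑ p ∈ P, Real.log p) + ((B.card : ℝ) - 1) * Real.log N) := by
    rw [sum_product]
    have h5 : ∀ a ∈ B, ∑ b ∈ B, (if a = b then ∑ p ∈ P, Real.log p else Real.log N) =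
        (∑ p ∈ P, Real.log p) + ((B.card : ℝ) - 1) * Real.log N := by
      intro a ha
      rw [← add_sum_erase B _ ha]
      simp only [if_true]
      have h6 : ∑ b ∈ B.erase a, (if a = b then ∑ p ∈ P, Real.log p else Real.log N) =
          ∑ b ∈ B.erase a, Real.log N := by
        apply sum_congr rfl
        intro b hb
        rw [if_neg (ne_of_mem_erase hb).symm]
      rw [h6, sum_const, card_erase_of_mem ha, nsmul_eq_mul, Nat.cast_sub, Nat.cast_one]
      exact hne.card_pos
    rw [sum_congr rfl h5, sum_const, nsmul_eq_mul]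
  have h5 := le_trans h2 (le_trans (sum_le_sum h3) h4.le)
  have h6 : (B.card : ℝ) * ((B.card : ℝ) * ∑ p ∈ P, Real.log p /
      ((B.image (fun b => b % p)).card : ℝ)) ≤
      (B.card : ℝ) * ((∑ p ∈ P, Real.log p) + ((B.card : ℝ) - 1) * Real.log N) := by
    linarith [sq (B.card : ℝ)]
  exact le_of_mul_le_mul_left h6 hc

theorem larger_theta : ∃ y₀ : ℕ, ∀ y : ℕ, y₀ ≤ y → (y : ℝ) / 2 ≤ Chebyshev.theta y := by
  have h1 : Tendsto (fun x : ℝ => Real.log x / x ^ (1 / 4 : ℝ)) atTop (nhds 0) :=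
    (isLittleO_log_rpow_atTop (by norm_num)).tendsto_div_nhds_zero
  have h2 : ∀ᶠ x : ℝ in atTop, Real.log x / x ^ (1 / 4 : ℝ) < 1 / 100 :=
    h1.eventually (gt_mem_nhds (by norm_num))
  have h3 : ∀ᶠ x : ℝ in atTop, (10 : ℝ) < x ^ (1 / 4 : ℝ) :=
    (tendsto_rpow_atTop (by norm_num)).eventually_gt_atTop 10
  have h4 := (tendsto_natCast_atTop_atTop (R := ℝ)).eventually (h2.and h3)
  obtain ⟨y₀, hy₀⟩ := eventually_atTop.1 (h4.and (eventually_ge_atTop 3))
  refine ⟨y₀, fun y hy => ?_⟩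
  obtain ⟨⟨ha, hb⟩, hc⟩ := hy₀ y hy
  have hy3 : (3 : ℝ) ≤ y := by exact_mod_cast hc
  have hθ := Chebyshev.theta_ge y
  have hlog2 := Real.log_two_gt_d9
  set q := (y : ℝ) ^ (1 / 4 : ℝ) with hq
  have hq2 : √(y : ℝ) = q ^ 2 := by
    rw [hq, Real.sqrt_eq_rpow, ← Real.rpow_natCast, ← Real.rpow_mul (by linarith)]
    norm_num
  have hq4 : (y : ℝ) = q ^ 4 := by
    rw [hq, ← Real.rpow_natCast, ← Real.rpow_mul (by linarith)]
    norm_num
  have hl : Real.log y < 1 / 100 * q := by
    rwa [div_lt_iff₀ (by linarith)] at ha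
  have hl1 : Real.log ((y : ℝ) + 1) ≤ 2 * Real.log y := by
    rw [two_mul, ← Real.log_mul (by linarith) (by linarith)]
    apply Real.log_le_log (by linarith)
    nlinarith
  rw [hq2] at hθ
  have hl0 : 0 ≤ Real.log y := Real.log_nonneg (by linarith)
  have h5 : 2 * q ^ 2 * Real.log y ≤ 2 * q ^ 2 * (1 / 100 * q) := by
    apply mul_le_mul_of_nonneg_left hl.le (by positivity)
  have h6 : q ^ 3 ≤ q ^ 4 / 10 := by nlinarith [pow_pos (by linarith : (0:ℝ) < q) 3]
  have h7 : q ≤ q ^ 4 / 1000 := by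
    have h8 : (10 : ℝ) ^ 3 ≤ q ^ 3 := pow_le_pow_left₀ (by norm_num) hb.le 3
    nlinarith
  nlinarith

theorem many_classes (θ : ℝ) (hθ : 0 < θ) (hθ' : θ < 1) : ∃ y₀ : ℕ, ∀ (y n : ℕ) (B : Finset ℕ),
    y₀ ≤ y → 1 ≤ n → 8 * Real.log n ≤ (y : ℝ) ^ θ → (∀ b ∈ B, b ≤ n) → y < B.card →
    (y : ℝ) / (4 * Real.log y) ≤
      (((range (y + 1)).filter (fun p : ℕ => p.Prime ∧
        (p : ℝ) ^ (1 - θ) ≤ ((B.image (fun b => b % p)).card : ℝ))).card : ℝ) := by
  obtain ⟨y₁, hy₁⟩ := larger_theta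
  have h3 : ∀ᶠ x : ℝ in atTop, (16 : ℝ) < x ^ θ :=
    (tendsto_rpow_atTop hθ).eventually_gt_atTop 16
  obtain ⟨y₂, hy₂⟩ := eventually_atTop.1 ((tendsto_natCast_atTop_atTop (R := ℝ)).eventually h3)
  refine ⟨max (max y₁ y₂) 3, ?_⟩
  intro y n B hy hn hlog hB hcard
  have hya : (y : ℝ) / 2 ≤ Chebyshev.theta y := hy₁ y (by omega)
  have hyb : (16 : ℝ) < (y : ℝ) ^ θ := hy₂ y (by omega)
  have hy3 : (3 : ℝ) ≤ y := by exact_mod_cast (by omega : 3 ≤ y)
  have hne : B.Nonempty := by
    rw [← card_pos]; omega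
  have hcR : (y : ℝ) < B.card := by exact_mod_cast hcard
  have hlogy : 0 < Real.log y := Real.log_pos (by linarith)
  set ν : ℕ → ℝ := fun p => ((B.image (fun b => b % p)).card : ℝ) with hν
  set Q := (range (y + 1)).filter (fun p : ℕ => p.Prime ∧ (p : ℝ) ^ (1 - θ) ≤ ν p) with hQ
  set P := (range (y + 1)).filter (fun p : ℕ => p.Prime ∧ ν p < (p : ℝ) ^ (1 - θ)) with hP
  have hPprime : ∀ p ∈ P, p.Prime := fun p hp => (mem_filter.1 hp).2.1
  have hlogp : ∀ p : ℕ, p.Prime → 0 ≤ Real.log p := by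
    intro p hp
    apply Real.log_nonneg
    exact_mod_cast hp.one_lt.le
  -- the sum of all logarithms
  have hθsum : Chebyshev.theta y = ∑ p ∈ P, Real.log p + ∑ p ∈ Q, Real.log p := by
    rw [Chebyshev.theta_eq_sum_Icc, Nat.floor_natCast, hP, hQ, ← sum_union]
    · apply sum_congr _ (fun _ _ => rfl)
      ext p
      simp only [mem_filter, mem_Icc, mem_union, mem_range]
      constructor
      · rintro ⟨⟨_, h1⟩, h2⟩
        rcases lt_or_ge (ν p) ((p : ℝ) ^ (1 - θ)) with h | h
        · exact Or.inl ⟨by omega, h2, h⟩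
        · exact Or.inr ⟨by omega, h2, h⟩
      · rintro (⟨h1, h2, _⟩ | ⟨h1, h2, _⟩)
        · exact ⟨⟨by omega, by omega⟩, h2⟩
        · exact ⟨⟨by omega, by omega⟩, h2⟩
    · rw [disjoint_left]
      intro p h1 h2
      rw [mem_filter] at h1 h2
      exact absurd h1.2.2 (not_lt.2 h2.2.2)
  have hθup : Chebyshev.theta y ≤ 2 * y := by
    have h1 := Chebyshev.theta_le_log4_mul_x (x := (y : ℝ)) (by linarith)
    have h2 : Real.log 4 ≤ 2 := by
      have : Real.log 4 = 2 * Real.log 2 := by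
        rw [show (4 : ℝ) = 2 ^ 2 by norm_num, Real.log_pow]; norm_num
      rw [this]
      linarith [Real.log_two_lt_d9]
    nlinarith
  have hPle : ∑ p ∈ P, Real.log p ≤ Chebyshev.theta y := by
    rw [hθsum]
    have : 0 ≤ ∑ p ∈ Q, Real.log p := sum_nonneg fun p hp => hlogp p (mem_filter.1 hp).2.1
    linarith
  -- the small ones
  have hsmall : ∑ p ∈ P, Real.log p ≤ (y : ℝ) / 4 := by
    by_contra hcon
    push Not at hcon
    have hS := larger_sieve B P n hn hB hne hPprime
    set S := ∑ p ∈ P, Real.log p / ((B.image (fun b => b % p)).card : ℝ) with hSdef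
    have hS1 : (∑ p ∈ P, Real.log p) / (y : ℝ) ^ (1 - θ) ≤ S := by
      rw [hSdef, sum_div]
      apply sum_le_sum
      intro p hp
      have hp' := mem_filter.1 hp
      have hν0 : (0 : ℝ) < ((B.image (fun b => b % p)).card : ℝ) := by
        have := (hne.image (fun b => b % p)).card_pos
        exact_mod_cast this
      apply div_le_div_of_nonneg_left (hlogp p hp'.2.1) hν0
      refine le_trans hp'.2.2.le ?_
      apply Real.rpow_le_rpow (by positivity) _ (by linarith)
      have : p < y + 1 := mem_range.1 hp'.1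
      exact_mod_cast (by omega : p ≤ y)
    have hyθ : (y : ℝ) ^ (1 - θ) * (y : ℝ) ^ θ = y := by
      rw [← Real.rpow_add (by linarith)]
      simp
    have hpos1 : 0 < (y : ℝ) ^ (1 - θ) := Real.rpow_pos_of_pos (by linarith) _
    have hpos2 : 0 < (y : ℝ) ^ θ := Real.rpow_pos_of_pos (by linarith) _
    have hS2 : (y : ℝ) ^ θ / 4 ≤ S := by
      refine le_trans ?_ hS1
      rw [le_div_iff₀ hpos1]
      nlinarith
    have hlogn : Real.log n ≤ S / 2 := by linarith
    have hlogn0 : 0 ≤ Real.log n := Real.log_nonneg (by exact_mod_cast hn)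
    have hS3 : (B.card : ℝ) * S ≤ 2 * y + B.card * (S / 2) := by
      have h1 : ((B.card : ℝ) - 1) * Real.log n ≤ B.card * (S / 2) := by
        have h2 : ((B.card : ℝ) - 1) * Real.log n ≤ B.card * Real.log n := by nlinarith
        have h3 : (B.card : ℝ) * Real.log n ≤ B.card * (S / 2) :=
          mul_le_mul_of_nonneg_left hlogn (by positivity)
        linarith
      linarith
    have hS4 : (B.card : ℝ) * ((y : ℝ) ^ θ / 4) ≤ B.card * S :=
      mul_le_mul_of_nonneg_left hS2 (by positivity)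
    have hS5 : (y : ℝ) * ((y : ℝ) ^ θ) < B.card * (y : ℝ) ^ θ :=
      mul_lt_mul_of_pos_right hcR hpos2
    nlinarith
  have hbig : (y : ℝ) / 4 ≤ ∑ p ∈ Q, Real.log p := by linarith
  have hQle : ∑ p ∈ Q, Real.log p ≤ (Q.card : ℝ) * Real.log y := by
    have h1 : ∑ p ∈ Q, Real.log p ≤ ∑ p ∈ Q, Real.log y := by
      apply sum_le_sum
      intro p hp
      have hp' := mem_filter.1 hp
      apply Real.log_le_log
      · exact_mod_cast hp'.2.1.pos
      · have : p < y + 1 := mem_range.1 hp'.1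
        exact_mod_cast (by omega : p ≤ y)
    rw [sum_const, nsmul_eq_mul] at h1
    exact h1
  rw [div_le_iff₀ (by linarith)]
  nlinarith

end Pool.Agent.MT
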