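import Mathlib

set_option autoImplicit false

/-!
# MT / Psi: the sieve functions of the large sieve

`gp p Om n = 1` if `n` is not in the classes `Om` modulo `p`, `-(p - ω)/ω` otherwise (`ω = |Om|`); mean
`0` modulo `p`, mean square `(p - ω)/ω`, absolute value at most `p`.  `psi e n = ∏_{p ∈ e} gp`.
By the Chinese remainder theorem (independence modulo different primes) the sum of `psi e · psi e'`
over a period `∏_{p ∈ e ∪ e'} p` is `0` if `e ≠ e'`, and the mean of `(psi e)²` is `∏ (p - ω)/ω`.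
General lemma: for functions `F_p` periodic mod `p` (`p ∈ E` distinct primes)
`∑_{x < ∏ p} ∏_p F_p x = ∏_p ∑_{x < p} F_p x` (induction on `E`, CRT).
-/

namespace Pool.Agent.MT

open Finset

/-- one prime -/
noncomputable def gp (p : ℕ) (Om : Finset ℕ) (n : ℤ) : ℝ :=
  if (n % (p : ℤ)).toNat ∈ Om then -(((p : ℝ) - Om.card) / Om.card) else 1

/-- several primes -/
noncomputable def psi (Ω : ℕ → Finset ℕ) (e : Finset ℕ) (n : ℤ) : ℝ := ∏ p ∈ e, gp p (Ω p) n

theorem Psi_mod (a : ℕ) (f : ℤ → ℝ) (hf : ∀ t : ℤ, f (t + a) = f t) (x : ℕ) :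
    f ((x % a : ℕ) : ℤ) = f (x : ℤ) := by
  have hper : Function.Periodic f (a : ℤ) := hf
  have h := hper.nat_mul (x / a) ((x % a : ℕ) : ℤ)
  rw [← h]
  congr 1
  have := Nat.mod_add_div x a
  have h2 : ((x % a + a * (x / a) : ℕ) : ℤ) = (x : ℤ) := by rw [this]
  rw [← h2]
  push_cast
  ring

/-- Independence modulo two coprime numbers. -/
theorem Psi_two (a b : ℕ) (ha : 0 < a) (hb : 0 < b) (hab : Nat.Coprime a b) (f g : ℤ → ℝ)
    (hf : ∀ t : ℤ, f (t + a) = f t) (hg : ∀ t : ℤ, g (t + b) = g t) :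
    ∑ x ∈ range (a * b), f (x : ℤ) * g (x : ℤ) =
      (∑ x ∈ range a, f (x : ℤ)) * ∑ x ∈ range b, g (x : ℤ) := by
  rw [Finset.sum_mul_sum, ← Finset.sum_product']
  refine Finset.sum_nbij (fun x => (x % a, x % b)) ?_ ?_ ?_ ?_
  · intro x _
    simp only [mem_product, mem_range]
    exact ⟨Nat.mod_lt _ ha, Nat.mod_lt _ hb⟩
  · intro x hx y hy hxy
    simp only [coe_range, Set.mem_Iio] at hx hy
    simp only [Prod.mk.injEq] at hxy
    have h1 : x ≡ y [MOD a] := hxy.1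
    have h2 : x ≡ y [MOD b] := hxy.2
    have h3 : x ≡ y [MOD a * b] := (Nat.modEq_and_modEq_iff_modEq_mul hab).mp ⟨h1, h2⟩
    exact Nat.ModEq.eq_of_lt_of_lt h3 hx hy
  · rintro ⟨u, v⟩ huv
    simp only [coe_product, coe_range, Set.mem_prod, Set.mem_Iio] at huv
    have hc := Nat.chineseRemainder hab u v
    obtain ⟨k, hk1, hk2⟩ := hc
    refine ⟨k % (a * b), ?_, ?_⟩
    · simp only [coe_range, Set.mem_Iio]
      exact Nat.mod_lt _ (Nat.mul_pos ha hb)
    · simp only [Nat.mod_mul_right_mod, Nat.mod_mul_left_mod]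
      have e1 : k % a = u % a := hk1
      have e2 : k % b = v % b := hk2
      rw [e1, e2, Nat.mod_eq_of_lt huv.1, Nat.mod_eq_of_lt huv.2]
  · intro x _
    simp only
    rw [Psi_mod a f hf x, Psi_mod b g hg x]

theorem Psi_prod_periodic (E : Finset ℕ) (F : ℕ → ℤ → ℝ)
    (hF : ∀ p ∈ E, ∀ t : ℤ, F p (t + p) = F p t) (t : ℤ) :
    ∏ p ∈ E, F p (t + (∏ p ∈ E, p : ℕ)) = ∏ p ∈ E, F p t := by
  refine Finset.prod_congr rfl fun p hp => ?_
  have hper : Function.Periodic (F p) (p : ℤ) := hF p hp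
  obtain ⟨c, hc⟩ : p ∣ ∏ q ∈ E, q := Finset.dvd_prod_of_mem (fun q => q) hp
  rw [hc]
  have := hper.nat_mul c t
  push_cast
  rw [mul_comm (p : ℤ) (c : ℤ)]
  exact this

theorem sum_prod_periodic (E : Finset ℕ) (hE : ∀ p ∈ E, p.Prime) (F : ℕ → ℤ → ℝ)
    (hF : ∀ p ∈ E, ∀ t : ℤ, F p (t + p) = F p t) :
    ∑ x ∈ range (∏ p ∈ E, p), ∏ p ∈ E, F p (x : ℤ) = ∏ p ∈ E, ∑ x ∈ range p, F p (x : ℤ) := by
  classical
  induction E using Finset.induction_on with
  | empty => simp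
  | insert q E hq ih =>
    have hE' : ∀ p ∈ E, p.Prime := fun p hp => hE p (mem_insert_of_mem hp)
    have hF' : ∀ p ∈ E, ∀ t : ℤ, F p (t + p) = F p t := fun p hp => hF p (mem_insert_of_mem hp)
    have hqp : q.Prime := hE q (mem_insert_self q E)
    rw [prod_insert hq, prod_insert hq, ← ih hE' hF']
    have hcop : Nat.Coprime q (∏ p ∈ E, p) := by
      refine Nat.Coprime.prod_right fun p hp => ?_
      rw [Nat.coprime_primes hqp (hE' p hp)]
      rintro rfl
      exact hq hp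
    rw [← Psi_two q (∏ p ∈ E, p) hqp.pos (Finset.prod_pos fun p hp => (hE' p hp).pos) hcop
      (F q) (fun t => ∏ p ∈ E, F p t) (hF q (mem_insert_self q E))
      (Psi_prod_periodic E F hF')]
    refine Finset.sum_congr rfl fun x _ => ?_
    rw [prod_insert hq]

theorem Psi_gp_periodic (p : ℕ) (Om : Finset ℕ) (t : ℤ) : gp p Om (t + p) = gp p Om t := by
  unfold gp
  rw [Int.add_emod_right]

theorem Psi_gp_range (p : ℕ) (Om : Finset ℕ) (x : ℕ) (hx : x ∈ range p) :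
    gp p Om (x : ℤ) = if x ∈ Om then -(((p : ℝ) - Om.card) / Om.card) else 1 := by
  unfold gp
  have h : ((x : ℤ) % (p : ℤ)).toNat = x := by
    rw [Int.emod_eq_of_lt (by positivity) (by exact_mod_cast mem_range.mp hx)]
    exact Int.toNat_natCast x
  rw [h]

theorem Psi_sum (p : ℕ) (Om : Finset ℕ) (hO : Om ⊆ range p) (c : ℝ) :
    ∑ x ∈ range p, (if x ∈ Om then c else 1) = Om.card * c + ((p : ℝ) - Om.card) := by
  rw [Finset.sum_ite, Finset.sum_const, Finset.sum_const, nsmul_eq_mul, nsmul_eq_mul, mul_one]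
  have h1 : (range p).filter (fun x => x ∈ Om) = Om := by
    rw [Finset.filter_mem_eq_inter]
    exact Finset.inter_eq_right.mpr hO
  have h2 : (range p).filter (fun x => ¬ x ∈ Om) = range p \ Om := by
    ext x; simp
  rw [h1, h2, Finset.card_sdiff_of_subset hO, card_range,
    Nat.cast_sub (by simpa using Finset.card_le_card hO)]

theorem Psi_gp_sum (p : ℕ) (Om : Finset ℕ) (hO : Om ⊆ range p) (hne : Om.Nonempty) :
    ∑ x ∈ range p, gp p Om (x : ℤ) = 0 := by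
  rw [Finset.sum_congr rfl (Psi_gp_range p Om), Psi_sum p Om hO]
  have h : (Om.card : ℝ) ≠ 0 := by
    have := hne.card_pos
    positivity
  field_simp
  ring

theorem Psi_gp_sq_sum (p : ℕ) (Om : Finset ℕ) (hO : Om ⊆ range p) (hne : Om.Nonempty) :
    ∑ x ∈ range p, gp p Om (x : ℤ) ^ 2 = (p : ℝ) * (((p : ℝ) - Om.card) / Om.card) := by
  have h : (Om.card : ℝ) ≠ 0 := by
    have := hne.card_pos
    positivity
  have e : ∀ x ∈ range p, gp p Om (x : ℤ) ^ 2 =
      if x ∈ Om then (((p : ℝ) - Om.card) / Om.card) ^ 2 else 1 := by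
    intro x hx
    rw [Psi_gp_range p Om x hx]
    split_ifs
    · ring
    · norm_num
  rw [Finset.sum_congr rfl e, Psi_sum p Om hO]
  field_simp
  ring

variable (P : Finset ℕ) (Ω : ℕ → Finset ℕ)

theorem psi_bound (hP : ∀ p ∈ P, p.Prime)
    (hΩ : ∀ p ∈ P, Ω p ⊆ range p ∧ (Ω p).card < p ∧ (Ω p).Nonempty) (e : Finset ℕ) (he : e ⊆ P)
    (n : ℤ) : |psi Ω e n| ≤ ((∏ p ∈ e, p : ℕ) : ℝ) := by
  unfold psi
  rw [Finset.abs_prod]
  push_cast
  refine Finset.prod_le_prod (fun _ _ => abs_nonneg _) fun p hp => ?_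
  have hpr := hP p (he hp)
  obtain ⟨_, h2, h3⟩ := hΩ p (he hp)
  have hc : (1 : ℝ) ≤ (Ω p).card := by exact_mod_cast h3.card_pos
  have hlt : ((Ω p).card : ℝ) < p := by exact_mod_cast h2
  unfold gp
  split_ifs
  · rw [abs_neg, abs_of_nonneg (div_nonneg (by linarith) (by linarith))]
    rw [div_le_iff₀ (by linarith)]
    nlinarith
  · rw [abs_one]
    linarith

theorem Psi_two_prod (e e' : Finset ℕ) (n : ℤ) :
    psi Ω e n * psi Ω e' n = ∏ p ∈ e ∪ e', ((if p ∈ e then gp p (Ω p) n else 1) *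
      (if p ∈ e' then gp p (Ω p) n else 1)) := by
  classical
  rw [Finset.prod_mul_distrib, Finset.prod_ite_mem, Finset.prod_ite_mem,
    Finset.inter_eq_right.mpr Finset.subset_union_left,
    Finset.inter_eq_right.mpr Finset.subset_union_right]
  rfl

theorem psi_orth (hP : ∀ p ∈ P, p.Prime)
    (hΩ : ∀ p ∈ P, Ω p ⊆ range p ∧ (Ω p).card < p ∧ (Ω p).Nonempty) (e e' : Finset ℕ) (he : e ⊆ P)
    (he' : e' ⊆ P) (hne : e ≠ e') :
    (∀ t : ℤ, psi Ω e (t + (∏ p ∈ e ∪ e', p : ℕ)) * psi Ω e' (t + (∏ p ∈ e ∪ e', p : ℕ)) =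
      psi Ω e t * psi Ω e' t) ∧
    ∑ x ∈ range (∏ p ∈ e ∪ e', p), psi Ω e (x : ℤ) * psi Ω e' (x : ℤ) = 0 := by
  classical
  set F : ℕ → ℤ → ℝ := fun p n => (if p ∈ e then gp p (Ω p) n else 1) *
      (if p ∈ e' then gp p (Ω p) n else 1) with hFdef
  have hper : ∀ p ∈ e ∪ e', ∀ t : ℤ, F p (t + p) = F p t := by
    intro p _ t
    simp only [hFdef, Psi_gp_periodic]
  have hprod : ∀ n : ℤ, psi Ω e n * psi Ω e' n = ∏ p ∈ e ∪ e', F p n := fun n =>
    Psi_two_prod Ω e e' n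
  refine ⟨fun t => ?_, ?_⟩
  · rw [hprod, hprod]
    exact Psi_prod_periodic (e ∪ e') F hper t
  · have hE : ∀ p ∈ e ∪ e', p.Prime := fun p hp => by
      rcases mem_union.mp hp with h | h
      · exact hP p (he h)
      · exact hP p (he' h)
    simp only [hprod]
    rw [sum_prod_periodic (e ∪ e') hE F hper]
    obtain ⟨p, hp⟩ : ∃ p, ¬ (p ∈ e ↔ p ∈ e') := by
      by_contra hcon
      apply hne
      ext p
      by_contra h
      exact hcon ⟨p, h⟩
    by_cases h1 : p ∈ e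
    · have h2 : p ∉ e' := fun h => hp ⟨fun _ => h, fun _ => h1⟩
      refine Finset.prod_eq_zero (mem_union_left _ h1) ?_
      simp only [hFdef, h1, h2, if_true, if_false, mul_one]
      exact Psi_gp_sum p (Ω p) (hΩ p (he h1)).1 (hΩ p (he h1)).2.2
    · have h2 : p ∈ e' := by
        by_contra h
        exact hp ⟨fun h' => absurd h' h1, fun h' => absurd h' h⟩
      refine Finset.prod_eq_zero (mem_union_right _ h2) ?_
      simp only [hFdef, h1, h2, if_true, if_false, one_mul]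
      exact Psi_gp_sum p (Ω p) (hΩ p (he' h2)).1 (hΩ p (he' h2)).2.2

theorem psi_sq (hP : ∀ p ∈ P, p.Prime)
    (hΩ : ∀ p ∈ P, Ω p ⊆ range p ∧ (Ω p).card < p ∧ (Ω p).Nonempty) (e : Finset ℕ) (he : e ⊆ P) :
    (∀ t : ℤ, psi Ω e (t + (∏ p ∈ e, p : ℕ)) = psi Ω e t) ∧
    ∑ x ∈ range (∏ p ∈ e, p), psi Ω e (x : ℤ) ^ 2 =
      ((∏ p ∈ e, p : ℕ) : ℝ) * ∏ p ∈ e, (((p : ℝ) - (Ω p).card) / (Ω p).card) := by
  refine ⟨fun t => ?_, ?_⟩
  · exact Psi_prod_periodic e (fun p n => gp p (Ω p) n) (fun p _ t => Psi_gp_periodic p (Ω p) t) t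
  · have hprod : ∀ n : ℤ, psi Ω e n ^ 2 = ∏ p ∈ e, gp p (Ω p) n ^ 2 := fun n => by
      unfold psi
      rw [Finset.prod_pow]
    have hE : ∀ p ∈ e, p.Prime := fun p hp => hP p (he hp)
    simp only [hprod]
    rw [sum_prod_periodic e hE (fun p n => gp p (Ω p) n ^ 2)
        (fun p _ t => by simp only [Psi_gp_periodic])]
    push_cast
    rw [← Finset.prod_mul_distrib]
    refine Finset.prod_congr rfl fun p hp => ?_
    exact Psi_gp_sq_sum p (Ω p) (hΩ p (he hp)).1 (hΩ p (he hp)).2.2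

end Pool.Agent.MT
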