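import Pool.Agent.MT.Avg
import Pool.Agent.MT.Psi

set_option autoImplicit false

/-!
# MT / SmoothLS: the arithmetic large sieve with exponent `1/2 - θ`

Put `h(e) = ∏_{p ∈ e} ω/(p - ω)`, `L = ∑_{e ∈ Qs} h(e)`, `F = ∑_{e ∈ Qs} h(e) psi e`; `F = L` on `A`.
`H = N + 1`, `k ≥ 3/(2θ)`, `k ≥ 1`.  By `avg_lower` (at `t = -s`)
`4^{-k}/H · |A| L² ≤ (avg H)^[k] (F²) (-s)`.  Expand `F²`: for `e ≠ e'` the function
`psi e psi e'` has period `m = ∏_{e ∪ e'} p ≤ N^{1-2θ}`, zero sum and is bounded by `N`, so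
`avg_small` gives `≤ N (N^{-2θ})^k`; for `e = e'` subtract the mean `1/h(e)`.  Hence
`(avg H)^[k] (F²) ≤ L + L² N^{-2}`, and `L ≤ N²` (`h(e) ≤ ∏_e p ≤ N`, at most `N` sets `e`:
the products are distinct positive integers `≤ N`), so this is `≤ 2 L`.  Therefore
`|A| L ≤ 2 · 4^k (N + 1)`.
-/

namespace Pool.Agent.MT

open Finset

theorem SmoothLS_pow (θ : ℝ) (hθ : 0 < θ) (k N : ℕ) (hN : 1 ≤ N) (hk : 3 ≤ 2 * θ * k)
    (m : ℝ) (hm0 : 0 ≤ m) (hm : m ≤ (N : ℝ) ^ (1 - 2 * θ)) :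
    (N : ℝ) * (m / ((N + 1 : ℕ) : ℝ)) ^ k ≤ 1 / (N : ℝ) ^ 2 := by
  have hN1 : (1 : ℝ) ≤ N := by exact_mod_cast hN
  have hN0 : (0 : ℝ) < N := by linarith
  have h1 : m / ((N + 1 : ℕ) : ℝ) ≤ (N : ℝ) ^ (-(2 * θ)) := by
    rw [div_le_iff₀ (by positivity)]
    calc m ≤ (N : ℝ) ^ (1 - 2 * θ) := hm
      _ = (N : ℝ) ^ (-(2 * θ)) * N := by
          rw [show (1 - 2 * θ : ℝ) = -(2 * θ) + 1 by ring, Real.rpow_add hN0, Real.rpow_one]
      _ ≤ (N : ℝ) ^ (-(2 * θ)) * ((N + 1 : ℕ) : ℝ) := by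
          apply mul_le_mul_of_nonneg_left _ (Real.rpow_nonneg hN0.le _)
          push_cast; linarith
  have h2 : (m / ((N + 1 : ℕ) : ℝ)) ^ k ≤ ((N : ℝ) ^ (-(2 * θ))) ^ k :=
    pow_le_pow_left₀ (by positivity) h1 k
  have h3 : ((N : ℝ) ^ (-(2 * θ))) ^ k ≤ (N : ℝ) ^ (-(3 : ℝ)) := by
    rw [← Real.rpow_natCast, ← Real.rpow_mul hN0.le]
    apply Real.rpow_le_rpow_of_exponent_le hN1
    nlinarith
  have h4 : (N : ℝ) ^ (-(3 : ℝ)) = 1 / (N : ℝ) ^ 3 := by
    rw [Real.rpow_neg hN0.le, show (3 : ℝ) = ((3 : ℕ) : ℝ) by norm_num, Real.rpow_natCast]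
    simp
  calc (N : ℝ) * (m / ((N + 1 : ℕ) : ℝ)) ^ k ≤ N * (1 / (N : ℝ) ^ 3) := by
        apply mul_le_mul_of_nonneg_left _ hN0.le
        rw [← h4]; exact h2.trans h3
    _ = 1 / (N : ℝ) ^ 2 := by field_simp

theorem smooth_ls (θ : ℝ) (hθ : 0 < θ) (hθ' : θ < 1 / 2) : ∃ C : ℝ, 0 < C ∧
    ∀ (N : ℕ) (A P : Finset ℕ) (Ω : ℕ → Finset ℕ) (Qs : Finset (Finset ℕ)), 1 ≤ N →
      (∀ a ∈ A, a ≤ N) → (∀ p ∈ P, p.Prime) →
      (∀ p ∈ P, Ω p ⊆ range p ∧ (Ω p).card < p ∧ (Ω p).Nonempty) →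
      (∀ a ∈ A, ∀ p ∈ P, a % p ∉ Ω p) →
      (∀ e ∈ Qs, e ⊆ P ∧ ((∏ p ∈ e, p : ℕ) : ℝ) ≤ (N : ℝ) ^ (1 / 2 - θ)) →
      (A.card : ℝ) * ∑ e ∈ Qs, ∏ p ∈ e, (((Ω p).card : ℝ) / ((p : ℝ) - (Ω p).card)) ≤ C * N := by
  set k : ℕ := ⌈3 / (2 * θ)⌉₊ with hk
  have hk1 : 1 ≤ k := Nat.one_le_iff_ne_zero.mpr (Nat.ceil_pos.mpr (by positivity)).ne'
  have hk3 : 3 ≤ 2 * θ * k := by
    have := Nat.le_ceil (3 / (2 * θ))
    rw [← hk, div_le_iff₀ (by positivity)] at this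
    linarith
  refine ⟨4 ^ (k + 1), by positivity, ?_⟩
  intro N A P Ω Qs hN hA hP hΩ hAΩ hQs
  have hN1 : (1 : ℝ) ≤ N := by exact_mod_cast hN
  have hN0 : (0 : ℝ) < N := by linarith
  set h : Finset ℕ → ℝ := fun e => ∏ p ∈ e, (((Ω p).card : ℝ) / ((p : ℝ) - (Ω p).card)) with hh
  set g : Finset ℕ → ℝ := fun e => ∏ p ∈ e, (((p : ℝ) - (Ω p).card) / (Ω p).card) with hg
  set L : ℝ := ∑ e ∈ Qs, h e with hL
  have hω : ∀ p ∈ P, (1 : ℝ) ≤ (Ω p).card ∧ ((Ω p).card : ℝ) + 1 ≤ p := by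
    intro p hp
    obtain ⟨_, h2, h3⟩ := hΩ p hp
    have h4 : 1 ≤ (Ω p).card := Finset.card_pos.mpr h3
    exact ⟨by exact_mod_cast h4, by exact_mod_cast h2⟩
  have hhpos : ∀ e ∈ Qs, 0 < h e := by
    intro e he
    refine Finset.prod_pos fun p hp => ?_
    obtain ⟨h1, h2⟩ := hω p ((hQs e he).1 hp)
    exact div_pos (by linarith) (by linarith)
  have hhg : ∀ e ∈ Qs, h e * g e = 1 := by
    intro e he
    simp only [hh, hg]
    rw [← Finset.prod_mul_distrib]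
    refine Finset.prod_eq_one fun p hp => ?_
    obtain ⟨h1, h2⟩ := hω p ((hQs e he).1 hp)
    have h3 : (p : ℝ) - (Ω p).card ≠ 0 := by linarith
    have h4 : ((Ω p).card : ℝ) ≠ 0 := by linarith
    field_simp
  have hprod : ∀ e ∈ Qs, ((∏ p ∈ e, p : ℕ) : ℝ) ≤ (N : ℝ) ^ (1 / 2 - θ) := fun e he =>
    (hQs e he).2
  have hq0 : 0 ≤ (N : ℝ) ^ (1 / 2 - θ) := Real.rpow_nonneg hN0.le _
  have hq1 : (N : ℝ) ^ (1 / 2 - θ) ≤ N := by
    calc (N : ℝ) ^ (1 / 2 - θ) ≤ (N : ℝ) ^ (1 : ℝ) :=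
          Real.rpow_le_rpow_of_exponent_le hN1 (by linarith)
      _ = N := Real.rpow_one _
  have hqq : (N : ℝ) ^ (1 / 2 - θ) * (N : ℝ) ^ (1 / 2 - θ) = (N : ℝ) ^ (1 - 2 * θ) := by
    rw [← Real.rpow_add hN0]
    congr 1
    ring
  have hq2 : (N : ℝ) ^ (1 - 2 * θ) ≤ N := by
    calc (N : ℝ) ^ (1 - 2 * θ) ≤ (N : ℝ) ^ (1 : ℝ) :=
          Real.rpow_le_rpow_of_exponent_le hN1 (by linarith)
      _ = N := Real.rpow_one _
  have hq3 : (N : ℝ) ^ (1 / 2 - θ) ≤ (N : ℝ) ^ (1 - 2 * θ) :=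
    Real.rpow_le_rpow_of_exponent_le hN1 (by linarith)
  have hprodpos : ∀ e ∈ Qs, 1 ≤ ∏ p ∈ e, p := by
    intro e he
    exact Nat.one_le_iff_ne_zero.mpr
      (Finset.prod_ne_zero_iff.mpr fun p hp => (hP p ((hQs e he).1 hp)).ne_zero)
  -- the bound for L
  have hhN : ∀ e ∈ Qs, h e ≤ N := by
    intro e he
    calc h e ≤ ∏ p ∈ e, (p : ℝ) := by
          refine Finset.prod_le_prod (fun p hp => ?_) (fun p hp => ?_)
          · obtain ⟨h1, h2⟩ := hω p ((hQs e he).1 hp)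
            exact div_nonneg (by linarith) (by linarith)
          · obtain ⟨h1, h2⟩ := hω p ((hQs e he).1 hp)
            rw [div_le_iff₀ (by linarith)]
            nlinarith
      _ = ((∏ p ∈ e, p : ℕ) : ℝ) := by push_cast; rfl
      _ ≤ N := (hprod e he).trans hq1
  have hcard : (Qs.card : ℝ) ≤ N := by
    have h1 : Qs.card ≤ (Finset.Icc 1 N).card := by
      apply Finset.card_le_card_of_injOn (fun e => ∏ p ∈ e, p)
      · intro e he
        have he' : e ∈ Qs := he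
        have h2 : ((∏ p ∈ e, p : ℕ) : ℝ) ≤ N := (hprod e he').trans hq1
        simp only [Finset.coe_Icc, Set.mem_Icc]
        exact ⟨hprodpos e he', by exact_mod_cast h2⟩
      · intro e he e' he' hee
        have he1 : e ∈ Qs := he
        have he2 : e' ∈ Qs := he'
        have h2 : (∏ p ∈ e, p).primeFactors = e :=
          Nat.primeFactors_prod fun p hp => hP p ((hQs e he1).1 hp)
        have h3 : (∏ p ∈ e', p).primeFactors = e' :=
          Nat.primeFactors_prod fun p hp => hP p ((hQs e' he2).1 hp)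
        have hee' : ∏ p ∈ e, p = ∏ p ∈ e', p := hee
        rw [← h2, ← h3, hee']
    rw [Nat.card_Icc] at h1
    have h2 : Qs.card ≤ N := by omega
    exact_mod_cast h2
  have hL0 : 0 ≤ L := Finset.sum_nonneg fun e he => (hhpos e he).le
  have hLN : L ≤ (N : ℝ) ^ 2 := by
    calc L ≤ ∑ _e ∈ Qs, (N : ℝ) := Finset.sum_le_sum hhN
      _ = Qs.card * N := by rw [Finset.sum_const, nsmul_eq_mul]
      _ ≤ N * N := mul_le_mul_of_nonneg_right hcard hN0.le
      _ = (N : ℝ) ^ 2 := by ring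
  -- the averages
  obtain ⟨s, hs⟩ := avg_lower (N + 1) k (by omega) hk1
  have hT : ∀ e ∈ Qs, ∀ e' ∈ Qs, ∀ t : ℤ,
      (avg (N + 1))^[k] (fun n => psi Ω e n * psi Ω e' n) t ≤
        (if e = e' then g e else 0) + 1 / (N : ℝ) ^ 2 := by
    intro e he e' he' t
    have hb : ∀ n, |psi Ω e n| ≤ (N : ℝ) ^ (1 / 2 - θ) := fun n =>
      (psi_bound P Ω hP hΩ e (hQs e he).1 n).trans (hprod e he)
    have hb' : ∀ n, |psi Ω e' n| ≤ (N : ℝ) ^ (1 / 2 - θ) := fun n =>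
      (psi_bound P Ω hP hΩ e' (hQs e' he').1 n).trans (hprod e' he')
    have hbb : ∀ n, |psi Ω e n * psi Ω e' n| ≤ N := by
      intro n
      rw [abs_mul]
      calc |psi Ω e n| * |psi Ω e' n| ≤ (N : ℝ) ^ (1 / 2 - θ) * (N : ℝ) ^ (1 / 2 - θ) :=
            mul_le_mul (hb n) (hb' n) (abs_nonneg _) hq0
        _ ≤ N := by rw [hqq]; exact hq2
    by_cases hee : e = e'
    · subst hee
      rw [if_pos rfl]
      obtain ⟨hper, hsum⟩ := psi_sq P Ω hP hΩ e (hQs e he).1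
      have hM1 := hprodpos e he
      set M : ℕ := ∏ p ∈ e, p with hM
      have hM0 : (0 : ℝ) < M := by exact_mod_cast hM1
      have hgle : g e ≤ N := by
        have h1 : (M : ℝ) * g e ≤ ∑ _x ∈ range M, (N : ℝ) := by
          have h2 : (M : ℝ) * g e = ∑ x ∈ range M, psi Ω e (x : ℤ) ^ 2 := hsum.symm
          rw [h2]
          refine Finset.sum_le_sum fun x _ => ?_
          have h3 := hbb (x : ℤ)
          rw [pow_two]
          exact (le_abs_self _).trans h3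
        rw [Finset.sum_const, Finset.card_range, nsmul_eq_mul] at h1
        exact le_of_mul_le_mul_left h1 hM0
      have hg0 : 0 ≤ g e := by
        refine Finset.prod_nonneg fun p hp => ?_
        obtain ⟨h1, h2⟩ := hω p ((hQs e he).1 hp)
        exact div_nonneg (by linarith) (by linarith)
      have h1 := avg_small (N + 1) M k (by omega) hM1 (fun n => psi Ω e n * psi Ω e n - g e) N
        (by
          intro n
          have h2 := hbb n
          have h3 : 0 ≤ psi Ω e n * psi Ω e n := mul_self_nonneg _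
          rw [abs_le]
          have h4 := (abs_le.mp h2).2
          constructor <;> linarith)
        (by
          intro n
          have h2 := hper n
          simp only [h2])
        (by
          rw [Finset.sum_sub_distrib, Finset.sum_const, Finset.card_range, nsmul_eq_mul]
          have h2 : ∑ x ∈ range M, psi Ω e (x : ℤ) * psi Ω e (x : ℤ) =
              ∑ x ∈ range M, psi Ω e (x : ℤ) ^ 2 :=
            Finset.sum_congr rfl fun x _ => (pow_two _).symm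
          rw [h2, hsum]
          simp only [hg]
          ring) t
      have h2 : (fun n => psi Ω e n * psi Ω e n) =
          fun n => (psi Ω e n * psi Ω e n - g e) + (fun _ => g e) n := by
        funext n
        ring
      rw [h2, avg_add (N + 1) k (fun n => psi Ω e n * psi Ω e n - g e) (fun _ => g e) t,
        avg_const (N + 1) k (by omega)]
      have h3 := SmoothLS_pow θ hθ k N hN hk3 M hM0.le ((hprod e he).trans hq3)
      have h4 := (abs_le.mp h1).2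
      linarith
    · rw [if_neg hee, zero_add]
      obtain ⟨hper, hsum⟩ := psi_orth P Ω hP hΩ e e' (hQs e he).1 (hQs e' he').1 hee
      have hM1 : 1 ≤ ∏ p ∈ e ∪ e', p := by
        refine Nat.one_le_iff_ne_zero.mpr (Finset.prod_ne_zero_iff.mpr fun p hp => ?_)
        rcases Finset.mem_union.mp hp with hp | hp
        · exact (hP p ((hQs e he).1 hp)).ne_zero
        · exact (hP p ((hQs e' he').1 hp)).ne_zero
      have hMle : ((∏ p ∈ e ∪ e', p : ℕ) : ℝ) ≤ (N : ℝ) ^ (1 - 2 * θ) := by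
        have h1 : (∏ p ∈ e ∪ e', p) ≤ (∏ p ∈ e, p) * ∏ p ∈ e', p := by
          rw [← Finset.prod_union_inter]
          refine Nat.le_mul_of_pos_right _ (Finset.prod_pos fun p hp => ?_)
          exact (hP p ((hQs e he).1 (Finset.mem_inter.mp hp).1)).pos
        calc ((∏ p ∈ e ∪ e', p : ℕ) : ℝ) ≤ (((∏ p ∈ e, p) * ∏ p ∈ e', p : ℕ) : ℝ) := by
              exact_mod_cast h1
          _ = ((∏ p ∈ e, p : ℕ) : ℝ) * ((∏ p ∈ e', p : ℕ) : ℝ) := by rw [Nat.cast_mul]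
          _ ≤ (N : ℝ) ^ (1 / 2 - θ) * (N : ℝ) ^ (1 / 2 - θ) :=
              mul_le_mul (hprod e he) (hprod e' he') (Nat.cast_nonneg _) hq0
          _ = _ := hqq
      have h1 := avg_small (N + 1) (∏ p ∈ e ∪ e', p) k (by omega) hM1
        (fun n => psi Ω e n * psi Ω e' n) N hbb hper hsum t
      have h3 := SmoothLS_pow θ hθ k N hN hk3 _ (Nat.cast_nonneg _) hMle
      have h4 := (abs_le.mp h1).2
      linarith
  -- expansion
  have hexp : (fun n : ℤ => (∑ e ∈ Qs, h e * psi Ω e n) ^ 2) = fun n => ∑ e ∈ Qs,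
      (fun n => ∑ e' ∈ Qs, (fun n => (h e * h e') * (psi Ω e n * psi Ω e' n)) n) n := by
    funext n
    rw [pow_two, Finset.sum_mul_sum]
    refine Finset.sum_congr rfl fun e _ => Finset.sum_congr rfl fun e' _ => ?_
    ring
  have hup : ∀ t : ℤ, (avg (N + 1))^[k] (fun n : ℤ => (∑ e ∈ Qs, h e * psi Ω e n) ^ 2) t ≤
      2 * L := by
    intro t
    rw [hexp, avg_sum (N + 1) k Qs
      (fun e n => ∑ e' ∈ Qs, (fun n => (h e * h e') * (psi Ω e n * psi Ω e' n)) n) t]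
    have h1 : ∀ e ∈ Qs, (avg (N + 1))^[k]
        (fun n => ∑ e' ∈ Qs, (fun n => (h e * h e') * (psi Ω e n * psi Ω e' n)) n) t ≤
        h e + h e * L * (1 / (N : ℝ) ^ 2) := by
      intro e he
      rw [avg_sum (N + 1) k Qs (fun e' n => (h e * h e') * (psi Ω e n * psi Ω e' n)) t]
      calc ∑ e' ∈ Qs, (avg (N + 1))^[k] (fun n => (h e * h e') * (psi Ω e n * psi Ω e' n)) t
          ≤ ∑ e' ∈ Qs, (h e * h e') * ((if e = e' then g e else 0) + 1 / (N : ℝ) ^ 2) := by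
            refine Finset.sum_le_sum fun e' he' => ?_
            rw [avg_smul (N + 1) k (h e * h e') (fun n => psi Ω e n * psi Ω e' n) t]
            exact mul_le_mul_of_nonneg_left (hT e he e' he' t)
              (mul_nonneg (hhpos e he).le (hhpos e' he').le)
        _ = (∑ e' ∈ Qs, if e = e' then h e * h e' * g e else 0) +
              ∑ e' ∈ Qs, h e * h e' * (1 / (N : ℝ) ^ 2) := by
            rw [← Finset.sum_add_distrib]
            refine Finset.sum_congr rfl fun e' _ => ?_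
            split_ifs <;> ring
        _ = h e + h e * L * (1 / (N : ℝ) ^ 2) := by
            rw [Finset.sum_ite_eq, if_pos he, mul_assoc, hhg e he, mul_one, hL, Finset.mul_sum,
              Finset.sum_mul]
    calc _ ≤ ∑ e ∈ Qs, (h e + h e * L * (1 / (N : ℝ) ^ 2)) := Finset.sum_le_sum h1
      _ = L + L * L * (1 / (N : ℝ) ^ 2) := by
          rw [Finset.sum_add_distrib, ← Finset.sum_mul, ← Finset.sum_mul]
      _ ≤ 2 * L := by
          have h2 : L * (1 / (N : ℝ) ^ 2) ≤ 1 := by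
            rw [mul_one_div, div_le_one (by positivity)]
            exact hLN
          nlinarith
  -- the values on A
  have hval : ∀ a ∈ A, ∑ e ∈ Qs, h e * psi Ω e (a : ℤ) = L := by
    intro a ha
    refine Finset.sum_congr rfl fun e he => ?_
    have h1 : psi Ω e (a : ℤ) = 1 := by
      refine Finset.prod_eq_one fun p hp => ?_
      have h2 := hAΩ a ha p ((hQs e he).1 hp)
      have h3 : ((a : ℤ) % (p : ℤ)).toNat = a % p := by
        have : ((a : ℤ) % (p : ℤ)) = ((a % p : ℕ) : ℤ) := by push_cast; rfl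
        rw [this, Int.toNat_natCast]
      simp only [gp]
      rw [h3, if_neg h2]
    rw [h1, mul_one]
  have hlow := hs (fun n : ℤ => (∑ e ∈ Qs, h e * psi Ω e n) ^ 2) (fun _ => sq_nonneg _) (-(s : ℤ))
  have hsumA : (A.card : ℝ) * L ^ 2 ≤
      ∑ x ∈ range (N + 1), (∑ e ∈ Qs, h e * psi Ω e (-(s : ℤ) + s + x)) ^ 2 := by
    have hAsub : A ⊆ range (N + 1) := by
      intro a ha
      rw [Finset.mem_range]
      exact Nat.lt_succ_of_le (hA a ha)
    calc (A.card : ℝ) * L ^ 2 = ∑ _a ∈ A, L ^ 2 := by rw [Finset.sum_const, nsmul_eq_mul]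
      _ = ∑ a ∈ A, (∑ e ∈ Qs, h e * psi Ω e (-(s : ℤ) + s + a)) ^ 2 := by
          refine Finset.sum_congr rfl fun a ha => ?_
          rw [neg_add_cancel, zero_add, hval a ha]
      _ ≤ _ := Finset.sum_le_sum_of_subset_of_nonneg hAsub fun _ _ _ => sq_nonneg _
  have hfin : (1 / 4 : ℝ) ^ k / ((N + 1 : ℕ) : ℝ) * ((A.card : ℝ) * L ^ 2) ≤ 2 * L := by
    refine le_trans ?_ (hlow.trans (hup _))
    exact mul_le_mul_of_nonneg_left hsumA (by positivity)
  rcases hL0.eq_or_lt with hL0' | hLpos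
  · have h1 : (A.card : ℝ) * L = 0 := by rw [← hL0', mul_zero]
    change (A.card : ℝ) * L ≤ _
    rw [h1]
    positivity
  · change (A.card : ℝ) * L ≤ _
    have h1 : (1 / 4 : ℝ) ^ k / ((N + 1 : ℕ) : ℝ) * ((A.card : ℝ) * L ^ 2) =
        ((1 / 4 : ℝ) ^ k / ((N + 1 : ℕ) : ℝ) * ((A.card : ℝ) * L)) * L := by ring
    rw [h1] at hfin
    have h2 : (1 / 4 : ℝ) ^ k / ((N + 1 : ℕ) : ℝ) * ((A.card : ℝ) * L) ≤ 2 :=
      le_of_mul_le_mul_right hfin hLpos
    have h3 : (1 / 4 : ℝ) ^ k = 1 / 4 ^ k := by rw [div_pow, one_pow]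
    rw [h3, div_div, div_mul_eq_mul_div, one_mul, div_le_iff₀ (by positivity)] at h2
    calc (A.card : ℝ) * L ≤ 2 * (4 ^ k * ((N + 1 : ℕ) : ℝ)) := h2
      _ ≤ 2 * (4 ^ k * (2 * N)) := by
          have : ((N + 1 : ℕ) : ℝ) ≤ 2 * N := by push_cast; linarith
          gcongr
      _ = 4 ^ (k + 1) * N := by ring

end Pool.Agent.MT
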