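import Pool.Agent.MT.Dim
import Pool.Agent.MT.Larger
import Pool.Agent.MT.SmoothLS

set_option autoImplicit false

/-!
# MT / Half: if `B` has many elements then `A` has at most `n^{1/2+ε}`

`half_bound`: `θ = ε/8` (we may assume `ε < 1`), `c` a natural number with `c θ ≥ 2` and
`y = ⌊(log n)^c⌋`, so `y^θ ≥ 8 log n` for large `n`.  `many_classes` for `B ∩ [0, n]` (more than `y`
elements): at least `G ≥ y/(4 log y)` primes `p ≤ y` with `ν(p) ≥ p^{1-θ}`.  Delete from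
`A ∩ [0, n]` the at most `∑_{p ≤ y} p ≤ (y+1)²` elements `a` with `p ∣ a + b` for some `p ≤ y`, `b ∈ B`
(`one_sum`).  The remaining set `A'` avoids the classes `Ω p = -B mod p`,
`|Ω p| = ν(p)`, `p ≤ y` (if `A'` is nonempty then `|Ω p| < p`).  `smooth_ls` with `P` = the good
primes, `Qs = P.powersetCard m`, `m = ⌊(1/2 - θ) log n/log y⌋`: each product is `≤ y^m ≤ n^{1/2-θ}`,
`∏ ω/(p-ω) ≥ ∏ p^{-θ} ≥ y^{-θ m}`, number of sets `≥ (G/m)^m ≥ (y^{1-θ})^m` (`4 log y · m ≤ y^θ` for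
large `n` since `m ≤ log n`), so the sum is at least `y^{(1-2θ) m} ≥ (n^{1/2-θ}/y)^{1-2θ}` and
`|A'| ≤ C n y/n^{(1/2-θ)(1-2θ)} ≤ C y n^{1/2 + 2θ}`.
-/

namespace Pool.Agent.MT

open Finset Filter
open Pool.Agent.Helper90.Straus

/-- number of `m`-subsets -/
theorem choose_lower (G m : ℕ) (hm : 1 ≤ m) (h : m ≤ G) : ((G : ℝ) / m) ^ m ≤ (G.choose m : ℝ) := by
  induction m generalizing G with
  | zero => omega
  | succ k ih =>
    rcases Nat.eq_zero_or_pos k with rfl | hk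
    · simp
    · obtain ⟨G', rfl⟩ : ∃ G', G = G' + 1 := ⟨G - 1, by omega⟩
      have h1 := ih G' hk (by omega)
      have h2 : (((G' + 1 : ℕ) : ℝ)) * (G'.choose k : ℝ) =
          ((G' + 1).choose (k + 1) : ℝ) * ((k + 1 : ℕ) : ℝ) := by
        exact_mod_cast Nat.add_one_mul_choose_eq G' k
      have hkr : (0 : ℝ) < k := by exact_mod_cast hk
      have hk1 : (0 : ℝ) < ((k + 1 : ℕ) : ℝ) := by positivity
      have hkG : (k : ℝ) ≤ G' := by exact_mod_cast (by omega : k ≤ G')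
      have h3 : (((G' + 1 : ℕ) : ℝ)) / ((k + 1 : ℕ) : ℝ) ≤ (G' : ℝ) / k := by
        rw [div_le_div_iff₀ hk1 hkr]
        push_cast
        nlinarith
      have h4 : 0 ≤ (((G' + 1 : ℕ) : ℝ)) / ((k + 1 : ℕ) : ℝ) := by positivity
      calc ((((G' + 1 : ℕ) : ℝ)) / ((k + 1 : ℕ) : ℝ)) ^ (k + 1)
          = ((((G' + 1 : ℕ) : ℝ)) / ((k + 1 : ℕ) : ℝ)) ^ k *
            ((((G' + 1 : ℕ) : ℝ)) / ((k + 1 : ℕ) : ℝ)) := pow_succ _ _
        _ ≤ ((G' : ℝ) / k) ^ k * ((((G' + 1 : ℕ) : ℝ)) / ((k + 1 : ℕ) : ℝ)) :=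
            mul_le_mul_of_nonneg_right (pow_le_pow_left₀ h4 h3 k) h4
        _ ≤ (G'.choose k : ℝ) * ((((G' + 1 : ℕ) : ℝ)) / ((k + 1 : ℕ) : ℝ)) :=
            mul_le_mul_of_nonneg_right h1 h4
        _ = ((G' + 1).choose (k + 1) : ℝ) := by
            rw [mul_div_assoc', mul_comm (G'.choose k : ℝ), h2, mul_div_assoc, div_self hk1.ne',
              mul_one]

/-- lower bound for the sieve sum -/
theorem esum_lower (G : Finset ℕ) (w : ℕ → ℝ) (y m : ℕ) (θ : ℝ) (hθ : 0 < θ)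
    (hy : 1 ≤ y) (hm : 1 ≤ m) (hG : ∀ p ∈ G, 1 ≤ p ∧ p ≤ y)
    (hw : ∀ p ∈ G, (p : ℝ) ^ (1 - θ) ≤ w p ∧ w p < p)
    (hcard : (m : ℝ) * (y : ℝ) ^ (1 - θ) ≤ G.card) (hθ1 : θ ≤ 1) :
    (y : ℝ) ^ ((1 - 2 * θ) * m) ≤
      ∑ e ∈ G.powersetCard m, ∏ p ∈ e, (w p / ((p : ℝ) - w p)) := by
  have hy0 : (0 : ℝ) < y := by exact_mod_cast hy
  have hy1 : (1 : ℝ) ≤ y := by exact_mod_cast hy
  have hmr : (0 : ℝ) < m := by exact_mod_cast hm
  have h1 : ∀ e ∈ G.powersetCard m, ((y : ℝ) ^ (-θ)) ^ m ≤ ∏ p ∈ e, (w p / ((p : ℝ) - w p)) := by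
    intro e he
    obtain ⟨he1, he2⟩ := Finset.mem_powersetCard.1 he
    rw [← he2, ← Finset.prod_const]
    apply Finset.prod_le_prod
    · intro p _
      positivity
    · intro p hp
      obtain ⟨hp1, hp2⟩ := hG p (he1 hp)
      obtain ⟨hw1, hw2⟩ := hw p (he1 hp)
      have hp0 : (0 : ℝ) < p := by exact_mod_cast hp1
      have hwpos : 0 < w p := lt_of_lt_of_le (Real.rpow_pos_of_pos hp0 _) hw1
      have h2 : (y : ℝ) ^ (-θ) ≤ (p : ℝ) ^ (-θ) :=
        Real.rpow_le_rpow_of_nonpos hp0 (by exact_mod_cast hp2) (by linarith)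
      have h3 : (p : ℝ) ^ (-θ) = (p : ℝ) ^ (1 - θ) / p := by
        rw [show (-θ : ℝ) = (1 - θ) - 1 by ring, Real.rpow_sub hp0, Real.rpow_one]
      have h4 : (p : ℝ) ^ (1 - θ) / p ≤ w p / p := div_le_div_of_nonneg_right hw1 hp0.le
      have h5 : w p / p ≤ w p / ((p : ℝ) - w p) :=
        div_le_div_of_nonneg_left hwpos.le (by linarith) (by linarith)
      linarith
  have hmG : m ≤ G.card := by
    have h2 : (m : ℝ) * 1 ≤ (m : ℝ) * (y : ℝ) ^ (1 - θ) :=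
      mul_le_mul_of_nonneg_left (Real.one_le_rpow hy1 (by linarith)) hmr.le
    have h3 : (m : ℝ) ≤ G.card := by linarith
    exact_mod_cast h3
  have h2 : ((G.card : ℝ) / m) ^ m ≤ (G.card.choose m : ℝ) := choose_lower _ _ hm hmG
  have h3 : (y : ℝ) ^ (1 - θ) ≤ (G.card : ℝ) / m := by
    rw [le_div_iff₀ hmr]
    linarith
  have h4 : ((y : ℝ) ^ (1 - θ)) ^ m ≤ (G.card.choose m : ℝ) :=
    (pow_le_pow_left₀ (by positivity) h3 m).trans h2
  have h5 : ((G.powersetCard m).card : ℝ) * ((y : ℝ) ^ (-θ)) ^ m ≤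
      ∑ e ∈ G.powersetCard m, ∏ p ∈ e, (w p / ((p : ℝ) - w p)) := by
    have := Finset.card_nsmul_le_sum (G.powersetCard m) _ _ h1
    rwa [nsmul_eq_mul] at this
  refine le_trans ?_ h5
  rw [Finset.card_powersetCard]
  calc (y : ℝ) ^ ((1 - 2 * θ) * m) = ((y : ℝ) ^ (1 - θ)) ^ m * ((y : ℝ) ^ (-θ)) ^ m := by
        rw [← mul_pow, ← Real.rpow_add hy0, Real.rpow_mul hy0.le, Real.rpow_natCast]
        congr 2
        ring
    _ ≤ (G.card.choose m : ℝ) * ((y : ℝ) ^ (-θ)) ^ m :=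
        mul_le_mul_of_nonneg_right h4 (by positivity)

open Classical in
/-- deletion of the overlapping classes -/
theorem clean {A B : Set ℕ} (h : Admissible A B) (n y : ℕ) : ∃ A' : Finset ℕ,
    (∀ a ∈ A', a ∈ A ∧ a ≤ n ∧ ∀ p : ℕ, p.Prime → p ≤ y → ∀ b ∈ B, ¬ p ∣ a + b) ∧
    (A ∩ Set.Iic n).ncard ≤ A'.card + (y + 1) ^ 2 := by
  have hfin : (A ∩ Set.Iic n).Finite := (Set.finite_Iic n).inter_of_right A
  set Af : Finset ℕ := hfin.toFinset with hAf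
  have hAf1 : ∀ a, a ∈ Af ↔ a ∈ A ∧ a ≤ n := by
    intro a
    rw [hAf, Set.Finite.mem_toFinset]
    rfl
  set Pr : Finset ℕ := (range (y + 1)).filter Nat.Prime with hPr
  let bad : ℕ → Finset ℕ := fun p => Af.filter (fun a => ∃ b ∈ B, p ∣ a + b)
  refine ⟨Af.filter (fun a => ∀ p : ℕ, p.Prime → p ≤ y → ∀ b ∈ B, ¬ p ∣ a + b), ?_, ?_⟩
  · intro a ha
    obtain ⟨h1, h2⟩ := Finset.mem_filter.1 ha
    exact ⟨((hAf1 a).1 h1).1, ((hAf1 a).1 h1).2, h2⟩
  · rw [Set.ncard_eq_toFinset_card _ hfin, ← hAf]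
    have hsub : Af ⊆ Af.filter (fun a => ∀ p : ℕ, p.Prime → p ≤ y → ∀ b ∈ B, ¬ p ∣ a + b) ∪
        Pr.biUnion bad := by
      intro a ha
      by_cases h1 : ∀ p : ℕ, p.Prime → p ≤ y → ∀ b ∈ B, ¬ p ∣ a + b
      · exact Finset.mem_union_left _ (Finset.mem_filter.2 ⟨ha, h1⟩)
      · push Not at h1
        obtain ⟨p, hp, hpy, b, hb, hdvd⟩ := h1
        refine Finset.mem_union_right _ (Finset.mem_biUnion.2 ⟨p, ?_, ?_⟩)
        · exact Finset.mem_filter.2 ⟨Finset.mem_range.2 (by omega), hp⟩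
        · exact Finset.mem_filter.2 ⟨ha, b, hb, hdvd⟩
    have h1 := (Finset.card_le_card hsub).trans (Finset.card_union_le _ _)
    have h2 : (Pr.biUnion bad).card ≤ (y + 1) ^ 2 := by
      calc (Pr.biUnion bad).card ≤ ∑ p ∈ Pr, (bad p).card := Finset.card_biUnion_le
        _ ≤ ∑ _p ∈ Pr, (y + 1) := by
            apply Finset.sum_le_sum
            intro p hp
            obtain ⟨hp1, hp2⟩ := Finset.mem_filter.1 hp
            have h3 : (bad p).card ≤ p := by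
              apply one_sum h p hp2
              intro a ha
              obtain ⟨h4, h5⟩ := Finset.mem_filter.1 ha
              exact ⟨((hAf1 a).1 h4).1, h5⟩
            have h4 := Finset.mem_range.1 hp1
            omega
        _ = Pr.card * (y + 1) := by rw [Finset.sum_const, smul_eq_mul]
        _ ≤ (y + 1) * (y + 1) := by
            apply Nat.mul_le_mul_right
            exact (Finset.card_filter_le _ _).trans (by rw [Finset.card_range])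
        _ = (y + 1) ^ 2 := by ring
    omega

/-- the negative classes -/
theorem neg_classes (Bf : Finset ℕ) (p : ℕ) (hp : 0 < p) :
    (Bf.image (fun b => (p - b % p) % p)).card = (Bf.image (fun b => b % p)).card := by
  have h1 : Bf.image (fun b => (p - b % p) % p) =
      (Bf.image (fun b => b % p)).image (fun x => (p - x) % p) := by
    rw [Finset.image_image]
    rfl
  rw [h1]
  apply Finset.card_image_of_injOn
  intro x hx x' hx' hxx
  obtain ⟨b, _, rfl⟩ := Finset.mem_image.1 (Finset.mem_coe.1 hx)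
  obtain ⟨b', _, rfl⟩ := Finset.mem_image.1 (Finset.mem_coe.1 hx')
  simp only at hxx ⊢
  have hb : b % p < p := Nat.mod_lt _ hp
  have hb' : b' % p < p := Nat.mod_lt _ hp
  rcases Nat.eq_zero_or_pos (b % p) with h0 | h0
  · rcases Nat.eq_zero_or_pos (b' % p) with h0' | h0'
    · rw [h0, h0']
    · exfalso
      rw [h0, Nat.sub_zero, Nat.mod_self, Nat.mod_eq_of_lt (show p - b' % p < p by omega)] at hxx
      omega
  · rcases Nat.eq_zero_or_pos (b' % p) with h0' | h0'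
    · exfalso
      rw [h0', Nat.sub_zero, Nat.mod_self, Nat.mod_eq_of_lt (show p - b % p < p by omega)] at hxx
      omega
    · rw [Nat.mod_eq_of_lt (show p - b % p < p by omega),
        Nat.mod_eq_of_lt (show p - b' % p < p by omega)] at hxx
      omega

theorem neg_class_dvd (a b p : ℕ) (hp : 0 < p) (h : a % p = (p - b % p) % p) : p ∣ a + b := by
  have hb : b % p < p := Nat.mod_lt _ hp
  apply Nat.dvd_of_mod_eq_zero
  rw [Nat.add_mod, h]
  rcases Nat.eq_zero_or_pos (b % p) with h0 | h0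
  · rw [h0, Nat.sub_zero, Nat.mod_self]
    simp
  · rw [Nat.mod_eq_of_lt (show p - b % p < p by omega),
      show p - b % p + b % p = p by omega, Nat.mod_self]

/-- the estimate for fixed parameters -/
theorem half_core (θ : ℝ) (hθ : 0 < θ) (hθ' : θ < 1 / 2) (y₀ : ℕ)
    (hy₀ : ∀ (y n : ℕ) (B : Finset ℕ),
      y₀ ≤ y → 1 ≤ n → 8 * Real.log n ≤ (y : ℝ) ^ θ → (∀ b ∈ B, b ≤ n) → y < B.card →
      (y : ℝ) / (4 * Real.log y) ≤
        (((range (y + 1)).filter (fun p : ℕ => p.Prime ∧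
          (p : ℝ) ^ (1 - θ) ≤ ((B.image (fun b => b % p)).card : ℝ))).card : ℝ))
    (C : ℝ) (hC : ∀ (N : ℕ) (A P : Finset ℕ) (Ω : ℕ → Finset ℕ) (Qs : Finset (Finset ℕ)), 1 ≤ N →
      (∀ a ∈ A, a ≤ N) → (∀ p ∈ P, p.Prime) →
      (∀ p ∈ P, Ω p ⊆ range p ∧ (Ω p).card < p ∧ (Ω p).Nonempty) →
      (∀ a ∈ A, ∀ p ∈ P, a % p ∉ Ω p) →
      (∀ e ∈ Qs, e ⊆ P ∧ ((∏ p ∈ e, p : ℕ) : ℝ) ≤ (N : ℝ) ^ (1 / 2 - θ)) →
      (A.card : ℝ) * ∑ e ∈ Qs, ∏ p ∈ e, (((Ω p).card : ℝ) / ((p : ℝ) - (Ω p).card)) ≤ C * N)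
    (hC0 : 0 < C) {A B : Set ℕ} (h : Admissible A B) (n y m : ℕ) (hn : 2 ≤ n) (hy0 : y₀ ≤ y)
    (hy1 : 2 ≤ y) (hlog : 8 * Real.log n ≤ (y : ℝ) ^ θ) (hB : y < (B ∩ Set.Iic n).ncard)
    (hm1 : 1 ≤ m) (hm2 : (m : ℝ) * Real.log y ≤ (1 / 2 - θ) * Real.log n)
    (hm3 : (1 / 2 - θ) * Real.log n ≤ ((m : ℝ) + 1) * Real.log y) :
    ((A ∩ Set.Iic n).ncard : ℝ) ≤ ((y : ℝ) + 1) ^ 2 + C * y * (n : ℝ) ^ (1 / 2 + 2 * θ) := by
  classical
  obtain ⟨A', hA', hcard⟩ := clean h n y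
  have hcard' : ((A ∩ Set.Iic n).ncard : ℝ) ≤ A'.card + ((y : ℝ) + 1) ^ 2 := by
    exact_mod_cast hcard
  have hyr : (2 : ℝ) ≤ y := by exact_mod_cast hy1
  have hy0r : (0 : ℝ) < y := by linarith
  have hnr : (2 : ℝ) ≤ n := by exact_mod_cast hn
  have hn0 : (0 : ℝ) < n := by linarith
  have hlogy : 0 < Real.log y := Real.log_pos (by linarith)
  have hlogn : 0 < Real.log n := Real.log_pos (by linarith)
  suffices hmain : (A'.card : ℝ) ≤ C * y * (n : ℝ) ^ (1 / 2 + 2 * θ) by linarith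
  rcases A'.eq_empty_or_nonempty with hemp | hne
  · rw [hemp, Finset.card_empty, Nat.cast_zero]
    positivity
  obtain ⟨a₀, ha₀⟩ := hne
  have hfin : (B ∩ Set.Iic n).Finite := (Set.finite_Iic n).inter_of_right B
  set Bf : Finset ℕ := hfin.toFinset with hBf
  have hBf1 : ∀ b ∈ Bf, b ∈ B ∧ b ≤ n := by
    intro b hb
    rw [hBf, Set.Finite.mem_toFinset] at hb
    exact hb
  have hBc : y < Bf.card := by
    rw [Set.ncard_eq_toFinset_card _ hfin] at hB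
    exact hB
  have hBne : Bf.Nonempty := Finset.card_pos.1 (by omega)
  have hgood := hy₀ y n Bf hy0 (by omega) hlog (fun b hb => (hBf1 b hb).2) hBc
  set G : Finset ℕ := (range (y + 1)).filter (fun p : ℕ => p.Prime ∧
          (p : ℝ) ^ (1 - θ) ≤ ((Bf.image (fun b => b % p)).card : ℝ)) with hG
  have hG1 : ∀ p ∈ G, p.Prime ∧ p ≤ y ∧
      (p : ℝ) ^ (1 - θ) ≤ ((Bf.image (fun b => b % p)).card : ℝ) := by
    intro p hp
    obtain ⟨h1, h2, h3⟩ := Finset.mem_filter.1 hp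
    exact ⟨h2, by have := Finset.mem_range.1 h1; omega, h3⟩
  let Ω : ℕ → Finset ℕ := fun p => Bf.image (fun b => (p - b % p) % p)
  have hΩa : ∀ a ∈ A', ∀ p ∈ G, a % p ∉ Ω p := by
    intro a ha p hp hmem
    obtain ⟨b, hb, hab⟩ := Finset.mem_image.1 hmem
    obtain ⟨hpp, hpy, _⟩ := hG1 p hp
    exact (hA' a ha).2.2 p hpp hpy b (hBf1 b hb).1 (neg_class_dvd a b p hpp.pos hab.symm)
  have hΩsub : ∀ p ∈ G, Ω p ⊆ range p := by
    intro p hp x hx
    obtain ⟨b, _, rfl⟩ := Finset.mem_image.1 hx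
    exact Finset.mem_range.2 (Nat.mod_lt _ (hG1 p hp).1.pos)
  have hΩ : ∀ p ∈ G, Ω p ⊆ range p ∧ (Ω p).card < p ∧ (Ω p).Nonempty := by
    intro p hp
    refine ⟨hΩsub p hp, ?_, hBne.image _⟩
    have h1 : Ω p ⊆ (range p).erase (a₀ % p) := by
      intro x hx
      refine Finset.mem_erase.2 ⟨?_, hΩsub p hp hx⟩
      intro hxa
      rw [hxa] at hx
      exact hΩa a₀ ha₀ p hp hx
    have h2 := Finset.card_le_card h1
    have h3 : a₀ % p ∈ range p := Finset.mem_range.2 (Nat.mod_lt _ (hG1 p hp).1.pos)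
    rw [Finset.card_erase_of_mem h3, Finset.card_range] at h2
    have := (hG1 p hp).1.pos
    omega
  have hcardΩ : ∀ p ∈ G, ((Ω p).card : ℝ) = ((Bf.image (fun b => b % p)).card : ℝ) := by
    intro p hp
    have := neg_classes Bf p (hG1 p hp).1.pos
    exact_mod_cast this
  -- number of good primes
  have hmcard : (m : ℝ) * (y : ℝ) ^ (1 - θ) ≤ G.card := by
    refine le_trans ?_ hgood
    rw [le_div_iff₀ (by positivity)]
    have h1 : (y : ℝ) ^ (1 - θ) * (y : ℝ) ^ θ = y := by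
      rw [← Real.rpow_add hy0r]
      simp
    have h2 : (m : ℝ) * (4 * Real.log y) ≤ (y : ℝ) ^ θ := by
      have h3 : (1 / 2 - θ) * Real.log n ≤ 1 * Real.log n :=
        mul_le_mul_of_nonneg_right (by linarith) hlogn.le
      nlinarith
    have h3 : 0 < (y : ℝ) ^ (1 - θ) := Real.rpow_pos_of_pos hy0r _
    calc (m : ℝ) * (y : ℝ) ^ (1 - θ) * (4 * Real.log y)
        = (y : ℝ) ^ (1 - θ) * ((m : ℝ) * (4 * Real.log y)) := by ring
      _ ≤ (y : ℝ) ^ (1 - θ) * (y : ℝ) ^ θ := mul_le_mul_of_nonneg_left h2 h3.le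
      _ = y := h1
  have hlow := esum_lower G (fun p => ((Ω p).card : ℝ)) y m θ hθ (by omega) hm1
    (fun p hp => ⟨(hG1 p hp).1.pos, (hG1 p hp).2.1⟩)
    (fun p hp => ⟨by
        show (p : ℝ) ^ (1 - θ) ≤ ((Ω p).card : ℝ)
        rw [hcardΩ p hp]; exact (hG1 p hp).2.2, by exact_mod_cast (hΩ p hp).2.1⟩)
    hmcard (by linarith)
  -- size of the products
  have hQs : ∀ e ∈ G.powersetCard m, e ⊆ G ∧
      ((∏ p ∈ e, p : ℕ) : ℝ) ≤ (n : ℝ) ^ (1 / 2 - θ) := by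
    intro e he
    obtain ⟨he1, he2⟩ := Finset.mem_powersetCard.1 he
    refine ⟨he1, ?_⟩
    have h1 : (∏ p ∈ e, p) ≤ y ^ m := by
      rw [← he2]
      exact Finset.prod_le_pow_card _ _ _ (fun p hp => (hG1 p (he1 hp)).2.1)
    have h2 : ((∏ p ∈ e, p : ℕ) : ℝ) ≤ (y : ℝ) ^ m := by exact_mod_cast h1
    refine h2.trans ?_
    rw [← Real.rpow_natCast, Real.rpow_def_of_pos hy0r, Real.rpow_def_of_pos hn0]
    apply Real.exp_le_exp.2
    linarith
  have hls := hC n A' G Ω (G.powersetCard m) (by omega) (fun a ha => (hA' a ha).2.1)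
    (fun p hp => (hG1 p hp).1) hΩ hΩa hQs
  -- lower bound of the sum
  have hsum : (n : ℝ) ^ (1 / 2 - 2 * θ) / y ≤ (y : ℝ) ^ ((1 - 2 * θ) * m) := by
    rw [div_le_iff₀ hy0r]
    have h1 : (y : ℝ) ^ ((1 - 2 * θ) * m) * y = (y : ℝ) ^ ((1 - 2 * θ) * m + 1) := by
      rw [Real.rpow_add hy0r, Real.rpow_one]
    rw [h1, Real.rpow_def_of_pos hn0, Real.rpow_def_of_pos hy0r]
    apply Real.exp_le_exp.2
    have h2 : 0 ≤ 1 - 2 * θ := by linarith
    have h3 := mul_le_mul_of_nonneg_left hm3 h2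
    nlinarith [mul_pos hθ hlogn, mul_pos hθ hlogy, mul_pos (mul_pos hθ hθ) hlogn]
  have hS : (n : ℝ) ^ (1 / 2 - 2 * θ) / y ≤
      ∑ e ∈ G.powersetCard m, ∏ p ∈ e, (((Ω p).card : ℝ) / ((p : ℝ) - (Ω p).card)) :=
    hsum.trans hlow
  have h1 : (A'.card : ℝ) * ((n : ℝ) ^ (1 / 2 - 2 * θ) / y) ≤ C * n :=
    (mul_le_mul_of_nonneg_left hS (Nat.cast_nonneg _)).trans hls
  have h2 : 0 < (n : ℝ) ^ (1 / 2 - 2 * θ) := Real.rpow_pos_of_pos hn0 _
  have h3 : (n : ℝ) ^ (1 / 2 + 2 * θ) * (n : ℝ) ^ (1 / 2 - 2 * θ) = n := by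
    rw [← Real.rpow_add hn0]
    ring_nf
    simp
  rw [← mul_div_assoc, div_le_iff₀ hy0r] at h1
  have h4 : (A'.card : ℝ) * (n : ℝ) ^ (1 / 2 - 2 * θ) ≤
      (C * y * (n : ℝ) ^ (1 / 2 + 2 * θ)) * (n : ℝ) ^ (1 / 2 - 2 * θ) := by
    calc (A'.card : ℝ) * (n : ℝ) ^ (1 / 2 - 2 * θ) ≤ C * n * y := h1
      _ = C * y * ((n : ℝ) ^ (1 / 2 + 2 * θ) * (n : ℝ) ^ (1 / 2 - 2 * θ)) := by
          rw [h3]; ring
      _ = _ := by ring
  exact le_of_mul_le_mul_right h4 h2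

theorem log_pow_small (c : ℕ) (r δ : ℝ) (hr : 0 < r) (hδ : 0 < δ) :
    ∀ᶠ n : ℕ in atTop, Real.log n ^ c ≤ δ * (n : ℝ) ^ r := by
  have h1 := (isLittleO_log_rpow_rpow_atTop (c : ℝ) hr).bound hδ
  have h2 := (tendsto_natCast_atTop_atTop (R := ℝ)).eventually h1
  filter_upwards [h2, eventually_ge_atTop 1] with n hn hn1
  rw [Real.rpow_natCast, Real.norm_eq_abs, Real.norm_eq_abs] at hn
  have h3 : (1 : ℝ) ≤ n := by exact_mod_cast hn1
  have h4 : 0 ≤ (n : ℝ) ^ r := by positivity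
  rw [abs_of_nonneg h4] at hn
  exact (le_abs_self _).trans hn

theorem half_bound {A B : Set ℕ} (h : Admissible A B) (ε : ℝ) (hε : 0 < ε) :
    ∃ c : ℕ, ∀ᶠ n : ℕ in atTop, Real.log n ^ c < ((B ∩ Set.Iic n).ncard : ℝ) →
      ((A ∩ Set.Iic n).ncard : ℝ) ≤ (n : ℝ) ^ (1 / 2 + ε) := by
  set θ : ℝ := min (ε / 8) (1 / 8) with hθdef
  have hθ : 0 < θ := lt_min (by linarith) (by norm_num)
  have hθ1 : θ ≤ 1 / 8 := min_le_right _ _
  have hθ2 : θ ≤ ε / 8 := min_le_left _ _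
  obtain ⟨y₀, hy₀⟩ := many_classes θ hθ (by linarith)
  obtain ⟨C, hC0, hC⟩ := smooth_ls θ hθ (by linarith)
  set c : ℕ := ⌈2 / θ⌉₊ with hc
  have hcθ : 2 ≤ (c : ℝ) * θ := by
    have h1 : 2 / θ ≤ c := Nat.le_ceil _
    rw [div_le_iff₀ hθ] at h1
    exact h1
  have hc1 : 1 ≤ c := by
    by_contra hcon
    have h1 : c = 0 := by omega
    rw [h1] at hcθ
    norm_num at hcθ
  refine ⟨c, ?_⟩
  have hlogtop : Tendsto (fun n : ℕ => Real.log (n : ℝ)) atTop atTop :=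
    Real.tendsto_log_atTop.comp tendsto_natCast_atTop_atTop
  have e1 := hlogtop.eventually_ge_atTop (16 + (y₀ : ℝ) + 4)
  have e2 := log_pow_small (2 * c) (1 / 2) (1 / 8) (by norm_num) (by norm_num)
  have e3 := log_pow_small c θ (1 / (2 * C)) hθ (by positivity)
  have e4 : ∀ᶠ n : ℕ in atTop, (c : ℝ) * Real.log (Real.log n) ≤ 1 / 4 * Real.log n := by
    have h1 : (fun x : ℝ => Real.log x) =o[atTop] id := Real.isLittleO_log_id_atTop
    have h2 := h1.bound (show (0 : ℝ) < 1 / (4 * (c : ℝ)) by positivity)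
    have h3 := hlogtop.eventually h2
    filter_upwards [h3, hlogtop.eventually_ge_atTop 1] with n hn hn1
    rw [Real.norm_eq_abs, Real.norm_eq_abs, id, abs_of_nonneg (by linarith : 0 ≤ Real.log (n : ℝ)),
      abs_of_nonneg (Real.log_nonneg hn1)] at hn
    have hc0 : (0 : ℝ) < c := by exact_mod_cast hc1
    calc (c : ℝ) * Real.log (Real.log n) ≤ c * (1 / (4 * (c : ℝ)) * Real.log n) :=
          mul_le_mul_of_nonneg_left hn hc0.le
      _ = 1 / 4 * Real.log n := by field_simp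
  filter_upwards [e1, e2, e3, e4, eventually_ge_atTop 2] with n h1 h2 h3 h4 hn hB
  set l : ℝ := Real.log (n : ℝ) with hl
  have hy₀0 : (0 : ℝ) ≤ y₀ := Nat.cast_nonneg _
  have hl1 : (16 : ℝ) ≤ l := by linarith
  have hl0 : (0 : ℝ) < l := by linarith
  have hlc : l ≤ l ^ c := by
    calc l = l ^ 1 := (pow_one l).symm
      _ ≤ l ^ c := pow_le_pow_right₀ (by linarith) hc1
  set y : ℕ := ⌊l ^ c⌋₊ with hy
  have hyle : (y : ℝ) ≤ l ^ c := Nat.floor_le (by positivity)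
  have hygt : l ^ c < (y : ℝ) + 1 := Nat.lt_floor_add_one _
  have hyhalf : l ^ c / 2 ≤ y := by linarith
  have hy2 : 2 ≤ y := by
    have : (2 : ℝ) ≤ y := by linarith
    exact_mod_cast this
  have hyy0 : y₀ ≤ y := by
    have : (y₀ : ℝ) ≤ y := by linarith
    exact_mod_cast this
  have hyr : (2 : ℝ) ≤ y := by exact_mod_cast hy2
  have hlogy : 0 < Real.log y := Real.log_pos (by linarith)
  have hlog : 8 * l ≤ (y : ℝ) ^ θ := by
    have h5 : (l ^ c / 2) ^ θ ≤ (y : ℝ) ^ θ :=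
      Real.rpow_le_rpow (by positivity) hyhalf hθ.le
    have h6 : l ^ 2 / 2 ≤ (l ^ c / 2) ^ θ := by
      rw [Real.div_rpow (by positivity) (by norm_num), ← Real.rpow_natCast l c,
        ← Real.rpow_mul hl0.le, ← Real.rpow_natCast l 2]
      apply div_le_div₀ (by positivity)
      · apply Real.rpow_le_rpow_of_exponent_le (by linarith)
        push_cast
        exact hcθ
      · positivity
      · calc (2 : ℝ) ^ θ ≤ 2 ^ (1 : ℝ) :=
              Real.rpow_le_rpow_of_exponent_le (by norm_num) (by linarith)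
          _ = 2 := Real.rpow_one 2
    nlinarith
  have hBy : y < (B ∩ Set.Iic n).ncard := by
    have : (y : ℝ) < ((B ∩ Set.Iic n).ncard : ℝ) := lt_of_le_of_lt hyle hB
    exact_mod_cast this
  have hlogyle : Real.log y ≤ 1 / 4 * l := by
    have h5 : Real.log y ≤ Real.log (l ^ c) := Real.log_le_log (by linarith) hyle
    rw [Real.log_pow] at h5
    linarith
  set m : ℕ := ⌊(1 / 2 - θ) * l / Real.log y⌋₊ with hm
  have hq0 : 0 ≤ (1 / 2 - θ) * l / Real.log y := by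
    have : 0 ≤ 1 / 2 - θ := by linarith
    positivity
  have hmle : (m : ℝ) ≤ (1 / 2 - θ) * l / Real.log y := Nat.floor_le hq0
  have hmgt : (1 / 2 - θ) * l / Real.log y < (m : ℝ) + 1 := Nat.lt_floor_add_one _
  have hm1 : 1 ≤ m := by
    apply Nat.le_floor
    rw [Nat.cast_one, one_le_div hlogy]
    nlinarith
  have hm2 : (m : ℝ) * Real.log y ≤ (1 / 2 - θ) * l := by
    rwa [le_div_iff₀ hlogy] at hmle
  have hm3 : (1 / 2 - θ) * l ≤ ((m : ℝ) + 1) * Real.log y := by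
    rw [div_lt_iff₀ hlogy] at hmgt
    exact hmgt.le
  have hcore := half_core θ hθ (by linarith) y₀ hy₀ C hC hC0 h n y m hn hyy0 hy2 hlog hBy hm1
    hm2 hm3
  refine hcore.trans ?_
  have hnr : (2 : ℝ) ≤ n := by exact_mod_cast hn
  have hn0 : (0 : ℝ) < n := by linarith
  have h5 : ((y : ℝ) + 1) ^ 2 ≤ 1 / 2 * (n : ℝ) ^ (1 / 2 + ε) := by
    have h6 : ((y : ℝ) + 1) ^ 2 ≤ 4 * l ^ (2 * c) := by
      have h7 : (y : ℝ) + 1 ≤ 2 * l ^ c := by linarith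
      calc ((y : ℝ) + 1) ^ 2 ≤ (2 * l ^ c) ^ 2 := pow_le_pow_left₀ (by linarith) h7 2
        _ = 4 * l ^ (2 * c) := by rw [mul_pow, ← pow_mul, mul_comm c 2]; norm_num
    have h8 : (n : ℝ) ^ (1 / 2 : ℝ) ≤ (n : ℝ) ^ (1 / 2 + ε) :=
      Real.rpow_le_rpow_of_exponent_le (by linarith) (by linarith)
    linarith
  have h6 : C * y * (n : ℝ) ^ (1 / 2 + 2 * θ) ≤ 1 / 2 * (n : ℝ) ^ (1 / 2 + ε) := by
    have h7 : C * y ≤ 1 / 2 * (n : ℝ) ^ θ := by
      calc C * y ≤ C * l ^ c := mul_le_mul_of_nonneg_left hyle hC0.le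
        _ ≤ C * (1 / (2 * C) * (n : ℝ) ^ θ) := mul_le_mul_of_nonneg_left h3 hC0.le
        _ = 1 / 2 * (n : ℝ) ^ θ := by field_simp
    calc C * y * (n : ℝ) ^ (1 / 2 + 2 * θ)
        ≤ 1 / 2 * (n : ℝ) ^ θ * (n : ℝ) ^ (1 / 2 + 2 * θ) :=
          mul_le_mul_of_nonneg_right h7 (by positivity)
      _ = 1 / 2 * (n : ℝ) ^ (θ + (1 / 2 + 2 * θ)) := by rw [mul_assoc, ← Real.rpow_add hn0]
      _ ≤ 1 / 2 * (n : ℝ) ^ (1 / 2 + ε) := by
          apply mul_le_mul_of_nonneg_left _ (by norm_num)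
          exact Real.rpow_le_rpow_of_exponent_le (by linarith) (by linarith)
  linarith

end Pool.Agent.MT
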