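import Pool.Agent.MT.MomErr

set_option autoImplicit false

/-!
# MT / Mom2: one prime, two primes

`mom_two`: `mom_err` with `t = cc`, `b = bb` (`cc_bounds`, `mk_level`, `par_poly`), `ineq_two`
(with `par_sums` for the variance condition), `ineq_three`; `psi0 ≥ N/10`, `1 ≤ GG, UU`; the error
`N/(log N)^B` is at most `1/32` of `psi0/φ(W)`.

`mom_three`: on the integers `a` with `η(a/N) ≠ 0` and `a + sh m`, `a + sh m'` prime the configuration
`YY a` avoids `m, m'` (the primes are `> N/8`), so `comb bb cc = comb qq t` with `t` from `ineq_four`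
(`z = log N / 200`); drop the condition on `m'`; `mom_err` with `b = qq`,
`|t| ≤ 2 (log N)^C (log N)^{2C}`, level by `mk_level`; the error is at most
`psi0/φ(W)/PH(z)` because `PH(z) ≤ log N` (`par_sums`).
-/

namespace Pool.Agent.MT

open Finset Filter

variable {κ : Type} [Fintype κ] [DecidableEq κ]

theorem m2_log_large (A : ℝ) : ∀ᶠ m : ℕ in atTop, A ≤ Real.log m :=
  (Real.tendsto_log_atTop.comp tendsto_natCast_atTop_atTop).eventually_ge_atTop A

theorem m2_wtf_sum (η : ℝ → ℝ) (P : Par) (sh cell : κ → ℕ) (L w v p₁ N : ℕ) (m : κ) :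
    ∑ a ∈ (range (N + 1)).filter (fun a => (a + sh m).Prime),
      wtf η P sh cell L w v p₁ N a * Real.log ((a + sh m : ℕ) : ℝ) =
    ∑ a ∈ (range (N + 1)).filter (fun a => a % primorial w = v % primorial w ∧
          (a + sh m).Prime), η ((a : ℝ) / N) * Real.log ((a + sh m : ℕ) : ℝ) *
          comb (mkSD P cell L w p₁ N).bb (mkSD P cell L w p₁ N).cc
            (YY (mkSD P cell L w p₁ N).pr sh a) ^ 2 := by
  rw [sum_filter, sum_filter]
  refine sum_congr rfl fun a _ => ?_
  unfold wtf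
  by_cases h1 : (a + sh m).Prime
  · by_cases h2 : a % primorial w = v % primorial w
    · rw [if_pos h1, if_pos h2, if_pos ⟨h2, h1⟩]
      ring
    · rw [if_pos h1, if_neg h2, if_neg (fun h => h2 h.1), zero_mul]
  · rw [if_neg h1, if_neg (fun h => h1 h.2)]

theorem m2_lev (P : Par) (cell : κ → ℕ) (L w p₁ N : ℕ) (hcell : ∀ h, cell h < L)
    (σ : sieveP w (XX N) p₁ → Option κ) (h : (mkSD P cell L w p₁ N).Lev σ) :
    ∑ h, (mkSD P cell L w p₁ N).uu (part σ h) ≤
      ∑ l ∈ range L, (mkSD P cell L w p₁ N).ρ l := by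
  rw [← sum_fiberwise_of_maps_to (s := (univ : Finset κ)) (t := range L) (g := cell)
    (fun h _ => mem_range.2 (hcell h))]
  exact sum_le_sum fun l hl => h l (mem_range.1 hl)

theorem mom_two (η : ℝ → ℝ) (hη : IsWt η) (P : Par) (sh cell : κ → ℕ) (L w v : ℕ)
    (hS : Std P sh cell L w v) : ∃ A : ℕ, ∀ᶠ N : ℕ in atTop, ∀ p₁ : ℕ,
    ErrOK η A (3 * Fintype.card κ + 1) w N p₁ → ∀ m : κ,
    1 / 32 * (psi0 η N / ((primorial w).totient : ℝ)) * (mkSD P cell L w p₁ N).GG (cell m) ^ 2 *
        ∏ h ∈ univ.erase m, (mkSD P cell L w p₁ N).UU (cell h) ≤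
      ∑ a ∈ (range (N + 1)).filter (fun a => (a + sh m).Prime),
        wtf η P sh cell L w v p₁ N a * Real.log ((a + sh m : ℕ) : ℝ) ∧
    ∑ a ∈ (range (N + 1)).filter (fun a => (a + sh m).Prime),
        wtf η P sh cell L w v p₁ N a * Real.log ((a + sh m : ℕ) : ℝ) ≤
      9 * (psi0 η N / ((primorial w).totient : ℝ)) * (mkSD P cell L w p₁ N).GG (cell m) ^ 2 *
        ∏ h ∈ univ.erase m, (mkSD P cell L w p₁ N).UU (cell h) := by
  obtain ⟨C, hC⟩ := par_poly (κ := κ) P cell L w hS.cell_lt hS.w_ge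
  obtain ⟨A, hA⟩ := mom_err η hη P sh cell L w v hS (C + 1)
  refine ⟨A, ?_⟩
  have hφ0 : 0 < (primorial w).totient := Nat.totient_pos.mpr (primorial_pos w)
  have hφ : (0 : ℝ) < (primorial w).totient := by exact_mod_cast hφ0
  filter_upwards [hC, hA, par_sums (κ := κ) P cell L w hS.cell_lt (fun l hl => (hS.card_le l hl).le) hS.w_ge,
    mk_level (κ := κ) P L w, psi0_lower η hη, m2_log_large 1,
    m2_log_large (320 * ((primorial w).totient : ℝ)), eventually_ge_atTop 2] with
    N hpoly herr hsums hlevel hpsi hlog1 hlog2 hN2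
  intro p₁ hp₁ m
  set D := mkSD P cell L w p₁ N with hD
  have hok : D.Ok := mk_ok P cell L w p₁ N hS.cell_lt hS.w_ge hN2
  have hN0 : (0 : ℝ) < N := by exact_mod_cast (by omega : 0 < N)
  rw [m2_wtf_sum]
  have hmain := herr p₁ hp₁ m D.bb D.cc (Or.inl rfl) (fun σ => by
    refine ((cc_bounds D hok σ).1.trans (hpoly p₁).1).trans ?_
    exact pow_le_pow_right₀ hlog1 (by omega)) (fun σ hσ => by
    apply hlevel cell p₁ σ
    have h1 := m2_lev P cell L w p₁ N hS.cell_lt σ ((cc_bounds D hok σ).2.1 hσ)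
    have h2 : 0 ≤ Real.log N / 200 := by linarith
    linarith)
  have hlow := ineq_two D hok m ((hsums p₁).2.1 m)
  have hup := ineq_three D hok m
  have hGG : 1 ≤ D.GG (cell m) := (one_le_GG D hok (cell m)).1
  have hUU : 1 ≤ ∏ h ∈ univ.erase m, D.UU (cell h) := by
    have h1 := prod_le_prod (s := univ.erase m) (f := fun _ => (1 : ℝ))
      (g := fun h => D.UU (cell h)) (fun _ _ => zero_le_one)
      (fun h _ => (one_le_GG D hok (cell h)).2)
    rwa [prod_const_one] at h1
  set T := D.GG (cell m) ^ 2 * ∏ h ∈ univ.erase m, D.UU (cell h) with hT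
  have hT1 : 1 ≤ T := by
    have h1 : 1 ≤ D.GG (cell m) ^ 2 := one_le_pow₀ hGG
    nlinarith
  set Ps := psi0 η N / ((primorial w).totient : ℝ) with hPs
  have hPs1 : N / (10 * ((primorial w).totient : ℝ)) ≤ Ps := by
    rw [hPs, div_le_div_iff₀ (by positivity) hφ]
    nlinarith
  have herr2 : (N : ℝ) / Real.log N ^ (C + 1) ≤ 1 / 32 * Ps := by
    have h1 : 320 * ((primorial w).totient : ℝ) ≤ Real.log N ^ (C + 1) := by
      refine hlog2.trans ?_
      calc Real.log N = Real.log N ^ 1 := (pow_one _).symm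
        _ ≤ _ := pow_le_pow_right₀ hlog1 (by omega)
    have h2 : (N : ℝ) / Real.log N ^ (C + 1) ≤ N / (320 * ((primorial w).totient : ℝ)) :=
      div_le_div_of_nonneg_left hN0.le (by positivity) h1
    have h3 : (N : ℝ) / (320 * ((primorial w).totient : ℝ)) =
        1 / 32 * (N / (10 * ((primorial w).totient : ℝ))) := by
      field_simp
      norm_num
    rw [h3] at h2
    linarith
  have hPs0 : 0 ≤ Ps := le_trans (by positivity) hPs1
  set S := ∑ a ∈ (range (N + 1)).filter (fun a => a % primorial w = v % primorial w ∧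
          (a + sh m).Prime), η ((a : ℝ) / N) * Real.log ((a + sh m : ℕ) : ℝ) *
          comb D.bb D.cc (YY D.pr sh a) ^ 2 with hSdef
  set X := EE (univ.erase m) D.qq (fun Z => comb D.bb D.cc Z ^ 2) with hX
  have hlow' : 1 / 16 * T ≤ X := by
    refine le_trans (le_of_eq ?_) hlow
    rw [hT]
    ring_nf
    rfl
  have hup' : X ≤ 8 * T := by
    refine le_trans hup (le_of_eq ?_)
    rw [hT]
    ring_nf
    rfl
  rw [abs_le] at hmain
  have h5 : Ps * (1 / 16 * T) ≤ Ps * X := mul_le_mul_of_nonneg_left hlow' hPs0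
  have h6 : Ps * X ≤ Ps * (8 * T) := mul_le_mul_of_nonneg_left hup' hPs0
  have h7 : Ps ≤ Ps * T := by nlinarith
  constructor
  · have h8 : 1 / 32 * Ps * D.GG (cell m) ^ 2 * ∏ h ∈ univ.erase m, D.UU (cell h) =
        1 / 32 * (Ps * T) := by
      rw [hT]
      ring
    rw [h8]
    linarith [hmain.1]
  · have h8 : 9 * Ps * D.GG (cell m) ^ 2 * ∏ h ∈ univ.erase m, D.UU (cell h) =
        9 * (Ps * T) := by
      rw [hT]
      ring
    rw [h8]
    linarith [hmain.2]

/-- if `a + sh m` is a prime and `a > N/8` then it is not a sieving prime -/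
theorem m2_avoid (P : Par) (sh cell : κ → ℕ) (L w v p₁ N : ℕ) (hS : Std P sh cell L w v)
    (a : ℕ) (ha : N < 8 * a) (m : κ) (hp : (a + sh m).Prime) (i : sieveP w (XX N) p₁)
    (hN : 1 ≤ N) : YY (mkSD P cell L w p₁ N).pr sh a i ≠ some m := by
  have hmem := i.2
  unfold sieveP at hmem
  rw [mem_filter, mem_range] at hmem
  obtain ⟨h1, h2, h3, h4⟩ := hmem
  have hlt : ∀ (i : sieveP w (XX N) p₁) h, sh h < (mkSD P cell L w p₁ N).pr i := by
    intro j h
    have hj := j.2
    unfold sieveP at hj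
    rw [mem_filter] at hj
    exact lt_trans (hS.sh_lt h) hj.2.2.1
  rw [Ne, YY_eq_some _ sh hS.sh_inj hlt]
  intro hdvd
  have h5 : (mkSD P cell L w p₁ N).pr i = (i : ℕ) := rfl
  rw [h5] at hdvd
  have h6 : (i : ℕ) = a + sh m := (Nat.prime_dvd_prime_iff_eq h2 hp).mp hdvd
  have hw : 202 ≤ w := by
    have := hS.w_ge
    have h7 : 25 ≤ (Fintype.card κ + 5) ^ 2 := by nlinarith [Nat.zero_le (Fintype.card κ)]
    omega
  have hX : 8 ≤ XX N := by omega
  have h8 : 8 * XX N ≤ N := by
    calc 8 * XX N ≤ XX N * XX N := Nat.mul_le_mul_right _ hX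
      _ = XX N ^ 2 := by ring
      _ ≤ XX N ^ 100 := Nat.pow_le_pow_right (by omega) (by norm_num)
      _ ≤ N := XX_facts.1 N hN
  omega

theorem mom_three (η : ℝ → ℝ) (hη : IsWt η) (P : Par) (sh cell : κ → ℕ) (L w v : ℕ)
    (hS : Std P sh cell L w v) : ∃ A : ℕ, ∀ᶠ N : ℕ in atTop, ∀ p₁ : ℕ,
    ErrOK η A (3 * Fintype.card κ + 1) w N p₁ → ∀ m m' : κ, m ≠ m' →
    ∑ a ∈ (range (N + 1)).filter (fun a => (a + sh m).Prime ∧ (a + sh m').Prime),
        wtf η P sh cell L w v p₁ N a * Real.log ((a + sh m : ℕ) : ℝ) ≤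
      9 * (psi0 η N / ((primorial w).totient : ℝ)) * (mkSD P cell L w p₁ N).GG (cell m) ^ 2 *
        (mkSD P cell L w p₁ N).GG (cell m') ^ 2 /
        (mkSD P cell L w p₁ N).PH (Real.log N / 200) *
        ∏ h ∈ (univ.erase m).erase m', (mkSD P cell L w p₁ N).UU (cell h) := by
  obtain ⟨C, hC⟩ := par_poly (κ := κ) P cell L w hS.cell_lt hS.w_ge
  obtain ⟨A, hA⟩ := mom_err η hη P sh cell L w v hS (3 * C + 2)
  refine ⟨A, ?_⟩
  have hφ0 : 0 < (primorial w).totient := Nat.totient_pos.mpr (primorial_pos w)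
  have hφ : (0 : ℝ) < (primorial w).totient := by exact_mod_cast hφ0
  filter_upwards [hC, hA,
    par_sums (κ := κ) P cell L w hS.cell_lt (fun l hl => (hS.card_le l hl).le) hS.w_ge,
    mk_level (κ := κ) P L w, psi0_lower η hη, m2_log_large 2,
    m2_log_large (10 * ((primorial w).totient : ℝ)), eventually_ge_atTop 2] with
    N hpoly herr hsums hlevel hpsi hlog1 hlog2 hN2
  intro p₁ hp₁ m m' hmm
  set D := mkSD P cell L w p₁ N with hD
  have hok : D.Ok := mk_ok P cell L w p₁ N hS.cell_lt hS.w_ge hN2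
  have hN0 : (0 : ℝ) < N := by exact_mod_cast (by omega : 0 < N)
  have hlog0 : 0 ≤ Real.log N / 200 := by linarith
  obtain ⟨t, ht1, ht2, ht3, ht4⟩ := ineq_four D hok m m' hmm (Real.log N / 200) hlog0
  have hGG : 1 ≤ D.GG (cell m) := (one_le_GG D hok (cell m)).1
  have hGG' : 1 ≤ D.GG (cell m') := (one_le_GG D hok (cell m')).1
  have hmain := herr p₁ hp₁ m D.qq t (Or.inr rfl) (fun σ => by
    refine (ht3 σ).trans ?_
    have h1 := (hpoly p₁).1
    have h2 := (hpoly p₁).2.2.2 (cell m)
    have h3 := (hpoly p₁).2.2.2 (cell m')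
    have h4 : 0 ≤ Real.log N ^ C := by positivity
    have h5 : 0 ≤ ∏ i, ((D.pr i : ℝ) / ((D.pr i : ℝ) - 1)) := prod_nonneg fun i _ => by
      have h6 : (14 : ℝ) ≤ D.pr i := by exact_mod_cast hok.pr_ge i
      exact div_nonneg (by linarith) (by linarith)
    calc 2 * (∏ i, ((D.pr i : ℝ) / ((D.pr i : ℝ) - 1))) * D.GG (D.cell m) * D.GG (D.cell m') ≤
          Real.log N * Real.log N ^ C * Real.log N ^ C * Real.log N ^ C := by
          apply mul_le_mul _ h3 (by linarith [hGG']) (by positivity)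
          apply mul_le_mul _ h2 (by linarith [hGG]) (by positivity)
          exact mul_le_mul hlog1 h1 h5 (by linarith)
      _ = Real.log N ^ (3 * C + 1) := by ring
      _ ≤ Real.log N ^ (3 * C + 2) := pow_le_pow_right₀ (by linarith) (by omega))
    (fun σ hσ => hlevel cell p₁ σ (ht2 σ hσ))
  have hUU : 1 ≤ ∏ h ∈ (univ.erase m).erase m', D.UU (cell h) := by
    have h1 := prod_le_prod (s := (univ.erase m).erase m') (f := fun _ => (1 : ℝ))
      (g := fun h => D.UU (cell h)) (fun _ _ => zero_le_one)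
      (fun h _ => (one_le_GG D hok (cell h)).2)
    rwa [prod_const_one] at h1
  have hPH0 : D.PH (Real.log N / 200) ≤ Real.log N := by
    have h1 := (hsums p₁).2.2.2
    have h2 : phW w ≤ 1 := by
      unfold phW
      rw [div_le_one (by exact_mod_cast primorial_pos w)]
      exact_mod_cast Nat.totient_le _
    have h3 : 2 * phW w * (Real.log N / 200) ≤ 2 * 1 * (Real.log N / 200) :=
      mul_le_mul_of_nonneg_right (mul_le_mul_of_nonneg_left h2 (by norm_num)) hlog0
    linarith
  have hPHpos : 0 < D.PH (Real.log N / 200) := by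
    have h1 := (hsums p₁).2.2.1
    have h2 : 0 < phW w := by
      unfold phW
      exact div_pos hφ (by exact_mod_cast primorial_pos w)
    have h3 : 0 < 1 / 2 * phW w * (Real.log N / 200) := by
      have : 0 < Real.log N / 200 := by linarith
      positivity
    exact lt_of_lt_of_le h3 h1
  set Ps := psi0 η N / ((primorial w).totient : ℝ) with hPs
  have hPs1 : N / (10 * ((primorial w).totient : ℝ)) ≤ Ps := by
    rw [hPs, div_le_div_iff₀ (by positivity) hφ]
    nlinarith
  have hPs0 : 0 ≤ Ps := le_trans (by positivity) hPs1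
  set T := D.GG (cell m) ^ 2 * D.GG (cell m') ^ 2 *
    ∏ h ∈ (univ.erase m).erase m', D.UU (cell h) with hT
  have hT1 : 1 ≤ T := by
    have h1 : 1 ≤ D.GG (cell m) ^ 2 := one_le_pow₀ hGG
    have h2 : 1 ≤ D.GG (cell m') ^ 2 := one_le_pow₀ hGG'
    have h3 : 1 ≤ D.GG (cell m) ^ 2 * D.GG (cell m') ^ 2 := by nlinarith
    nlinarith
  set X := EE (univ.erase m) D.qq (fun Z => comb D.qq t Z ^ 2) with hX
  set H := D.PH (Real.log N / 200) with hH
  have hX1 : X ≤ 8 * (T / H) := by
    refine le_trans ht4 (le_of_eq ?_)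
    rw [hT]
    have e1 : D.cell m = cell m := rfl
    have e2 : D.cell m' = cell m' := rfl
    have e3 : ∀ h, D.cell h = cell h := fun h => rfl
    simp only [e3]
    field_simp
  have herr2 : (N : ℝ) / Real.log N ^ (3 * C + 2) ≤ Ps * (T / H) := by
    have h1 : 10 * ((primorial w).totient : ℝ) * Real.log N ≤ Real.log N ^ (3 * C + 2) := by
      calc 10 * ((primorial w).totient : ℝ) * Real.log N ≤ Real.log N * Real.log N :=
            mul_le_mul_of_nonneg_right hlog2 (by linarith)
        _ = Real.log N ^ 2 := by ring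
        _ ≤ _ := pow_le_pow_right₀ (by linarith) (by omega)
    have h2 : (N : ℝ) / Real.log N ^ (3 * C + 2) ≤
        N / (10 * ((primorial w).totient : ℝ) * Real.log N) :=
      div_le_div_of_nonneg_left hN0.le (by positivity) h1
    have h3 : (N : ℝ) / (10 * ((primorial w).totient : ℝ) * Real.log N) =
        (N / (10 * ((primorial w).totient : ℝ))) * (1 / Real.log N) := by
      field_simp
    rw [h3] at h2
    refine h2.trans ?_
    have h4 : 1 / Real.log N ≤ T / H := by
      rw [div_le_div_iff₀ (by linarith) hPHpos]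
      nlinarith
    exact mul_le_mul hPs1 h4 (by positivity) hPs0
  have hPX : Ps * X ≤ Ps * (8 * (T / H)) := mul_le_mul_of_nonneg_left hX1 hPs0
  rw [abs_le] at hmain
  have hR : 9 * Ps * D.GG (cell m) ^ 2 * D.GG (cell m') ^ 2 / H *
        ∏ h ∈ (univ.erase m).erase m', D.UU (cell h) = 9 * (Ps * (T / H)) := by
    rw [hT]
    ring
  rw [hR]
  -- comparison of the sums
  have hsum : ∑ a ∈ (range (N + 1)).filter (fun a => (a + sh m).Prime ∧ (a + sh m').Prime),
        wtf η P sh cell L w v p₁ N a * Real.log ((a + sh m : ℕ) : ℝ) ≤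
      ∑ a ∈ (range (N + 1)).filter (fun a => a % primorial w = v % primorial w ∧
          (a + sh m).Prime), η ((a : ℝ) / N) * Real.log ((a + sh m : ℕ) : ℝ) *
          comb D.qq t (YY D.pr sh a) ^ 2 := by
    rw [sum_filter, sum_filter]
    refine sum_le_sum fun a _ => ?_
    have hnn : 0 ≤ (if a % primorial w = v % primorial w ∧ (a + sh m).Prime then
        η ((a : ℝ) / N) * Real.log ((a + sh m : ℕ) : ℝ) * comb D.qq t (YY D.pr sh a) ^ 2
        else 0) := by
      split_ifs with h
      · have h1 := hη.nonneg ((a : ℝ) / N)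
        have h2 : 0 ≤ Real.log ((a + sh m : ℕ) : ℝ) := Real.log_natCast_nonneg _
        positivity
      · exact le_rfl
    by_cases h1 : (a + sh m).Prime ∧ (a + sh m').Prime
    · rw [if_pos h1]
      unfold wtf
      by_cases h2 : a % primorial w = v % primorial w
      · rw [if_pos h2, if_pos ⟨h2, h1.1⟩]
        by_cases h3 : η ((a : ℝ) / N) = 0
        · rw [h3]
          simp
        · have h4 := (hη.supp _ h3).1
          rw [lt_div_iff₀ hN0] at h4
          have h5 : N < 8 * a := by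
            have : (N : ℝ) < 8 * a := by linarith
            exact_mod_cast this
          have h6 := ht1 (YY D.pr sh a) (fun i =>
            ⟨m2_avoid P sh cell L w v p₁ N hS a h5 m h1.1 i (by omega),
              m2_avoid P sh cell L w v p₁ N hS a h5 m' h1.2 i (by omega)⟩)
          rw [h6]
          apply le_of_eq
          ring
      · rw [if_neg h2, zero_mul]
        rw [if_neg (fun h => h2 h.1)]
    · rw [if_neg h1]
      exact hnn
  refine hsum.trans ?_
  have h9 := hmain.2
  have h10 : (Ps * (8 * (T / H))) + Ps * (T / H) = 9 * (Ps * (T / H)) := by ring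
  have hq : psi0 η N / ((primorial w).totient : ℝ) * X = Ps * X := rfl
  linarith [h9, hPX, herr2, h10]

end Pool.Agent.MT
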