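import Pool.Agent.MT.Mom

set_option autoImplicit false

/-!
# MT / MomErr: the error term of `eq_prime` for the chosen parameters

For every `B` there is `A` such that for large `N` and every `p₁` with `ErrOK η A (3k+1) w N p₁`:
for every form `m`, `b ∈ {bb, qq}`, every `t` with `|t| ≤ (log N)^B` and level `XX N ^ 2` the
conclusion of `eq_prime` holds with error `≤ N/(log N)^B`.

Proof: `E` from `ErrOK`; `D1 = XX N ^ 2`, `n ≤ D1² = XX N ^ 4`, `(W n)^12 ≤ W^12 N^{48/100} ≤ N`;
the sum over sets `e` becomes a sum over squarefree `n` (`n = ∏_e p`, injective) and is at most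
`N/(log N)^A`; `(τ Λ)² ≤ (log N)^{2B + 2C}` by `par_poly`; `C D1⁴ √N log N ≤ N^{0.6}`.
-/

namespace Pool.Agent.MT

open Finset Filter

section arith

variable {ι : Type} [DecidableEq ι]

theorem me_sqf (pr : ι → ℕ) (hp : ∀ i, (pr i).Prime) (hinj : Function.Injective pr)
    (e : Finset ι) : Squarefree (∏ i ∈ e, pr i) := by
  induction e using Finset.induction with
  | empty => simp
  | insert i e hi ih =>
    rw [prod_insert hi, Nat.squarefree_mul]
    · exact ⟨(hp i).squarefree, ih⟩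
    · apply Nat.Coprime.prod_right
      intro j hj
      rw [Nat.coprime_primes (hp i) (hp j)]
      intro h
      apply hi
      rw [hinj h]
      exact hj

omit [DecidableEq ι] in
theorem me_pf (pr : ι → ℕ) (hp : ∀ i, (pr i).Prime) (hinj : Function.Injective pr)
    (e : Finset ι) : (∏ i ∈ e, pr i).primeFactors = e.image pr := by
  have h1 : ∏ i ∈ e, pr i = ∏ p ∈ e.image pr, p := by
    rw [prod_image fun i _ j _ h => hinj h]
  rw [h1, Nat.primeFactors_prod]
  intro p hp'
  obtain ⟨i, -, rfl⟩ := mem_image.mp hp'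
  exact hp i

theorem me_cop_primorial {p w : ℕ} (hp : p.Prime) (hw : w < p) : p.Coprime (primorial w) := by
  unfold primorial
  apply Nat.Coprime.prod_right
  intro q hq
  rw [mem_filter, mem_range] at hq
  rw [Nat.coprime_primes hp hq.2]
  omega

end arith

theorem me_log_large (A : ℝ) : ∀ᶠ m : ℕ in atTop, A ≤ Real.log m :=
  (Real.tendsto_log_atTop.comp tendsto_natCast_atTop_atTop).eventually_ge_atTop A

theorem me_log_small (n : ℕ) {r : ℝ} (hr : 0 < r) {c : ℝ} (hc : 0 < c) : ∀ᶠ m : ℕ in atTop,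
    Real.log m ^ n ≤ c * (m : ℝ) ^ r := by
  have h := isLittleO_log_rpow_rpow_atTop (n : ℝ) hr
  have h1 := tendsto_natCast_atTop_atTop.eventually (h.bound hc)
  filter_upwards [h1, eventually_ge_atTop 3] with m hm hm3
  have hm0 : (0 : ℝ) < m := by exact_mod_cast (by omega : 0 < m)
  have hL : 0 < Real.log m := Real.log_pos (by exact_mod_cast (by omega : 1 < m))
  rw [Real.norm_eq_abs, Real.norm_eq_abs, Real.rpow_natCast,
    abs_of_pos (by positivity), abs_of_pos (by positivity)] at hm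
  exact hm

theorem me_XX_large (K : ℕ) : ∀ᶠ N : ℕ in atTop, K ≤ XX N := by
  filter_upwards [XX_facts.2, eventually_ge_atTop (K ^ 100)] with N h1 h2
  by_contra h3
  push Not at h3
  have h4 : (XX N + 1) ^ 100 ≤ K ^ 100 := Nat.pow_le_pow_left h3 100
  have h5 := h1.2
  omega

variable {κ : Type} [Fintype κ] [DecidableEq κ]

/-- the sum over the sets of primes is a sum over squarefree numbers -/
theorem me_sum (w N p₁ X : ℕ) (k : ℕ) (E : ℕ → ℝ) (hE : ∀ n, 0 ≤ E n) (D1 : ℕ) (hp₁ : p₁.Prime)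
    (hlev : ∀ n ≤ D1 ^ 2, (primorial w * n) ^ 12 ≤ N) (hN : 1 ≤ N) :
    ∑ e ∈ (univ : Finset (Finset (sieveP w X p₁))).filter
        (fun e : Finset (sieveP w X p₁) => ∏ i ∈ e, (i : ℕ) ≤ D1 ^ 2),
      (3 * k : ℝ) ^ e.card * E (∏ i ∈ e, (i : ℕ)) ≤
    ∑ n ∈ (Icc 1 N).filter (fun n => Squarefree n ∧ n.Coprime (primorial w * p₁) ∧
        (primorial w * n) ^ 12 ≤ N), ((3 * k + 1 : ℕ) : ℝ) ^ n.primeFactors.card * E n := by
  have hprime : ∀ i : sieveP w X p₁, ((i : ℕ)).Prime := by
    intro i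
    have h := i.2
    unfold sieveP at h
    rw [mem_filter] at h
    exact h.2.1
  have hw : ∀ i : sieveP w X p₁, w < (i : ℕ) := by
    intro i
    have h := i.2
    unfold sieveP at h
    rw [mem_filter] at h
    exact h.2.2.1
  have hne : ∀ i : sieveP w X p₁, (i : ℕ) ≠ p₁ := by
    intro i
    have h := i.2
    unfold sieveP at h
    rw [mem_filter] at h
    exact h.2.2.2
  have hinj : Function.Injective (fun i : sieveP w X p₁ => (i : ℕ)) := Subtype.val_injective
  set φ : Finset (sieveP w X p₁) → ℕ := fun e => ∏ i ∈ e, (i : ℕ) with hφ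
  have hpf : ∀ e, (φ e).primeFactors = e.image (fun i : sieveP w X p₁ => (i : ℕ)) :=
    fun e => me_pf (fun i : sieveP w X p₁ => (i : ℕ)) hprime hinj e
  have hφinj : Function.Injective φ := by
    intro e e' h
    have h1 : e.image (fun i : sieveP w X p₁ => (i : ℕ)) =
        e'.image (fun i : sieveP w X p₁ => (i : ℕ)) := by
      rw [← hpf, ← hpf, h]
    exact Finset.image_injective hinj h1
  have hcard : ∀ e, (φ e).primeFactors.card = e.card := by
    intro e
    rw [hpf, card_image_of_injective _ hinj]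
  have hsqf : ∀ e, Squarefree (φ e) := fun e =>
    me_sqf (fun i : sieveP w X p₁ => (i : ℕ)) hprime hinj e
  calc ∑ e ∈ (univ : Finset (Finset (sieveP w X p₁))).filter (fun e => φ e ≤ D1 ^ 2),
      (3 * k : ℝ) ^ e.card * E (φ e)
      ≤ ∑ e ∈ (univ : Finset (Finset (sieveP w X p₁))).filter (fun e => φ e ≤ D1 ^ 2),
        ((3 * k + 1 : ℕ) : ℝ) ^ (φ e).primeFactors.card * E (φ e) := by
        refine sum_le_sum fun e _ => ?_
        rw [hcard]
        apply mul_le_mul_of_nonneg_right _ (hE _)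
        apply pow_le_pow_left₀ (by positivity)
        push_cast
        linarith
    _ = ∑ n ∈ ((univ : Finset (Finset (sieveP w X p₁))).filter (fun e => φ e ≤ D1 ^ 2)).image φ,
        ((3 * k + 1 : ℕ) : ℝ) ^ n.primeFactors.card * E n := by
        rw [sum_image fun e _ e' _ h => hφinj h]
    _ ≤ _ := by
        apply sum_le_sum_of_subset_of_nonneg
        · intro n hn
          obtain ⟨e, he, rfl⟩ := mem_image.mp hn
          rw [mem_filter] at he
          have h1 := hlev _ he.2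
          have h0 : 0 < φ e := Nat.pos_of_ne_zero (hsqf e).ne_zero
          have hcop : (φ e).Coprime (primorial w * p₁) := by
            apply Nat.Coprime.prod_left
            intro i _
            apply Nat.Coprime.mul_right
            · exact me_cop_primorial (hprime i) (hw i)
            · rw [Nat.coprime_primes (hprime i) hp₁]
              exact hne i
          rw [mem_filter, mem_Icc]
          refine ⟨⟨h0, ?_⟩, hsqf e, hcop, h1⟩
          have h2 : 0 < primorial w := primorial_pos w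
          calc φ e ≤ primorial w * φ e := Nat.le_mul_of_pos_left _ h2
            _ ≤ (primorial w * φ e) ^ 12 := Nat.le_self_pow (by norm_num) _
            _ ≤ N := h1
        · intro n _ _
          exact mul_nonneg (by positivity) (hE n)

theorem mom_err (η : ℝ → ℝ) (hη : IsWt η) (P : Par) (sh cell : κ → ℕ) (L w v : ℕ)
    (hS : Std P sh cell L w v) (B : ℕ) : ∃ A : ℕ, ∀ᶠ N : ℕ in atTop, ∀ p₁ : ℕ,
    ErrOK η A (3 * Fintype.card κ + 1) w N p₁ →
    ∀ (m : κ) (b : sieveP w (XX N) p₁ → ℝ) (t : (sieveP w (XX N) p₁ → Option κ) → ℝ),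
      (b = (mkSD P cell L w p₁ N).bb ∨ b = (mkSD P cell L w p₁ N).qq) →
      (∀ σ, |t σ| ≤ Real.log N ^ B) →
      (∀ σ, t σ ≠ 0 → nrm (mkSD P cell L w p₁ N).pr σ ≤ XX N ^ 2) →
      |∑ a ∈ (range (N + 1)).filter (fun a => a % primorial w = v % primorial w ∧
          (a + sh m).Prime), η ((a : ℝ) / N) * Real.log ((a + sh m : ℕ) : ℝ) *
          comb b t (YY (mkSD P cell L w p₁ N).pr sh a) ^ 2 -
        psi0 η N / ((primorial w).totient : ℝ) *
          EE (univ.erase m) (mkSD P cell L w p₁ N).qq (fun Z => comb b t Z ^ 2)| ≤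
        N / Real.log N ^ B := by
  obtain ⟨C, hC0, hC⟩ := eq_prime η hη
  obtain ⟨C', hC'⟩ := par_poly (κ := κ) P cell L w hS.cell_lt hS.w_ge
  set A := 3 * B + 2 * C' + 1 with hA
  refine ⟨A, ?_⟩
  have hk : 3 * Fintype.card κ ≤ w := by
    have h1 := hS.w_ge
    have h2 : Fintype.card κ ≤ (Fintype.card κ + 5) ^ 2 := by nlinarith
    omega
  have hw202 : 202 ≤ w := by
    have := hS.w_ge
    have h7 : 25 ≤ (Fintype.card κ + 5) ^ 2 := by nlinarith [Nat.zero_le (Fintype.card κ)]
    omega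
  filter_upwards [hC', me_XX_large (primorial w ^ 12 + 8), me_log_large 2,
    me_log_small (A + 1) (by norm_num : (0 : ℝ) < 1 / 4) (one_div_pos.mpr hC0),
    eventually_ge_atTop (8 * w + w ^ 2 + 2)] with N hpoly hXX hlog hsmall hN
  intro p₁ hp₁ m b t hb ht hlev
  obtain ⟨hpp, hwp, E, hE0, hE1, hE2⟩ := hp₁
  set D := mkSD P cell L w p₁ N with hD
  have hN0 : (0 : ℝ) < N := by exact_mod_cast (by omega : 0 < N)
  have hprN : ∀ i, D.pr i = ((i : ℕ)) := fun i => rfl
  have hmem : ∀ i : sieveP w (XX N) p₁, (i : ℕ) ≤ XX N ∧ ((i : ℕ)).Prime ∧ w < (i : ℕ) ∧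
      (i : ℕ) ≠ p₁ := by
    intro i
    have h := i.2
    unfold sieveP at h
    rw [mem_filter, mem_range] at h
    exact ⟨by omega, h.2⟩
  have hX100 : XX N ^ 100 ≤ N := XX_facts.1 N (by omega)
  have hX8 : 8 ≤ XX N := by omega
  have h8X : 8 * XX N ≤ N := by
    calc 8 * XX N ≤ XX N * XX N := Nat.mul_le_mul_right _ hX8
      _ = XX N ^ 2 := by ring
      _ ≤ XX N ^ 100 := Nat.pow_le_pow_right (by omega) (by norm_num)
      _ ≤ N := hX100
  have hWX : primorial w ^ 12 ≤ XX N ^ 52 := by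
    calc primorial w ^ 12 ≤ XX N := by omega
      _ ≤ XX N ^ 52 := Nat.le_self_pow (by norm_num) _
  have hlevN : ∀ n ≤ (XX N ^ 2) ^ 2, (primorial w * n) ^ 12 ≤ N := by
    intro n hn
    calc (primorial w * n) ^ 12 = primorial w ^ 12 * n ^ 12 := mul_pow _ _ _
      _ ≤ XX N ^ 52 * ((XX N ^ 2) ^ 2) ^ 12 :=
        Nat.mul_le_mul hWX (Nat.pow_le_pow_left hn 12)
      _ = XX N ^ 100 := by ring
      _ ≤ N := hX100
  have hbn : ∀ i, 0 ≤ b i := by
    intro i
    have h1 : (1 : ℝ) < ((i : ℕ) : ℝ) := by exact_mod_cast (hmem i).2.1.one_lt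
    rcases hb with hb | hb
    · rw [hb]
      simp only [SD.bb, hprN]
      positivity
    · rw [hb]
      simp only [SD.qq, hprN]
      apply one_div_nonneg.mpr
      linarith
  have hbprod : ∏ i, (1 + Fintype.card κ * b i) ≤ Real.log N ^ C' := by
    rcases hb with hb | hb
    · rw [hb]
      exact (hpoly p₁).2.1
    · rw [hb]
      exact (hpoly p₁).2.2.1
  have hbprod0 : 0 ≤ ∏ i, (1 + Fintype.card κ * b i) := prod_nonneg fun i _ => by
    have := hbn i
    positivity
  have hshm := hS.sh_lt m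
  have hmain := hC (sieveP w (XX N) p₁) κ D.pr sh (primorial w) v N (XX N ^ 2) b t
    (Real.log N ^ B) m E (by omega) (primorial_pos w) (fun i => (hmem i).2.1)
    (fun i j h => Subtype.ext h) (fun i => me_cop_primorial (hmem i).2.1 (hmem i).2.2.1)
    hS.sh_inj (fun i h => lt_trans (hS.sh_lt h) (hmem i).2.2.1)
    (fun i => hk.trans (hmem i).2.2.1.le)
    (fun i => (Nat.mul_le_mul_left 8 (hmem i).1).trans h8X)
    (by nlinarith) (by nlinarith [Nat.pow_le_pow_left hshm.le 2]) (hS.co m) hE0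
    (fun n c hn1 hnsq hnp hnD hco => by
      apply hE1 n c hn1 hnsq _ (hlevN n hnD) hco
      apply Nat.Coprime.mul_right
      · apply Nat.coprime_of_dvd
        intro q hq hqn hqW
        obtain ⟨i, hi⟩ := hnp q hq hqn
        have h1 : w < q := by rw [← hi]; exact (hmem i).2.2.1
        have h2 := me_cop_primorial hq h1
        rw [Nat.Prime.coprime_iff_not_dvd hq] at h2
        exact h2 hqW
      · apply Nat.coprime_of_dvd
        intro q hq hqn hqp
        obtain ⟨i, hi⟩ := hnp q hq hqn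
        have h1 : q = p₁ := (Nat.prime_dvd_prime_iff_eq hq hpp).mp hqp
        exact (hmem i).2.2.2 (hi.trans h1))
    hbn ht hlev
  have hqq : (fun i => 1 / ((D.pr i : ℝ) - 1)) = D.qq := rfl
  rw [hqq] at hmain
  refine hmain.trans ?_
  -- the error sum
  have hS1 : ∑ e ∈ (univ : Finset (Finset (sieveP w (XX N) p₁))).filter
        (fun e => ∏ i ∈ e, D.pr i ≤ (XX N ^ 2) ^ 2),
      (3 * Fintype.card κ : ℝ) ^ e.card * E (∏ i ∈ e, D.pr i) ≤ N / Real.log N ^ A :=
    (me_sum w N p₁ (XX N) (Fintype.card κ) E hE0 (XX N ^ 2) hpp hlevN (by omega)).trans hE2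
  have hS2 : C * ((XX N ^ 2 : ℕ) : ℝ) ^ 4 * Real.sqrt N * Real.log N ≤ N / Real.log N ^ A := by
    set Y := (N : ℝ) ^ (1 / 4 : ℝ) with hY
    have hY0 : 0 < Y := Real.rpow_pos_of_pos hN0 _
    have hY4 : Y ^ 4 = N := by
      rw [hY, ← Real.rpow_natCast, ← Real.rpow_mul hN0.le]
      norm_num
    have hXY : ((XX N ^ 2 : ℕ) : ℝ) ^ 4 ≤ Y := by
      have h1 : (((XX N ^ 2 : ℕ) : ℝ) ^ 4) ^ 4 ≤ Y ^ 4 := by
        rw [hY4]
        have h2 : ((XX N ^ 2) ^ 4) ^ 4 ≤ N := by
          calc ((XX N ^ 2) ^ 4) ^ 4 = XX N ^ 32 := by ring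
            _ ≤ XX N ^ 100 := Nat.pow_le_pow_right (by omega) (by norm_num)
            _ ≤ N := hX100
        exact_mod_cast h2
      exact (pow_le_pow_iff_left₀ (by positivity) hY0.le (by norm_num)).mp h1
    have hsq : Real.sqrt N = Y ^ 2 := by
      rw [← hY4, show Y ^ 4 = (Y ^ 2) ^ 2 by ring, Real.sqrt_sq (by positivity)]
    rw [hsq, le_div_iff₀ (by positivity)]
    calc C * ((XX N ^ 2 : ℕ) : ℝ) ^ 4 * Y ^ 2 * Real.log N * Real.log N ^ A
        = C * ((XX N ^ 2 : ℕ) : ℝ) ^ 4 * Y ^ 2 * Real.log N ^ (A + 1) := by ring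
      _ ≤ C * Y * Y ^ 2 * (1 / C * Y) := by
        apply mul_le_mul _ hsmall (by positivity) (by positivity)
        apply mul_le_mul_of_nonneg_right _ (by positivity)
        exact mul_le_mul_of_nonneg_left hXY hC0.le
      _ = Y ^ 4 := by field_simp
      _ = N := hY4
  have hL0 : 0 < Real.log N := by linarith
  have hτ : (Real.log N ^ B * ∏ i, (1 + Fintype.card κ * b i)) ^ 2 ≤
      (Real.log N ^ B * Real.log N ^ C') ^ 2 := by
    apply pow_le_pow_left₀ (by positivity)
    exact mul_le_mul_of_nonneg_left hbprod (by positivity)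
  have hsum0 : 0 ≤ ∑ e ∈ (univ : Finset (Finset (sieveP w (XX N) p₁))).filter
        (fun e => ∏ i ∈ e, D.pr i ≤ (XX N ^ 2) ^ 2),
      (3 * Fintype.card κ : ℝ) ^ e.card * E (∏ i ∈ e, D.pr i) :=
    sum_nonneg fun e _ => mul_nonneg (by positivity) (hE0 _)
  have hsum1 : 0 ≤ C * ((XX N ^ 2 : ℕ) : ℝ) ^ 4 * Real.sqrt N * Real.log N := by positivity
  calc (Real.log N ^ B * ∏ i, (1 + Fintype.card κ * b i)) ^ 2 *
      (∑ e ∈ (univ : Finset (Finset (sieveP w (XX N) p₁))).filter
        (fun e => ∏ i ∈ e, D.pr i ≤ (XX N ^ 2) ^ 2),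
        (3 * Fintype.card κ : ℝ) ^ e.card * E (∏ i ∈ e, D.pr i) +
        C * ((XX N ^ 2 : ℕ) : ℝ) ^ 4 * Real.sqrt N * Real.log N)
      ≤ (Real.log N ^ B * Real.log N ^ C') ^ 2 *
        (N / Real.log N ^ A + N / Real.log N ^ A) := by
        apply mul_le_mul hτ (add_le_add hS1 hS2) (add_nonneg hsum0 hsum1) (by positivity)
    _ = 2 * N / Real.log N ^ (B + 1) := by
        have e1 : Real.log N ^ A = (Real.log N ^ B * Real.log N ^ C') ^ 2 *
            Real.log N ^ (B + 1) := by
          rw [hA]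
          ring
        rw [e1]
        field_simp
        ring
    _ ≤ N / Real.log N ^ B := by
        rw [div_le_div_iff₀ (by positivity) (by positivity), pow_succ]
        have h1 : 0 ≤ (N : ℝ) * Real.log N ^ B := by positivity
        nlinarith

end Pool.Agent.MT
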