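import Pool.Agent.MT.Half

set_option autoImplicit false

/-!
# MT / NearU: dense pairs are near Ostmann pairs

`near`: `c` from `half_bound` (for `ε/4`, for `(A,B)` and `(B,A)`; take the maximum).  If
`S(n) ≥ n/(log n)^K` then by `S_le_mul` and `dim_bound` with exponent `K + c + 1` (for `(A, B)`)
`|B ∩ [0,n]| ≥ (log n)^{c+1}/C > (log n)^c`, so `|A ∩ [0,n]| ≤ n^{1/2+ε/4}`; symmetric for `B`.  Then
`|B ∩ [0,n]| ≥ S/|A ∩ [0,n]| ≥ n^{1/2 - ε/4}/(log n)^K ≥ n^{1/2-ε} + 1`.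
-/

namespace Pool.Agent.MT

open Finset Filter
open Pool.Agent.Helper90.Straus

/-- if `S(n) ≥ n/(log n)^K` then `B` has many elements -/
theorem many_elements {A B : Set ℕ} (h : Admissible A B) (K c : ℕ) :
    ∀ᶠ n : ℕ in atTop, (n : ℝ) / Real.log n ^ K ≤ (S A B n : ℝ) →
      Real.log n ^ c < ((B ∩ Set.Iic n).ncard : ℝ) := by
  obtain ⟨C, hC, hA⟩ := dim_bound h (K + c + 1)
  have hlogtop : Tendsto (fun n : ℕ => Real.log (n : ℝ)) atTop atTop :=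
    Real.tendsto_log_atTop.comp tendsto_natCast_atTop_atTop
  filter_upwards [hA, hlogtop.eventually_gt_atTop (C + 1), eventually_ge_atTop 2] with n hn hl hn2 hS
  set l : ℝ := Real.log (n : ℝ) with hldef
  have hl0 : 0 < l := by linarith
  have hn0 : (0 : ℝ) < n := by
    have : (2 : ℝ) ≤ n := by exact_mod_cast hn2
    linarith
  have h1 : (S A B n : ℝ) ≤ ((A ∩ Set.Iic n).ncard : ℝ) * ((B ∩ Set.Iic n).ncard : ℝ) := by
    exact_mod_cast S_le_mul A B n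
  have h2 : (n : ℝ) / l ^ K ≤ C * n / l ^ (K + c + 1) * ((B ∩ Set.Iic n).ncard : ℝ) :=
    (hS.trans h1).trans (mul_le_mul_of_nonneg_right hn (Nat.cast_nonneg _))
  have h3 : C * n / l ^ (K + c + 1) * ((B ∩ Set.Iic n).ncard : ℝ) =
      (n : ℝ) / l ^ K * (C / l ^ (c + 1) * ((B ∩ Set.Iic n).ncard : ℝ)) := by
    rw [show K + c + 1 = K + (c + 1) by ring, pow_add]
    field_simp
  rw [h3] at h2
  have h4 : 0 < (n : ℝ) / l ^ K := by positivity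
  have h5 : 1 ≤ C / l ^ (c + 1) * ((B ∩ Set.Iic n).ncard : ℝ) := by
    by_contra hcon
    push Not at hcon
    nlinarith
  rw [div_mul_eq_mul_div, le_div_iff₀ (by positivity), one_mul, pow_succ] at h5
  have h6 : 0 < l ^ c := by positivity
  by_contra hcon
  push Not at hcon
  have h7 : C * ((B ∩ Set.Iic n).ncard : ℝ) ≤ C * l ^ c := mul_le_mul_of_nonneg_left hcon hC.le
  nlinarith

/-- upper bounds for both sets -/
theorem upper_half {A B : Set ℕ} (h : Admissible A B) (K : ℕ) (ε : ℝ) (hε : 0 < ε) :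
    ∀ᶠ n : ℕ in atTop, (n : ℝ) / Real.log n ^ K ≤ (S A B n : ℝ) →
      ((A ∩ Set.Iic n).ncard : ℝ) ≤ (n : ℝ) ^ (1 / 2 + ε) := by
  obtain ⟨c, hc⟩ := half_bound h ε hε
  filter_upwards [hc, many_elements h K c] with n h1 h2 h3
  exact h1 (h2 h3)

theorem S_symm (A B : Set ℕ) (n : ℕ) : S B A n = S A B n := by
  have h1 : sumset B A = sumset A B := by
    ext x
    constructor
    · rintro ⟨b, hb, a, ha, rfl⟩
      exact ⟨a, ha, b, hb, add_comm _ _⟩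
    · rintro ⟨a, ha, b, hb, rfl⟩
      exact ⟨b, hb, a, ha, add_comm _ _⟩
  unfold S
  rw [h1]

theorem ncard_Icc (A : Set ℕ) (n : ℕ) : (A ∩ Set.Icc 1 n).ncard ≤ (A ∩ Set.Iic n).ncard ∧
    (A ∩ Set.Iic n).ncard ≤ (A ∩ Set.Icc 1 n).ncard + 1 := by
  have hfin : (A ∩ Set.Iic n).Finite := (Set.finite_Iic n).inter_of_right A
  have hfin' : (A ∩ Set.Icc 1 n).Finite := (Set.finite_Icc 1 n).inter_of_right A
  constructor
  · exact Set.ncard_le_ncard (Set.inter_subset_inter_right _ Set.Icc_subset_Iic_self) hfin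
  · have hsub : A ∩ Set.Iic n ⊆ insert 0 (A ∩ Set.Icc 1 n) := by
      rintro x ⟨hx1, hx2⟩
      rcases Nat.eq_zero_or_pos x with h0 | h0
      · exact Set.mem_insert_iff.2 (Or.inl h0)
      · exact Set.mem_insert_iff.2 (Or.inr ⟨hx1, h0, hx2⟩)
    exact (Set.ncard_le_ncard hsub (hfin'.insert 0)).trans (Set.ncard_insert_le _ _)

/-- one set, both bounds -/
theorem near_one {A B : Set ℕ} (h : Admissible A B) (K : ℕ) (ε : ℝ) (hε : 0 < ε) :
    ∀ᶠ n : ℕ in atTop, (n : ℝ) / Real.log n ^ K ≤ (S A B n : ℝ) →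
      (n : ℝ) ^ (1 / 2 - ε) ≤ ((A ∩ Set.Icc 1 n).ncard : ℝ) ∧
        ((A ∩ Set.Icc 1 n).ncard : ℝ) ≤ (n : ℝ) ^ (1 / 2 + ε) := by
  set ε' : ℝ := min (ε / 4) (1 / 8) with hε'def
  have hε' : 0 < ε' := lt_min (by linarith) (by norm_num)
  have hε1 : ε' ≤ ε / 4 := min_le_left _ _
  have hε2 : ε' ≤ 1 / 8 := min_le_right _ _
  have hlogtop : Tendsto (fun n : ℕ => Real.log (n : ℝ)) atTop atTop :=
    Real.tendsto_log_atTop.comp tendsto_natCast_atTop_atTop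
  filter_upwards [upper_half h K ε' hε', upper_half (adm_symm h) K ε' hε',
    log_pow_small K ε' (1 / 2) hε' (by norm_num), hlogtop.eventually_ge_atTop 1,
    eventually_ge_atTop 2] with n h1 h2 h3 hl hn2 hS
  set l : ℝ := Real.log (n : ℝ) with hldef
  have hnr : (2 : ℝ) ≤ n := by exact_mod_cast hn2
  have hn0 : (0 : ℝ) < n := by linarith
  have hl0 : 0 < l := by linarith
  have hA := h1 hS
  have hB : ((B ∩ Set.Iic n).ncard : ℝ) ≤ (n : ℝ) ^ (1 / 2 + ε') := by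
    apply h2
    rw [S_symm]
    exact hS
  obtain ⟨hi1, hi2⟩ := ncard_Icc A n
  have hi1' : ((A ∩ Set.Icc 1 n).ncard : ℝ) ≤ ((A ∩ Set.Iic n).ncard : ℝ) := by exact_mod_cast hi1
  have hi2' : ((A ∩ Set.Iic n).ncard : ℝ) ≤ ((A ∩ Set.Icc 1 n).ncard : ℝ) + 1 := by
    exact_mod_cast hi2
  constructor
  · have h4 : (S A B n : ℝ) ≤ ((A ∩ Set.Iic n).ncard : ℝ) * ((B ∩ Set.Iic n).ncard : ℝ) := by
      exact_mod_cast S_le_mul A B n
    have h5 : (n : ℝ) / l ^ K ≤ ((A ∩ Set.Iic n).ncard : ℝ) * (n : ℝ) ^ (1 / 2 + ε') :=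
      (hS.trans h4).trans (mul_le_mul_of_nonneg_left hB (Nat.cast_nonneg _))
    have h6 : 0 < (n : ℝ) ^ (1 / 2 + ε') := Real.rpow_pos_of_pos hn0 _
    have h7 : 2 * (n : ℝ) ^ (1 / 2 - 2 * ε') * (n : ℝ) ^ (1 / 2 + ε') ≤ (n : ℝ) / l ^ K := by
      rw [le_div_iff₀ (by positivity), mul_assoc 2, ← Real.rpow_add hn0]
      have h8 : (n : ℝ) ^ (1 / 2 - 2 * ε' + (1 / 2 + ε')) * (n : ℝ) ^ ε' = n := by
        rw [← Real.rpow_add hn0]
        ring_nf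
        simp
      have h9 : 0 < (n : ℝ) ^ (1 / 2 - 2 * ε' + (1 / 2 + ε')) := Real.rpow_pos_of_pos hn0 _
      nlinarith
    have h10 : 2 * (n : ℝ) ^ (1 / 2 - 2 * ε') ≤ ((A ∩ Set.Iic n).ncard : ℝ) :=
      le_of_mul_le_mul_right (h7.trans h5) h6
    have h11 : (1 : ℝ) ≤ (n : ℝ) ^ (1 / 2 - 2 * ε') :=
      Real.one_le_rpow (by linarith) (by linarith)
    have h12 : (n : ℝ) ^ (1 / 2 - ε) ≤ (n : ℝ) ^ (1 / 2 - 2 * ε') :=
      Real.rpow_le_rpow_of_exponent_le (by linarith) (by linarith)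
    linarith
  · have h4 : (n : ℝ) ^ (1 / 2 + ε') ≤ (n : ℝ) ^ (1 / 2 + ε) :=
      Real.rpow_le_rpow_of_exponent_le (by linarith) (by linarith)
    linarith

theorem near {A B : Set ℕ} (h : Admissible A B) (K : ℕ) (ε : ℝ) (hε : 0 < ε) :
    ∀ᶠ n : ℕ in atTop, (n : ℝ) / Real.log n ^ K ≤ (S A B n : ℝ) →
      ((n : ℝ) ^ (1 / 2 - ε) ≤ ((A ∩ Set.Icc 1 n).ncard : ℝ) ∧
        ((A ∩ Set.Icc 1 n).ncard : ℝ) ≤ (n : ℝ) ^ (1 / 2 + ε)) ∧
      ((n : ℝ) ^ (1 / 2 - ε) ≤ ((B ∩ Set.Icc 1 n).ncard : ℝ) ∧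
        ((B ∩ Set.Icc 1 n).ncard : ℝ) ≤ (n : ℝ) ^ (1 / 2 + ε)) := by
  filter_upwards [near_one h K ε hε, near_one (adm_symm h) K ε hε] with n h1 h2 h3
  refine ⟨h1 h3, h2 ?_⟩
  rw [S_symm]
  exact h3

end Pool.Agent.MT
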