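import Pool.Agent.MT.Extract
import Pool.Agent.Helper90.Straus.Sets

set_option autoImplicit false

/-!
# MT / Pair: the admissible pair

`maynard`, `exists_con`, `extract`.  `N_t = M (s_t + 1)`, `lm_t ≤ s_t < lm_{t+1}`,
`c_t ∈ Hc (lm_t)`.  `A = ⋃ G_t`, `B = {c_t}`.

A sum `a + c_u`, `a ∈ G_t`, with `u ≤ t` (type 1) is a prime in `(N_t/8, N_t)`.  With `u > t` (type 2)
it has no prime factor `p ≤ M (lm_u)`: `c_u = β p (mod p)`, and `¬ p ∣ a + β p` by `extract`
(`p ≤ N_t`) or `Con.avoid` (`p > N_t ≥ a`); and it is `< M (lm_u + 1)/8`.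
Two distinct sums are coprime.  Types 1, 1: distinct primes.  Type 1 `x` (`t`), type 2 `y` (`u'`): if
`x ∣ y` then `x > M (lm_u')` so `s_t ≥ lm_u'` and `x > N_t/8 ≥ M (lm_u' + 1)/8 > y`.  Types 2, 2
with `u < u'`: a common prime factor is `> M (lm_u') ≥ M (lm_u + 1) > x`; with `u = u'`: it divides
`|a - a'| < M (lm_u)`.  `S(N_t) ≥ |G_t|` (the sums `a + c_0`), `N_t = n (jx (s_t))`.
-/

namespace Pool.Agent.MT

open Finset Filter

/-- bookkeeping for the pair: everything that is used about the extracted sequences -/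
structure PD (M c lm s : ℕ → ℕ) (G : ℕ → Finset ℕ) : Prop where
  Mm : StrictMono M
  lms : ∀ t, lm t ≤ s t
  slm : ∀ t, s t < lm (t + 1)
  clo : ∀ t, M (lm t) < c t
  cup : ∀ t, 16 * c t < M (lm t + 1)
  glo : ∀ t, ∀ a ∈ G t, M (s t + 1) < 8 * a
  gup : ∀ t, ∀ a ∈ G t, 8 * a < 7 * M (s t + 1)
  gpr : ∀ t, ∀ a ∈ G t, ∀ u ≤ t, (a + c u).Prime
  two : ∀ t u, t < u → ∀ a ∈ G t, ∀ p : ℕ, p.Prime → p ≤ M (lm u) → ¬ p ∣ a + c u

theorem PD.lmm {M c lm s : ℕ → ℕ} {G : ℕ → Finset ℕ} (h : PD M c lm s G) : StrictMono lm :=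
  strictMono_nat_of_lt_succ fun t => lt_of_le_of_lt (h.lms t) (h.slm t)

theorem PD.cM {M c lm s : ℕ → ℕ} {G : ℕ → Finset ℕ} (h : PD M c lm s G) {t u : ℕ} (hut : u ≤ t) :
    16 * c u < M (s t + 1) := by
  have h1 := h.cup u
  have h2 : lm u ≤ lm t := h.lmm.monotone hut
  have h3 := h.lms t
  have h4 : M (lm u + 1) ≤ M (s t + 1) := h.Mm.monotone (by omega)
  omega

/-- sums of type 1 -/
theorem PD.one {M c lm s : ℕ → ℕ} {G : ℕ → Finset ℕ} (h : PD M c lm s G) {t u a : ℕ}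
    (ha : a ∈ G t) (hut : u ≤ t) :
    (a + c u).Prime ∧ M (s t + 1) < 8 * (a + c u) ∧ a + c u < M (s t + 1) := by
  have h1 := h.cM hut
  have h2 := h.glo t a ha
  have h3 := h.gup t a ha
  exact ⟨h.gpr t a ha u hut, by omega, by omega⟩

theorem PD.aM {M c lm s : ℕ → ℕ} {G : ℕ → Finset ℕ} (h : PD M c lm s G) {t u a : ℕ}
    (ha : a ∈ G t) (hut : t < u) : a < M (lm u) := by
  have h3 := h.gup t a ha
  have h4 := h.slm t
  have h5 : lm (t + 1) ≤ lm u := h.lmm.monotone hut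
  have h6 : M (s t + 1) ≤ M (lm u) := h.Mm.monotone (by omega)
  have h7 := h.glo t a ha
  omega

/-- sums of type 2 -/
theorem PD.up {M c lm s : ℕ → ℕ} {G : ℕ → Finset ℕ} (h : PD M c lm s G) {t u a : ℕ}
    (ha : a ∈ G t) (hut : t < u) : 8 * (a + c u) < M (lm u + 1) := by
  have h1 := h.aM ha hut
  have h2 := h.clo u
  have h3 := h.cup u
  omega

theorem PD.cop12 {M c lm s : ℕ → ℕ} {G : ℕ → Finset ℕ} (h : PD M c lm s G) {t u a t' u' a' q : ℕ}
    (ha : a ∈ G t) (hut : u ≤ t) (ha' : a' ∈ G t') (hut' : t' < u') (hq : q.Prime)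
    (hq1 : q ∣ a + c u) (hq2 : q ∣ a' + c u') : False := by
  obtain ⟨h1, h2, h3⟩ := h.one ha hut
  have h4 : q = a + c u := (Nat.prime_dvd_prime_iff_eq hq h1).1 hq1
  have h5 : ¬ q ≤ M (lm u') := fun hc => h.two t' u' hut' a' ha' q hq hc hq2
  have h6 : M (lm u') < M (s t + 1) := by omega
  have h7 : lm u' < s t + 1 := h.Mm.lt_iff_lt.1 h6
  have h8 : M (lm u' + 1) ≤ M (s t + 1) := h.Mm.monotone (by omega)
  have h9 := h.up ha' hut'
  have h10 := h.glo t' a' ha'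
  have h11 := Nat.le_of_dvd (by omega) hq2
  omega

theorem PD.cop22 {M c lm s : ℕ → ℕ} {G : ℕ → Finset ℕ} (h : PD M c lm s G) {t u a t' u' a' q : ℕ}
    (ha : a ∈ G t) (hut : t < u) (ha' : a' ∈ G t') (hut' : t' < u') (huu : u < u') (hq : q.Prime)
    (hq1 : q ∣ a + c u) (hq2 : q ∣ a' + c u') : False := by
  have h5 : ¬ q ≤ M (lm u') := fun hc => h.two t' u' hut' a' ha' q hq hc hq2
  have h1 := h.up ha hut
  have h2 : lm u < lm u' := h.lmm huu
  have h3 : M (lm u + 1) ≤ M (lm u') := h.Mm.monotone (by omega)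
  have h10 := h.glo t a ha
  have h11 := Nat.le_of_dvd (by omega) hq1
  omega

theorem PD.cop2 {M c lm s : ℕ → ℕ} {G : ℕ → Finset ℕ} (h : PD M c lm s G) {t u a t' a' q : ℕ}
    (ha : a ∈ G t) (hut : t < u) (ha' : a' ∈ G t') (hut' : t' < u) (hq : q.Prime)
    (hq1 : q ∣ a + c u) (hq2 : q ∣ a' + c u) (hlt : a < a') : False := by
  have h5 : ¬ q ≤ M (lm u) := fun hc => h.two t u hut a ha q hq hc hq1
  have h6 : q ∣ a' - a := by
    have := Nat.dvd_sub hq2 hq1
    rwa [show a' + c u - (a + c u) = a' - a by omega] at this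
  have h7 := Nat.le_of_dvd (by omega) h6
  have h8 := h.aM ha' hut'
  omega

theorem PD.cop {M c lm s : ℕ → ℕ} {G : ℕ → Finset ℕ} (h : PD M c lm s G) {t u a t' u' a' : ℕ}
    (ha : a ∈ G t) (ha' : a' ∈ G t') (hne : a + c u ≠ a' + c u') :
    Nat.gcd (a + c u) (a' + c u') = 1 := by
  by_contra hcon
  obtain ⟨q, hq, hqd⟩ := Nat.exists_prime_and_dvd hcon
  have hq1 : q ∣ a + c u := hqd.trans (Nat.gcd_dvd_left _ _)
  have hq2 : q ∣ a' + c u' := hqd.trans (Nat.gcd_dvd_right _ _)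
  rcases le_or_gt u t with h1 | h1
  · rcases le_or_gt u' t' with h2 | h2
    · have e1 := (Nat.prime_dvd_prime_iff_eq hq (h.one ha h1).1).1 hq1
      have e2 := (Nat.prime_dvd_prime_iff_eq hq (h.one ha' h2).1).1 hq2
      exact hne (by rw [← e1, ← e2])
    · exact h.cop12 ha h1 ha' h2 hq hq1 hq2
  · rcases le_or_gt u' t' with h2 | h2
    · exact h.cop12 ha' h2 ha h1 hq hq2 hq1
    · rcases lt_trichotomy u u' with h3 | h3 | h3
      · exact h.cop22 ha h1 ha' h2 h3 hq hq1 hq2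
      · subst h3
        rcases lt_trichotomy a a' with h4 | h4 | h4
        · exact h.cop2 ha h1 ha' h2 hq hq1 hq2 h4
        · exact hne (by rw [h4])
        · exact h.cop2 ha' h2 ha h1 hq hq2 hq1 h4
      · exact h.cop22 ha' h2 ha h1 h3 hq hq2 hq1

/-- the pair is admissible and large at the scales -/
theorem exists_pair (n : ℕ → ℕ) (hn : StrictMono n) :
    ∃ A B : Set ℕ, Pool.Agent.Helper90.Straus.Admissible A B ∧
      ∃ᶠ j : ℕ in atTop, (n j : ℝ) / Real.log (n j) ^ j ≤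
        (Pool.Agent.Helper90.Straus.S A B (n j) : ℝ) := by
  obtain ⟨K, δ, hδ, -, hM⟩ := maynard
  obtain ⟨M, jx, β, Hc, μ, hC⟩ := exists_con K δ hM n hn
  obtain ⟨c, lm, s, G, hc, hlms, hslm, hG, hGc⟩ := extract δ hδ n M jx β Hc μ hC
  have hMm := hC.M_mono
  have hlmm : StrictMono lm := strictMono_nat_of_lt_succ fun t => lt_of_le_of_lt (hlms t) (hslm t)
  have hP : PD M c lm s G := by
    refine ⟨hMm, hlms, hslm, fun t => (hC.cell (lm t) (c t) (hc t)).1,
      fun t => (hC.cell (lm t) (c t) (hc t)).2.1, fun t a ha => (hG t a ha).1,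
      fun t a ha => (hG t a ha).2.1, fun t a ha => (hG t a ha).2.2.1, ?_⟩
    intro t u htu a ha p hp hpM hdvd
    have h1 := (hC.cell (lm u) (c u) (hc u)).2.2 p hp hpM
    have h2 : p ∣ a + β p := by
      rw [Nat.dvd_iff_mod_eq_zero] at hdvd ⊢
      rw [Nat.add_mod, h1, ← Nat.add_mod] at hdvd
      exact hdvd
    rcases le_or_gt p (M (s t + 1)) with h3 | h3
    · exact (hG t a ha).2.2.2 p hp h3 h2
    · have h4 := (hG t a ha).1
      have h5 := (hG t a ha).2.1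
      exact hC.avoid (s t + 1) p hp h3 a (by omega) (by omega) h2
  have hMid : ∀ k, k ≤ M k := fun k => hMm.id_le k
  have hlmid : ∀ k, k ≤ lm k := fun k => hlmm.id_le k
  have hne : ∀ t, 1 ≤ t → (G t).Nonempty := by
    intro t ht
    have h1 := hGc t
    have h2 := hMid (s t + 1)
    have h3 := hlmid t
    have h4 := hlms t
    have h5 : (2 : ℕ) ≤ M (s t + 1) := by omega
    have h6 : (2 : ℝ) ≤ (M (s t + 1) : ℝ) := by exact_mod_cast h5
    have h7 : 0 < Real.log (M (s t + 1)) := Real.log_pos (by linarith)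
    have h8 : 0 < (M (s t + 1) : ℝ) / Real.log (M (s t + 1)) ^ jx (s t) := by positivity
    have h9 : (0 : ℝ) < ((G t).card : ℝ) := lt_of_lt_of_le h8 h1
    exact Finset.card_pos.1 (by exact_mod_cast h9)
  refine ⟨{a | ∃ t, a ∈ G t}, {b | ∃ t, b = c t}, ⟨?_, ?_, ?_⟩, ?_⟩
  · refine Set.infinite_of_forall_exists_gt fun k => ?_
    obtain ⟨a, ha⟩ := hne (8 * k + 1) (by omega)
    refine ⟨a, ⟨8 * k + 1, ha⟩, ?_⟩
    have h1 := (hG _ a ha).1
    have h2 := hMid (s (8 * k + 1) + 1)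
    have h3 := hlmid (8 * k + 1)
    have h4 := hlms (8 * k + 1)
    omega
  · refine Set.infinite_of_forall_exists_gt fun k => ⟨c k, ⟨k, rfl⟩, ?_⟩
    have h1 := hP.clo k
    have h2 := hMid (lm k)
    have h3 := hlmid k
    omega
  · rintro x ⟨a, ⟨t, ha⟩, b, ⟨u, rfl⟩, rfl⟩ y ⟨a', ⟨t', ha'⟩, b', ⟨u', rfl⟩, rfl⟩ hxy
    exact hP.cop ha ha' hxy
  · rw [Filter.frequently_atTop]
    intro j₀
    have hjid : ∀ k, k ≤ jx k := fun k => hC.jx_mono.id_le k
    refine ⟨jx (s j₀), ?_, ?_⟩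
    · have h1 := hjid (s j₀)
      have h2 := hlms j₀
      have h3 := hlmid j₀
      omega
    · have h1 := hGc j₀
      rw [hC.M_succ] at h1
      refine le_trans h1 ?_
      rw [← hC.M_succ]
      have h2 : (G j₀).card ≤ Pool.Agent.Helper90.Straus.S {a | ∃ t, a ∈ G t} {b | ∃ t, b = c t}
          (M (s j₀ + 1)) := by
        unfold Pool.Agent.Helper90.Straus.S
        have hfin : (Pool.Agent.Helper90.Straus.sumset {a | ∃ t, a ∈ G t} {b | ∃ t, b = c t} ∩
            Set.Icc 1 (M (s j₀ + 1))).Finite :=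
          (Set.finite_Icc 1 _).subset Set.inter_subset_right
        rw [Set.ncard_eq_toFinset_card _ hfin]
        refine Finset.card_le_card_of_injOn (fun a => a + c 0) ?_ ?_
        · intro a ha
          rw [Finset.mem_coe] at ha
          rw [Finset.mem_coe, Set.Finite.mem_toFinset]
          obtain ⟨g1, g2, g3⟩ := hP.one ha (Nat.zero_le j₀)
          refine ⟨⟨a, ⟨j₀, ha⟩, c 0, ⟨0, rfl⟩, rfl⟩, ?_⟩
          rw [Set.mem_Icc]
          exact ⟨g1.one_lt.le, g3.le⟩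
        · intro a _ a' _ haa
          simpa using haa
      exact_mod_cast h2

end Pool.Agent.MT
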