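import Pool.Agent.MT.Cell
import Pool.Agent.MT.Greedy

set_option autoImplicit false

/-!
# MT / Stage: one step of the construction

`H` from `next_cell`; `D₀` from `MayProp` for the `L + 1` cells; `U` = union of the cells,
`r = 2^|U|`; `w` = maximum of `D₀, 2M, 4r`; `v` from `next_class`; `C₁` from `MayProp`, `C₂` from
`greedy r`.  Choose `j ≥ j₀`, `j ≥ C₁ + C₂ + 2` so large that `N = n j` is beyond all thresholds
(`n j ≥ j`), `log N ≥ (L+1)² + C₂`, and `N > M`, `N > 16 h`, `N ≥ ∑ K + 1`.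
`μ = wt / ∑ wt`.  For `F ⊆ U` put `G_F = {a ≤ N : wt a ≠ 0, a + h prime for all h ∈ F}`.  If
`μ(G_F) ≥ 1/(L+1)` then by Cauchy-Schwarz
`|G_F| ≥ (∑_{G_F} wt)²/∑ wt² ≥ N/((L+1)² (log N)^C₁)`.
`greedy` for the sets `G_F`, `F ⊆ U` gives `β₁`; `β' p = β p` for `p ≤ M`, `0` for `M < p ≤ w`, `β₁ p` for
`p > w`.  `G` = the filtered `G_F`: for `a ∈ G`, `a = v (mod primorial w)` gives `¬ p ∣ a + β' p` for
`p ≤ w`.
-/

namespace Pool.Agent.MT

open Finset Filter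

/-- the conclusion of `maynard` for given `K`, `δ` -/
def MayProp (K : ℕ → ℕ) (δ : ℝ) : Prop :=
    ∀ (L : ℕ) (Hc : ℕ → Finset ℕ), (∀ l < L, (Hc l).card = K l) →
      (∀ l < L, ∀ l' < L, l ≠ l' → Disjoint (Hc l) (Hc l')) →
      ∃ D₀ : ℕ, ∀ w ≥ D₀, ∀ v : ℕ, (∀ l < L, ∀ h ∈ Hc l, (v + h).Coprime (primorial w)) →
        ∃ C : ℕ, ∀ᶠ N : ℕ in atTop, ∃ wt : ℕ → ℝ, (∀ a, 0 ≤ wt a) ∧
          (∀ a, wt a ≠ 0 → N < 8 * a ∧ 8 * a < 7 * N ∧ a % primorial w = v % primorial w) ∧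
          0 < ∑ a ∈ range (N + 1), wt a ∧
          (∀ l < L, δ * ∑ a ∈ range (N + 1), wt a ≤
            ∑ a ∈ (range (N + 1)).filter (fun a => ∃ h ∈ Hc l, (a + h).Prime), wt a) ∧
          (∑ a ∈ range (N + 1), wt a ^ 2) * N ≤
            Real.log N ^ C * (∑ a ∈ range (N + 1), wt a) ^ 2

/-- the counting inequality behind `stage` -/
theorem count_low (N C₁ C₂ j : ℕ) (T Q g g' L1 : ℝ) (hN : 0 < (N : ℝ)) (hT : 0 < T) (hQ : 0 ≤ Q)
    (hL1 : 1 ≤ L1) (hlog1 : 1 ≤ Real.log N) (hlog : L1 ^ 2 * C₂ ≤ Real.log N)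
    (hj : C₁ + C₂ + 1 ≤ j) (hg0 : 0 ≤ g') (hg : g ≤ C₂ * Real.log N ^ C₂ * g')
    (hCS : (T / L1) ^ 2 ≤ g * Q) (hQ2 : Q * N ≤ Real.log N ^ C₁ * T ^ 2) :
    (N : ℝ) / Real.log N ^ j ≤ g' := by
  have hl0 : 0 < Real.log N := by linarith
  have hgpos : 0 ≤ g := by
    by_contra hneg
    push Not at hneg
    have h1 : g * Q ≤ 0 := mul_nonpos_of_nonpos_of_nonneg hneg.le hQ
    have h2 : 0 < (T / L1) ^ 2 := by positivity
    linarith
  -- `N ≤ g L1² log^C₁`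
  have h1 : (T / L1) ^ 2 * N ≤ g * (Real.log N ^ C₁ * T ^ 2) := by
    calc (T / L1) ^ 2 * N ≤ g * Q * N := mul_le_mul_of_nonneg_right hCS hN.le
      _ = g * (Q * N) := by ring
      _ ≤ g * (Real.log N ^ C₁ * T ^ 2) := mul_le_mul_of_nonneg_left hQ2 hgpos
  have h2 : (N : ℝ) ≤ g * (L1 ^ 2 * Real.log N ^ C₁) := by
    have hL0 : 0 < L1 := by linarith
    have h3 : (T / L1) ^ 2 * N * L1 ^ 2 ≤ g * (Real.log N ^ C₁ * T ^ 2) * L1 ^ 2 :=
      mul_le_mul_of_nonneg_right h1 (by positivity)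
    have h4 : (T / L1) ^ 2 * N * L1 ^ 2 = T ^ 2 * N := by
      field_simp
    have h5 : T ^ 2 * (N : ℝ) ≤ T ^ 2 * (g * (L1 ^ 2 * Real.log N ^ C₁)) := by
      rw [← h4]
      refine le_trans h3 (le_of_eq (by ring))
    exact le_of_mul_le_mul_left h5 (by positivity)
  have h6 : (N : ℝ) ≤ Real.log N ^ j * g' := by
    calc (N : ℝ) ≤ g * (L1 ^ 2 * Real.log N ^ C₁) := h2
      _ ≤ (C₂ * Real.log N ^ C₂ * g') * (L1 ^ 2 * Real.log N ^ C₁) :=
          mul_le_mul_of_nonneg_right hg (by positivity)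
      _ = (L1 ^ 2 * C₂) * (Real.log N ^ (C₁ + C₂) * g') := by rw [pow_add]; ring
      _ ≤ Real.log N * (Real.log N ^ (C₁ + C₂) * g') :=
          mul_le_mul_of_nonneg_right hlog (by positivity)
      _ = Real.log N ^ (C₁ + C₂ + 1) * g' := by rw [pow_succ]; ring
      _ ≤ Real.log N ^ j * g' :=
          mul_le_mul_of_nonneg_right (pow_le_pow_right₀ hlog1 hj) hg0
  rw [div_le_iff₀ (by positivity)]
  linarith [mul_comm (Real.log N ^ j) g']

/-- sets of the step -/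
theorem stage_sets (L M w v N C₁ C₂ j : ℕ) (β β₁ β' : ℕ → ℕ) (F : Finset ℕ)
    (wt : ℕ → ℝ)
    (hwt : ∀ a, wt a ≠ 0 → N < 8 * a ∧ 8 * a < 7 * N ∧ a % primorial w = v % primorial w)
    (hMw : M ≤ w)
    (hT : 0 < ∑ a ∈ range (N + 1), wt a)
    (hsq : (∑ a ∈ range (N + 1), wt a ^ 2) * N ≤
            Real.log N ^ C₁ * (∑ a ∈ range (N + 1), wt a) ^ 2)
    (hv1 : ∀ p : ℕ, p.Prime → p ≤ M → ¬ p ∣ v + β p)
    (hv2 : ∀ p : ℕ, p.Prime → M < p → p ≤ w → ¬ p ∣ v)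
    (hβ' : β' = fun p => if p ≤ M then β p else if p ≤ w then 0 else β₁ p)
    (G₁ G₂ : Finset ℕ)
    (hG₁ : ∀ a, a ∈ G₁ ↔ a ∈ range (N + 1) ∧ wt a ≠ 0 ∧ ∀ h ∈ F, (a + h).Prime)
    (hG₂ : ∀ a, a ∈ G₂ ↔ a ∈ G₁ ∧ ∀ p : ℕ, p.Prime → w < p → p ≤ N → ¬ p ∣ a + β₁ p)
    (hG12 : (G₁.card : ℝ) ≤ C₂ * Real.log N ^ C₂ * G₂.card)
    (G₀ : Finset ℕ) (hG₀ : ∀ a, a ∈ G₀ ↔ a ∈ range (N + 1) ∧ ∀ h ∈ F, (a + h).Prime)
    (hG₀s : 1 / ((L : ℝ) + 1) ≤ ∑ a ∈ G₀, wt a / ∑ a ∈ range (N + 1), wt a)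
    (hN3 : 3 ≤ N) (hlog1 : 1 ≤ Real.log N) (hlog : ((L : ℝ) + 1) ^ 2 * C₂ ≤ Real.log N)
    (hj : C₁ + C₂ + 1 ≤ j) :
    (∀ a ∈ G₂, N < 8 * a ∧ 8 * a < 7 * N ∧ (∀ h ∈ F, (a + h).Prime) ∧
            ∀ p : ℕ, p.Prime → p ≤ N → ¬ p ∣ a + β' p) ∧
          (N : ℝ) / Real.log N ^ j ≤ G₂.card := by
  refine ⟨fun a ha => ?_, ?_⟩
  · have ha1 := (hG₂ a).1 ha
    have ha2 := (hG₁ a).1 ha1.1
    obtain ⟨b1, b2, b3⟩ := hwt a ha2.2.1
    refine ⟨b1, b2, ha2.2.2, fun p hp hpN => ?_⟩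
    have hmod : p ≤ w → a % p = v % p := by
      intro hpw
      have h1 : p ∣ primorial w := by
        unfold primorial
        exact Finset.dvd_prod_of_mem _ (Finset.mem_filter.2 ⟨Finset.mem_range.2 (by omega), hp⟩)
      have h2 : a ≡ v [MOD primorial w] := b3
      exact h2.of_dvd h1
    rw [hβ']
    by_cases h1 : p ≤ M
    · simp only [h1, if_true]
      intro hd
      apply hv1 p hp h1
      rw [Nat.dvd_iff_mod_eq_zero] at hd ⊢
      rw [Nat.add_mod, hmod (h1.trans hMw), ← Nat.add_mod] at hd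
      exact hd
    · by_cases h2 : p ≤ w
      · simp only [h1, if_false, h2, if_true, add_zero]
        intro hd
        apply hv2 p hp (by omega) h2
        rw [Nat.dvd_iff_mod_eq_zero] at hd ⊢
        rw [hmod h2] at hd
        exact hd
      · simp only [h1, if_false, h2]
        exact ha1.2 p hp (by omega) hpN
  · set T := ∑ a ∈ range (N + 1), wt a with hTdef
    have hsub : G₁ ⊆ G₀ := fun a ha => (hG₀ a).2 ⟨((hG₁ a).1 ha).1, ((hG₁ a).1 ha).2.2⟩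
    have hsum : ∑ a ∈ G₁, wt a = ∑ a ∈ G₀, wt a := by
      refine Finset.sum_subset hsub fun a ha hna => ?_
      by_contra hne
      exact hna ((hG₁ a).2 ⟨((hG₀ a).1 ha).1, hne, ((hG₀ a).1 ha).2⟩)
    have h1 : T / ((L : ℝ) + 1) ≤ ∑ a ∈ G₁, wt a := by
      rw [hsum]
      rw [← Finset.sum_div, le_div_iff₀ hT] at hG₀s
      refine le_trans (le_of_eq ?_) hG₀s
      ring
    have h2 : (∑ a ∈ G₁, wt a) ^ 2 ≤ G₁.card * ∑ a ∈ G₁, wt a ^ 2 := sq_sum_le_card_mul_sum_sq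
    have h3 : ∑ a ∈ G₁, wt a ^ 2 ≤ ∑ a ∈ range (N + 1), wt a ^ 2 :=
      Finset.sum_le_sum_of_subset_of_nonneg (fun a ha => ((hG₁ a).1 ha).1)
        (fun a _ _ => sq_nonneg _)
    have h4 : (T / ((L : ℝ) + 1)) ^ 2 ≤ G₁.card * ∑ a ∈ range (N + 1), wt a ^ 2 := by
      calc (T / ((L : ℝ) + 1)) ^ 2 ≤ (∑ a ∈ G₁, wt a) ^ 2 :=
            pow_le_pow_left₀ (by positivity) h1 2
        _ ≤ G₁.card * ∑ a ∈ G₁, wt a ^ 2 := h2
        _ ≤ _ := mul_le_mul_of_nonneg_left h3 (by positivity)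
    have hN0 : (0 : ℝ) < N := by
      have : 0 < N := by omega
      exact_mod_cast this
    exact count_low N C₁ C₂ j T (∑ a ∈ range (N + 1), wt a ^ 2) G₁.card G₂.card ((L : ℝ) + 1)
      hN0 hT (Finset.sum_nonneg fun a _ => sq_nonneg _)
      (by have : (0 : ℝ) ≤ L := Nat.cast_nonneg L
          linarith) hlog1 hlog hj (Nat.cast_nonneg _) hG12 h4 hsq

open Classical in
theorem stage (K : ℕ → ℕ) (δ : ℝ) (hM : MayProp K δ) (n : ℕ → ℕ) (hn : StrictMono n)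
    (L M : ℕ) (β : ℕ → ℕ) (Hc : ℕ → Finset ℕ) (hS : Stt K L M β Hc) (j₀ : ℕ) :
    ∃ (j : ℕ) (β' : ℕ → ℕ) (H : Finset ℕ) (μ : ℕ → ℝ), j₀ ≤ j ∧ M < n j ∧
      Stt K (L + 1) (n j) β' (Function.update Hc L H) ∧
      (∀ p : ℕ, p.Prime → p ≤ M → β' p = β p) ∧
      (∀ h ∈ H, M < h ∧ 16 * h < n j ∧ ∀ p : ℕ, p.Prime → p ≤ M → h % p = β p % p) ∧
      (∀ p : ℕ, p.Prime → M < p → p ≤ n j → ∀ a : ℕ, 1 ≤ a → a ≤ M → ¬ p ∣ a + β' p) ∧
      (∀ a, 0 ≤ μ a) ∧ ∑ a ∈ range (n j + 1), μ a = 1 ∧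
      (∀ l ≤ L, δ ≤ ∑ a ∈ (range (n j + 1)).filter
        (fun a => ∃ h ∈ Function.update Hc L H l, (a + h).Prime), μ a) ∧
      ∀ F : Finset ℕ, F ⊆ (range (L + 1)).biUnion (Function.update Hc L H) →
        1 / ((L : ℝ) + 1) ≤
          ∑ a ∈ (range (n j + 1)).filter (fun a => ∀ h ∈ F, (a + h).Prime), μ a →
        ∃ G : Finset ℕ, (∀ a ∈ G, n j < 8 * a ∧ 8 * a < 7 * n j ∧ (∀ h ∈ F, (a + h).Prime) ∧
            ∀ p : ℕ, p.Prime → p ≤ n j → ¬ p ∣ a + β' p) ∧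
          (n j : ℝ) / Real.log (n j) ^ j ≤ G.card := by
  classical
  obtain ⟨H, hHc, hH⟩ := next_cell K L M β Hc hS
  set Hc' := Function.update Hc L H with hHc'
  have hupL : Hc' L = H := by simp [hHc']
  have hupl : ∀ l, l ≠ L → Hc' l = Hc l := fun l hl => by simp [hHc', Function.update_of_ne hl]
  have hcard : ∀ l < L + 1, (Hc' l).card = K l := by
    intro l hl
    by_cases h : l = L
    · rw [h, hupL, hHc]
    · rw [hupl l h]
      exact hS.card l (by omega)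
  have hdisjL : ∀ l < L, Disjoint (Hc l) H := by
    intro l hl
    rw [Finset.disjoint_left]
    intro a ha ha'
    have h1 := (hS.rng l hl a ha).2
    have h2 := (hH a ha').1
    omega
  have hdisj : ∀ l < L + 1, ∀ l' < L + 1, l ≠ l' → Disjoint (Hc' l) (Hc' l') := by
    intro l hl l' hl' hne
    by_cases h : l = L
    · have h' : l' ≠ L := fun hc => hne (h.trans hc.symm)
      rw [h, hupL, hupl l' h']
      exact (hdisjL l' (by omega)).symm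
    · by_cases h' : l' = L
      · rw [h', hupL, hupl l h]
        exact hdisjL l (by omega)
      · rw [hupl l h, hupl l' h']
        exact hS.disj l (by omega) l' (by omega) hne
  obtain ⟨D₀, hD₀⟩ := hM (L + 1) Hc' hcard hdisj
  set U := (range (L + 1)).biUnion Hc' with hU
  set r := 2 ^ U.card with hr
  set w := max D₀ (max (2 * M) (4 * r)) with hw
  have hwD : D₀ ≤ w := le_max_left _ _
  have hw2M : 2 * M ≤ w := le_trans (le_max_left _ _) (le_max_right _ _)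
  have hw4r : 4 * r ≤ w := le_trans (le_max_right _ _) (le_max_right _ _)
  have hMw : M ≤ w := by omega
  obtain ⟨v, hv1, hv2, hv3⟩ := next_class K L M β Hc hS H hHc hH w hMw
  obtain ⟨C₁, hC₁⟩ := hD₀ w hwD v hv3
  obtain ⟨C₂, hC₂⟩ := greedy r
  -- the choice of `j`
  have hnt : Tendsto n atTop atTop := hn.tendsto_atTop
  have hlogt : Tendsto (fun N : ℕ => Real.log (N : ℝ)) atTop atTop :=
    Real.tendsto_log_atTop.comp tendsto_natCast_atTop_atTop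
  have hev : ∀ᶠ N : ℕ in atTop, (∃ wt : ℕ → ℝ, (∀ a, 0 ≤ wt a) ∧
          (∀ a, wt a ≠ 0 → N < 8 * a ∧ 8 * a < 7 * N ∧ a % primorial w = v % primorial w) ∧
          0 < ∑ a ∈ range (N + 1), wt a ∧
          (∀ l < L + 1, δ * ∑ a ∈ range (N + 1), wt a ≤
            ∑ a ∈ (range (N + 1)).filter (fun a => ∃ h ∈ Hc' l, (a + h).Prime), wt a) ∧
          (∑ a ∈ range (N + 1), wt a ^ 2) * N ≤
            Real.log N ^ C₁ * (∑ a ∈ range (N + 1), wt a) ^ 2) ∧ M < N ∧ 3 ≤ N ∧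
          (∀ h ∈ H, 16 * h < N) ∧ ∑ l ∈ range (L + 2), K l + 1 ≤ N ∧
          1 ≤ Real.log N ∧ ((L : ℝ) + 1) ^ 2 * C₂ ≤ Real.log N := by
    refine (hC₁.and ?_)
    have e1 := eventually_gt_atTop M
    have e2 := eventually_ge_atTop 3
    have e3 := eventually_gt_atTop (16 * H.sup id)
    have e4 := eventually_ge_atTop (∑ l ∈ range (L + 2), K l + 1)
    have e5 := hlogt.eventually (eventually_ge_atTop (1 : ℝ))
    have e6 := hlogt.eventually (eventually_ge_atTop (((L : ℝ) + 1) ^ 2 * C₂))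
    filter_upwards [e1, e2, e3, e4, e5, e6] with N a1 a2 a3 a4 a5 a6
    refine ⟨a1, a2, fun h hh => ?_, a4, a5, a6⟩
    have : h ≤ H.sup id := Finset.le_sup (f := id) hh
    omega
  have hevj := hnt.eventually hev
  obtain ⟨j, hj, hj1, hj2⟩ := (hevj.and ((eventually_ge_atTop j₀).and
    (eventually_ge_atTop (C₁ + C₂ + 1)))).exists
  obtain ⟨⟨wt, hwt0, hwt, hT, hpr, hsq⟩, hMN, hN3, hHN, hKN, hlog1, hlog⟩ := hj
  set N := n j with hNdef
  -- the classes of the primes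
  let G₁ : Finset ℕ → Finset ℕ := fun F =>
    (range (N + 1)).filter (fun a => wt a ≠ 0 ∧ ∀ h ∈ F, (a + h).Prime)
  obtain ⟨β₁, hβ1, hβ2⟩ := hC₂ (Finset ℕ) U.powerset G₁ w M N
    (by rw [Finset.card_powerset]) hw2M hw4r hN3
  set β' : ℕ → ℕ := fun p => if p ≤ M then β p else if p ≤ w then 0 else β₁ p with hβ'
  have hββ : ∀ p : ℕ, p.Prime → p ≤ M → β' p = β p := fun p _ hp => by simp [hβ', hp]
  set T := ∑ a ∈ range (N + 1), wt a with hTdef
  refine ⟨j, β', H, fun a => wt a / T, hj1, hMN, ?_, hββ, ?_, ?_, ?_, ?_, ?_, ?_⟩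
  · exact next_state K L M β Hc hS H hHc hH N hMN hHN hKN β' hββ
  · intro h hh
    exact ⟨(hH h hh).1, hHN h hh, (hH h hh).2⟩
  · intro p hp hMp hpN a ha1 ha2
    by_cases h2 : p ≤ w
    · have : β' p = 0 := by
        simp only [hβ', if_neg (by omega : ¬ p ≤ M), if_pos h2]
      rw [this, add_zero]
      intro hd
      have := Nat.le_of_dvd (by omega) hd
      omega
    · have : β' p = β₁ p := by
        simp only [hβ', if_neg (by omega : ¬ p ≤ M), if_neg h2]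
      rw [this]
      exact hβ1 p hp (by omega) hpN a ha1 ha2
  · intro a
    exact div_nonneg (hwt0 a) hT.le
  · rw [← Finset.sum_div]
    exact div_self hT.ne'
  · intro l hl
    have h1 := hpr l (by omega)
    rw [← Finset.sum_div, le_div_iff₀ hT]
    refine le_trans h1 (le_of_eq (Finset.sum_congr ?_ (fun _ _ => rfl)))
    ext a
    simp only [Finset.mem_filter]
    exact Iff.rfl
  · intro F hF hsum
    have hFU : F ∈ U.powerset := by
      rw [Finset.mem_powerset]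
      intro a ha
      have := hF ha
      rw [Finset.mem_biUnion] at this
      rw [hU, Finset.mem_biUnion]
      exact this
    refine ⟨(G₁ F).filter (fun a => ∀ p : ℕ, p.Prime → w < p → p ≤ N → ¬ p ∣ a + β₁ p), ?_⟩
    refine stage_sets L M w v N C₁ C₂ j β β₁ β' F wt hwt hMw hT hsq hv1 hv2 rfl
      (G₁ F) _ ?_ ?_ (hβ2 F hFU) _ ?_ hsum hN3 hlog1 hlog hj2
    · intro a
      simp only [G₁, Finset.mem_filter]
    · intro a
      simp only [Finset.mem_filter]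
    · intro a
      simp only [Finset.mem_filter]
      exact Iff.rfl

end Pool.Agent.MT
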