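import Mathlib

set_option autoImplicit false

/-!
# MT / Ultra: a finitely additive probability as an ultralimit

`P E` = limit of `∑_{a < R j, a ∈ E} μ j a ∈ [0, 1]` along a free ultrafilter (`Filter.hyperfilter ℕ`,
`Ultrafilter.lim` or compactness of `Set.Icc 0 1`).
-/

namespace Pool.Agent.MT

open Finset Filter

/-- finitely additive probability on all subsets of `ℕ` -/
structure FinProb (P : Set ℕ → ℝ) : Prop where
  nonneg : ∀ E, 0 ≤ P E
  univ_one : P Set.univ = 1
  add : ∀ E F : Set ℕ, Disjoint E F → P (E ∪ F) = P E + P F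

open Classical in
theorem exists_ultra (R : ℕ → ℕ) (μ : ℕ → ℕ → ℝ) (hμ : ∀ j a, 0 ≤ μ j a)
    (hsum : ∀ j, ∑ a ∈ range (R j), μ j a = 1) :
    ∃ P : Set ℕ → ℝ, FinProb P ∧
      (∀ (E : Set ℕ) (c : ℝ),
        (∀ᶠ j in atTop, c ≤ ∑ a ∈ (range (R j)).filter (fun a => a ∈ E), μ j a) → c ≤ P E) ∧
      ∀ E : Set ℕ, 0 < P E → ∃ ε : ℝ, 0 < ε ∧
        ∃ᶠ j in atTop, ε ≤ ∑ a ∈ (range (R j)).filter (fun a => a ∈ E), μ j a := by
  set f : Set ℕ → ℕ → ℝ := fun E j => ∑ a ∈ (range (R j)).filter (fun a => a ∈ E), μ j a with hf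
  have h0 : ∀ E j, 0 ≤ f E j := fun E j => Finset.sum_nonneg (fun a _ => hμ j a)
  have h1 : ∀ E j, f E j ≤ 1 := by
    intro E j
    rw [← hsum j]
    exact Finset.sum_le_sum_of_subset_of_nonneg (Finset.filter_subset _ _) (fun a _ _ => hμ j a)
  have hex : ∀ E, ∃ x ∈ Set.Icc (0 : ℝ) 1, Tendsto (f E) (hyperfilter ℕ : Filter ℕ) (nhds x) := by
    intro E
    obtain ⟨x, hx, hle⟩ := isCompact_Icc.ultrafilter_le_nhds
      (Ultrafilter.map (f E) (hyperfilter ℕ))
      (show ((Ultrafilter.map (f E) (hyperfilter ℕ) : Ultrafilter ℝ) : Filter ℝ)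
        ≤ Filter.principal (Set.Icc (0 : ℝ) 1) by
        rw [Filter.le_principal_iff, Ultrafilter.coe_map, Filter.mem_map]
        exact Filter.univ_mem' (fun j => ⟨h0 E j, h1 E j⟩))
    exact ⟨x, hx, hle⟩
  choose P hPm hPt using hex
  have hle : (hyperfilter ℕ : Filter ℕ) ≤ atTop := by
    rw [← Nat.cofinite_eq_atTop]
    exact hyperfilter_le_cofinite
  refine ⟨P, ⟨fun E => (hPm E).1, ?_, ?_⟩, ?_, ?_⟩
  · have : f Set.univ = fun _ => (1 : ℝ) := by
      funext j
      simp [hf, hsum j]
    have h := hPt Set.univ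
    rw [this] at h
    exact tendsto_nhds_unique h tendsto_const_nhds
  · intro E F hEF
    have hadd : f (E ∪ F) = fun j => f E j + f F j := by
      funext j
      simp only [hf]
      rw [← Finset.sum_union]
      · congr 1
        ext a
        simp only [Finset.mem_filter, Finset.mem_union, Set.mem_union]
        tauto
      · rw [Finset.disjoint_left]
        intro a ha hb
        rw [Finset.mem_filter] at ha hb
        exact Set.disjoint_left.mp hEF ha.2 hb.2
    have h := hPt (E ∪ F)
    rw [hadd] at h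
    exact tendsto_nhds_unique h ((hPt E).add (hPt F))
  · intro E c hc
    exact ge_of_tendsto (hPt E) (hc.filter_mono hle)
  · intro E hE
    refine ⟨P E / 2, by linarith, ?_⟩
    have h : ∀ᶠ j in (hyperfilter ℕ : Filter ℕ), P E / 2 ≤ f E j := by
      have := (hPt E).eventually (lt_mem_nhds (show P E / 2 < P E by linarith))
      exact this.mono (fun j hj => le_of_lt hj)
    exact (h.frequently).filter_mono hle

theorem FinProb.mono {P : Set ℕ → ℝ} (hP : FinProb P) {E F : Set ℕ} (h : E ⊆ F) : P E ≤ P F := by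
  have h1 : F = E ∪ (F \ E) := by
    rw [Set.union_sdiff_cancel h]
  have h2 := hP.add E (F \ E) Set.disjoint_sdiff_right
  rw [← h1] at h2
  rw [h2]
  linarith [hP.nonneg (F \ E)]

theorem FinProb.empty {P : Set ℕ → ℝ} (hP : FinProb P) : P ∅ = 0 := by
  have h := hP.add ∅ ∅ (by simp)
  simp at h
  exact h

/-- finite subadditivity -/
theorem FinProb.biUnion_le {P : Set ℕ → ℝ} (hP : FinProb P) {ι : Type} (I : Finset ι)
    (E : ι → Set ℕ) : P (⋃ i ∈ I, E i) ≤ ∑ i ∈ I, P (E i) := by
  classical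
  induction I using Finset.induction_on with
  | empty => simp [hP.empty]
  | insert a s ha ih =>
    rw [Finset.sum_insert ha, Finset.set_biUnion_insert]
    have h1 : E a ∪ (⋃ x ∈ s, E x) = E a ∪ ((⋃ x ∈ s, E x) \ E a) := by
      rw [Set.union_sdiff_self]
    rw [h1, hP.add _ _ Set.disjoint_sdiff_right]
    have h2 := hP.mono (show (⋃ x ∈ s, E x) \ E a ⊆ ⋃ x ∈ s, E x from Set.sdiff_subset)
    linarith

/-- finite additivity -/
theorem FinProb.biUnion_eq {P : Set ℕ → ℝ} (hP : FinProb P) {ι : Type} (I : Finset ι)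
    (E : ι → Set ℕ) (hd : ∀ i j, i ≠ j → Disjoint (E i) (E j)) :
    P (⋃ i ∈ I, E i) = ∑ i ∈ I, P (E i) := by
  classical
  induction I using Finset.induction_on with
  | empty => simp [hP.empty]
  | insert a s ha ih =>
    rw [Finset.sum_insert ha, Finset.set_biUnion_insert, hP.add, ih]
    rw [Set.disjoint_left]
    intro x hx hx2
    simp only [Set.mem_iUnion] at hx2
    obtain ⟨i, hi, hxi⟩ := hx2
    exact Set.disjoint_left.mp (hd a i (fun h => ha (h ▸ hi))) hx hxi

/-- number of the first `L` events which contain `a` -/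
noncomputable def hits (E : ℕ → Set ℕ) (a L : ℕ) : ℕ := by
  classical exact ((range L).filter (fun l => a ∈ E l)).card

/-- Markov inequality: the expected number of events is at least `δ L`, and `hits ≤ L`. -/
theorem FinProb.markov {P : Set ℕ → ℝ} (hP : FinProb P) (E : ℕ → Set ℕ) (δ : ℝ) (hδ : 0 < δ)
    (hE : ∀ l, δ ≤ P (E l)) (L : ℕ) :
    δ / 2 ≤ P {a | δ / 2 * L ≤ (hits E a L : ℝ)} := by
  classical
  have hδ1 : δ ≤ 1 := by
    have := hP.mono (Set.subset_univ (E 0))
    rw [hP.univ_one] at this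
    exact (hE 0).trans this
  rcases Nat.eq_zero_or_pos L with hL | hL
  · subst hL
    have : {a | δ / 2 * ((0 : ℕ) : ℝ) ≤ (hits E a 0 : ℝ)} = Set.univ := by
      ext a
      simp
    rw [this, hP.univ_one]
    linarith
  set pat : ℕ → Finset ℕ := fun a => (range L).filter (fun l => a ∈ E l) with hpat
  set A : Finset ℕ → Set ℕ := fun s => {a | pat a = s} with hA
  have hdis : ∀ s t, s ≠ t → Disjoint (A s) (A t) := by
    intro s t hst
    rw [Set.disjoint_left]
    intro a ha hb
    exact hst (ha.symm.trans hb)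
  have hhits : ∀ a, hits E a L = (pat a).card := fun a => rfl
  have hmem : ∀ a, pat a ∈ (range L).powerset := fun a =>
    Finset.mem_powerset.mpr (Finset.filter_subset _ _)
  -- total mass
  have htot : ∑ s ∈ (range L).powerset, P (A s) = 1 := by
    rw [← hP.biUnion_eq _ _ hdis, ← hP.univ_one]
    congr 1
    ext a
    simp only [Set.mem_iUnion, Set.mem_univ, iff_true]
    exact ⟨pat a, hmem a, rfl⟩
  have hEl : ∀ l ∈ range L, P (E l) = ∑ s ∈ (range L).powerset.filter (fun s => l ∈ s), P (A s) := by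
    intro l hl
    rw [← hP.biUnion_eq _ _ hdis]
    congr 1
    ext a
    simp only [Set.mem_iUnion, Finset.mem_filter]
    constructor
    · intro ha
      exact ⟨pat a, ⟨hmem a, Finset.mem_filter.mpr ⟨hl, ha⟩⟩, rfl⟩
    · rintro ⟨s, ⟨_, hls⟩, has⟩
      have : pat a = s := has
      rw [← this] at hls
      exact (Finset.mem_filter.mp hls).2
  have hgood : P {a | δ / 2 * L ≤ (hits E a L : ℝ)}
      = ∑ s ∈ (range L).powerset.filter (fun s => δ / 2 * L ≤ (s.card : ℝ)), P (A s) := by
    rw [← hP.biUnion_eq _ _ hdis]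
    congr 1
    ext a
    simp only [Set.mem_iUnion, Finset.mem_filter, Set.mem_ofPred_eq, hhits]
    constructor
    · intro ha
      exact ⟨pat a, ⟨hmem a, ha⟩, rfl⟩
    · rintro ⟨s, ⟨_, hs⟩, has⟩
      have : pat a = s := has
      rw [this]
      exact hs
  have hexp : ∑ l ∈ range L, P (E l) = ∑ s ∈ (range L).powerset, (s.card : ℝ) * P (A s) := by
    rw [Finset.sum_congr rfl hEl]
    simp_rw [Finset.sum_filter]
    rw [Finset.sum_comm]
    refine Finset.sum_congr rfl (fun s hs => ?_)
    rw [← Finset.sum_filter, Finset.sum_const, nsmul_eq_mul]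
    congr 2
    have hs' : s ⊆ range L := Finset.mem_powerset.mp hs
    congr 1
    ext l
    simp only [Finset.mem_filter]
    exact ⟨fun h => h.2, fun h => ⟨hs' h, h⟩⟩
  have hlow : δ * L ≤ ∑ l ∈ range L, P (E l) := by
    have : ∑ _l ∈ range L, δ ≤ ∑ l ∈ range L, P (E l) := Finset.sum_le_sum (fun l _ => hE l)
    simp at this
    linarith
  have hup : ∑ s ∈ (range L).powerset, (s.card : ℝ) * P (A s)
      ≤ L * (∑ s ∈ (range L).powerset.filter (fun s => δ / 2 * L ≤ (s.card : ℝ)), P (A s))
        + δ / 2 * L := by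
    have hsplit := Finset.sum_filter_add_sum_filter_not (range L).powerset
      (fun s => δ / 2 * L ≤ (s.card : ℝ)) (fun s => (s.card : ℝ) * P (A s))
    rw [← hsplit, Finset.mul_sum]
    refine add_le_add (Finset.sum_le_sum (fun s hs => ?_)) ?_
    · have hs' : s ⊆ range L := Finset.mem_powerset.mp (Finset.mem_filter.mp hs).1
      have hc : (s.card : ℝ) ≤ L := by
        have := Finset.card_le_card hs'
        rw [Finset.card_range] at this
        exact_mod_cast this
      exact mul_le_mul_of_nonneg_right hc (hP.nonneg _)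
    · have h1 : ∑ s ∈ (range L).powerset.filter (fun s => ¬ δ / 2 * L ≤ (s.card : ℝ)),
          (s.card : ℝ) * P (A s)
          ≤ ∑ s ∈ (range L).powerset.filter (fun s => ¬ δ / 2 * L ≤ (s.card : ℝ)),
          (δ / 2 * L) * P (A s) := by
        refine Finset.sum_le_sum (fun s hs => ?_)
        have hs' := (Finset.mem_filter.mp hs).2
        exact mul_le_mul_of_nonneg_right (le_of_lt (not_le.mp hs')) (hP.nonneg _)
      rw [← Finset.mul_sum] at h1
      have h2 : ∑ s ∈ (range L).powerset.filter (fun s => ¬ δ / 2 * L ≤ (s.card : ℝ)), P (A s)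
          ≤ 1 := by
        rw [← htot]
        exact Finset.sum_le_sum_of_subset_of_nonneg (Finset.filter_subset _ _)
          (fun s _ _ => hP.nonneg _)
      have h3 : 0 ≤ δ / 2 * L := by positivity
      calc _ ≤ _ := h1
        _ ≤ δ / 2 * L * 1 := mul_le_mul_of_nonneg_left h2 h3
        _ = δ / 2 * L := by ring
  rw [hgood]
  have hLr : (0 : ℝ) < L := by exact_mod_cast hL
  set G := ∑ s ∈ (range L).powerset.filter (fun s => δ / 2 * L ≤ (s.card : ℝ)), P (A s) with hG
  have : δ * L ≤ L * G + δ / 2 * L := by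
    calc δ * L ≤ _ := hlow
      _ = _ := hexp
      _ ≤ _ := hup
  have h4 : L * (δ / 2) ≤ L * G := by linarith
  exact le_of_mul_le_mul_left h4 hLr

end Pool.Agent.MT
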